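import Mathlib
import Pool.Graph.R_seed8.TH115.GD.Defs
import Pool.Agent.Helper55.RL.Def

/-!
# Thin sets, and Galois extensions of the field of constants: the definitions
-/

set_option autoImplicit false
set_option linter.all false

open Polynomial

namespace Pool.Agent.Helper55.RT

open Pool.Agent.TH115.GD Pool.Agent.Helper55.RL

/-- The monic polynomial `X ^ n + a_{n-1} X ^ (n-1) + ⋯ + a₁ X + a₀`. -/
noncomputable def monicPoly {k : Type} [Field k] {n : ℕ} (a : Fin n → k) : k[X] :=
  X ^ n + ∑ i : Fin n, C (a i) * X ^ (i : ℕ)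

/-- `Q` holds outside of a thin subset of `k ^ n`: there are a polynomial `h ≠ 0` in `n` variables and
finitely many polynomials `f` in `k[a₁, …, aₙ][Y]`, monic in `Y` and irreducible over `k(a₁, …, aₙ)`, such
that `Q a` holds for all the `a` in `k ^ n` with `h(a) ≠ 0` for which all the `f(a, Y)` are irreducible over
`k`. (These `a` form a Hilbert subset of `k ^ n`, which is not empty, and even Zariski dense, if `k` is a
Hilbertian field, for example a field which is finitely generated over the rational numbers.) -/
def OutsideThin {k : Type} [Field k] {n : ℕ} (Q : (Fin n → k) → Prop) : Prop :=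
  ∃ (h : MvPolynomial (Fin n) k) (S : Finset (MvPolynomial (Fin n) k)[X]), h ≠ 0 ∧
    (∀ f ∈ S, f.Monic ∧
      Irreducible (f.map (algebraMap (MvPolynomial (Fin n) k)
        (FractionRing (MvPolynomial (Fin n) k))))) ∧
    ∀ a : Fin n → k, MvPolynomial.eval a h ≠ 0 →
      (∀ f ∈ S, Irreducible (f.map (MvPolynomial.eval a))) → Q a

/-- `VanishGal p k' K F L P D`: let `κ` be any finite Galois extension of `k` in `k'` which does not contain
all the roots of `D`, `k₂` a subfield of `κ` and `K₂ = k₂(t)`. For all representations of the Galois group of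
`K₂` in `GL_d(ℤ_p)` (any `d`) as in `VanishL`, for the extension `κ(t) L` of `K₂` (that is, such that the
image modulo `p` of the Galois group of `κ(t) L` is a `p`-group), the fixed classes vanish. -/
def VanishGal (p : ℕ) [Fact p.Prime] (k' K F : Type) {k : Type} [Field k] [Field k'] [Algebra k k']
    [Field K] [Field F] [Algebra k'[X] F] [IsFractionRing k'[X] F] [Algebra K F]
    (L : IntermediateField K (Sep F)) (P D : k[X]) : Prop :=
  ∀ k₂ κ : IntermediateField k k', k₂ ≤ κ → FiniteDimensional k κ → IsGalois k κ →
    (∃ θ : k', aeval θ D = 0 ∧ θ ∉ κ) →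
    ∀ (K₂ : Type) [Field K₂] [Algebra k₂[X] K₂] [Algebra K₂ F], IsTower k₂ k' K₂ F →
      VanishL p k' K₂ F (IntermediateField.adjoin K₂ ((L : Set (Sep F)) ∪
          (fun e : k' => algebraMap F (Sep F) (algebraMap k'[X] F (C e))) '' (κ : Set k')))
        (P.map (algebraMap k k₂)) (D.map (algebraMap k k₂))

end Pool.Agent.Helper55.RT
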