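import Mathlib
import Pool.Graph.R_seed8.TH115.GD.Defs
import Pool.Agent.Helper55.RL.Def

/-!
# Subrepresentations of the cohomology: the definitions
-/

set_option autoImplicit false
set_option linter.all false

open Polynomial IsDedekindDomain

namespace Pool.Agent.Helper55.RT

open Pool.Agent.TH115.GD Pool.Agent.Helper55.RL

/-- The `c_1, …, c_m` are continuous cocycles of the Galois group of `F` with values in `V = ℚ_p ^ d`, and
`e_j ↦ [c_j]` is a homomorphism of representations of the Galois group of `K` from `M = ℚ_p ^ m` (with the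
action given by `δ`) to `H¹(F, V)`: for all `τ` and `j` the cocycle `τ c_j - ∑ δ(τ)_{ij} c_i` is a
coboundary, where `(τ c) (σ) = τ (c (τ⁻¹ σ τ))`. -/
structure IsHomH1 {p : ℕ} [Fact p.Prime] {K F : Type} [Field K] [Field F] [Algebra K F] {d m : ℕ}
    (ρ : (Sep F ≃ₐ[K] Sep F) →* GL (Fin d) ℤ_[p]) (δ : (Sep F ≃ₐ[K] Sep F) →* GL (Fin m) ℤ_[p])
    (c : Fin m → (Sep F ≃ₐ[F] Sep F) → Fin d → ℚ_[p]) : Prop where
  cont : ∀ j, Continuous (c j)
  mul : ∀ j σ τ, c j (σ * τ) = c j σ + actQ ρ (σ.restrictScalars K) (c j τ)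
  equiv : ∀ (τ : Sep F ≃ₐ[K] Sep F) (j : Fin m), ∃ y : Fin d → ℚ_[p],
    ∀ σ σ' : Sep F ≃ₐ[F] Sep F, (∀ x, τ (σ' x) = σ (τ x)) →
      actQ ρ τ (c j σ') - ∑ i, algebraMap ℤ_[p] ℚ_[p] ((δ τ).1 i j) • c i σ =
        actQ ρ (σ.restrictScalars K) y - y

/-- `NoSub p k' K F L P D`: let `V` be a representation of the Galois group of `K = k(t)` as in `VanishL`,
and `M` any continuous representation of the Galois group of `k` in `GL_m(ℤ_p)`, such that `n!` does not
divide `2 |GL_m(𝔽_p)|`, where `n` is the degree of `D`. Then there are no nonzero homomorphisms of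
Galois representations from `M` to the space of the classes in `H¹(F, V)` which are locally trivial at the
roots of `D` and at the places which are not roots of `P D` or infinite. -/
def NoSub (p : ℕ) [Fact p.Prime] (k' K F : Type) {k : Type} [Field k] [Field k'] [Algebra k k']
    [Field K] [Field F] [Algebra k'[X] F] [IsFractionRing k'[X] F] [Algebra K F]
    (L : IntermediateField K (Sep F)) (P D : k[X]) : Prop :=
  ∀ m : ℕ, ¬ (Nat.factorial D.natDegree ∣ 2 * Nat.card (GL (Fin m) (ZMod p))) →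
    ∀ (d : ℕ) (ρ : (Sep F ≃ₐ[K] Sep F) →* GL (Fin d) ℤ_[p]), Continuous ρ → IsProPOn L ρ →
    UnramOutside k' (P * D) ρ → NoInvAtRoots k' D ρ →
    ∀ δ : (Sep F ≃ₐ[K] Sep F) →* GL (Fin m) ℤ_[p], Continuous δ →
    (∀ σ : Sep F ≃ₐ[F] Sep F, δ (σ.restrictScalars K) = 1) →
    ∀ c : Fin m → (Sep F ≃ₐ[F] Sep F) → Fin d → ℚ_[p], IsHomH1 ρ δ c →
      (∀ j, LocTrivial k' (P * D) D ρ (c j)) → ∀ j, IsCob ρ (c j)

/-- `NoSubGal p k' K F L P D`: let `κ` be any finite Galois extension of `k` in `k'` which does not contain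
all the roots of `D`, `k₂` a subfield of `κ` and `K₂ = k₂(t)`. Then `NoSub` holds for the representations `V`
of the Galois group of `K₂` (the image modulo `p` of the Galois group of `κ(t) L` is a `p`-group) and the
representations `M` of the Galois group of `k₂`. -/
def NoSubGal (p : ℕ) [Fact p.Prime] (k' K F : Type) {k : Type} [Field k] [Field k'] [Algebra k k']
    [Field K] [Field F] [Algebra k'[X] F] [IsFractionRing k'[X] F] [Algebra K F]
    (L : IntermediateField K (Sep F)) (P D : k[X]) : Prop :=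
  ∀ k₂ κ : IntermediateField k k', k₂ ≤ κ → FiniteDimensional k κ → IsGalois k κ →
    (∃ θ : k', aeval θ D = 0 ∧ θ ∉ κ) →
    ∀ (K₂ : Type) [Field K₂] [Algebra k₂[X] K₂] [Algebra K₂ F], IsTower k₂ k' K₂ F →
      NoSub p k' K₂ F (IntermediateField.adjoin K₂ ((L : Set (Sep F)) ∪
          (fun e : k' => algebraMap F (Sep F) (algebraMap k'[X] F (C e))) '' (κ : Set k')))
        (P.map (algebraMap k k₂)) (D.map (algebraMap k k₂))

end Pool.Agent.Helper55.RT
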