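import Pool.Agent.Helper55.RT.Spec
import Pool.Agent.Helper55.RT.Def2

/-!
# Subrepresentations of the cohomology: the statements of the parts
-/

set_option autoImplicit false
set_option linter.all false

open Polynomial IsDedekindDomain
open scoped Classical

namespace Pool.Agent.Helper55.RT

open Pool.Agent.TH115.GD Pool.Agent.Helper55.TT
open Pool.Agent.Helper55.RG hiding em_inj VanishL VanishExt
open Pool.Agent.Helper55.RL

/-- TNS: homomorphisms from `M` to `H¹(F, V)` are fixed classes in `H¹(F, V ⊗ M^*)`. -/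
def Q_TNS : Prop := ∀ (p : ℕ) [Fact p.Prime] (k k' K F : Type) [Field k] [Field k'] [Algebra k k']
  [Field K] [Field F] [Algebra k'[X] F] [IsFractionRing k'[X] F] [Algebra K F]
  (L : IntermediateField K (Sep F)) (P D : k[X]), VanishL p k' K F L P D →
  ∀ (d m : ℕ) (ρ : (Sep F ≃ₐ[K] Sep F) →* GL (Fin d) ℤ_[p]), Continuous ρ → IsProPOn L ρ →
  UnramOutside k' (P * D) ρ → NoInvAtRoots k' D ρ →
  ∀ δ : (Sep F ≃ₐ[K] Sep F) →* GL (Fin m) ℤ_[p], Continuous δ → IsProPOn L δ →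
  (∀ σ : Sep F ≃ₐ[F] Sep F, δ (σ.restrictScalars K) = 1) →
  ∀ c : Fin m → (Sep F ≃ₐ[F] Sep F) → Fin d → ℚ_[p], IsHomH1 ρ δ c →
    (∀ j, LocTrivial k' (P * D) D ρ (c j)) → ∀ j, IsCob ρ (c j)

/-- KMM: the finite Galois extension `κ` of `k` given by `M` modulo `p`. -/
def Q_KMM : Prop := ∀ (p : ℕ) [Fact p.Prime] (k k' K F : Type) [Field k] [CharZero k] [Field k']
  [Algebra k k'] [Field K] [Algebra k[X] K] [Field F] [Algebra k'[X] F] [IsFractionRing k'[X] F]
  [Algebra K F], IsTower k k' K F → ∀ (m : ℕ) (δ : (Sep F ≃ₐ[K] Sep F) →* GL (Fin m) ℤ_[p]),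
  Continuous δ → (∀ σ : Sep F ≃ₐ[F] Sep F, δ (σ.restrictScalars K) = 1) →
  ∃ κ : IntermediateField k k', FiniteDimensional k κ ∧ IsGalois k κ ∧
    Module.finrank k κ ∣ Nat.card (GL (Fin m) (ZMod p)) ∧
    ∀ τ : Sep F ≃ₐ[K] Sep F, (∀ c ∈ κ, τ (em k' F (Sep F) (C c)) = em k' F (Sep F) (C c)) →
      ∀ i j, (p : ℤ_[p]) ∣ ((δ τ).1 - 1) i j

/-- GFU: the degrees of the extensions which contain the roots of `D` are divisible by `n!`. -/
def Q_GFU : Prop := ∀ (k k' : Type) [Field k] [CharZero k] [Field k'] [Algebra k k']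
  [IsSepClosure k k'] (κ₀ : IntermediateField k k') (g : κ₀[X][X]), g.Monic → 0 < g.natDegree →
  ∀ (n : ℕ) (D : k[X]) (θ : Fin n → k'), 2 ≤ n → Irreducible D →
  D.map (algebraMap k k') = ∏ i, (X - C (θ i)) → Wr κ₀ g n D →
  ∀ κ : IntermediateField k k', FiniteDimensional k κ → (∀ i, θ i ∈ κ) →
    Nat.factorial n ∣ Module.finrank k κ

end Pool.Agent.Helper55.RT
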