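import Pool.Agent.Helper55.RT.Kap
import Pool.Agent.Helper55.RT.Spec3
import Pool.Agent.Helper55.RT.Def

/-!
# The theorem over all fields of characteristic zero
-/

set_option autoImplicit false
set_option linter.all false

open Polynomial IsDedekindDomain
open scoped Classical

namespace Pool.Agent.Helper55.RT

open Pool.Agent.TH115.GD Pool.Agent.Helper55.TT
open Pool.Agent.Helper55.UV (IsCo IsCoG IsInvt rH rH_inj rH_apply)
open Pool.Agent.Helper55.RG hiding em_inj VanishL VanishExt
open Pool.Agent.Helper55.RL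

/-- an ordering of the roots -/
theorem exists_roots {k' : Type} [Field k'] [IsAlgClosed k'] {D : k'[X]} (hD : D.Monic) :
    ∃ θ : Fin D.natDegree → k', D = ∏ i, (X - C (θ i)) := by
  have h1 := (IsAlgClosed.splits D).natDegree_eq_card_roots
  set l := D.roots.toList with hl
  have hlen : l.length = D.natDegree := by
    rw [hl, Multiset.length_toList, h1]
  have h2 : D = (l.map fun x => X - C x).prod := by
    have h3 := (IsAlgClosed.splits D).eq_prod_roots_of_monic hD
    conv_lhs => rw [h3]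
    have h4 : D.roots = (l : Multiset k') := (Multiset.coe_toList _).symm
    rw [h4, Multiset.map_coe, Multiset.prod_coe]
  refine ⟨fun i => l[(i : ℕ)]'(by rw [hlen]; exact i.2), ?_⟩
  have h5 : (l.map fun x => X - C x).length = D.natDegree := by rw [List.length_map, hlen]
  have h6 := Fin.prod_univ_getElem (l.map fun x => (X - C x : k'[X]))
  conv_lhs => rw [h2, ← h6]
  rw [← (Fin.castOrderIso h5).toEquiv.prod_comp]
  refine Finset.prod_congr rfl fun i _ => ?_
  simp

theorem mpol_natDegree {k : Type} [Field k] {n : ℕ} (a : Fin n → k) :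
    (mpol a).Monic ∧ (mpol a).natDegree = n := by
  have h1 : (∑ i : Fin n, C (a i) * X ^ (i : ℕ) : k[X]).degree < n := by
    rw [← mem_degreeLT]
    refine Submodule.sum_mem _ fun i _ => ?_
    rw [mem_degreeLT]
    refine lt_of_le_of_lt (degree_C_mul_X_pow_le _ _) ?_
    exact_mod_cast i.2
  have h2 : (mpol a).Monic := monic_X_pow_add h1
  refine ⟨h2, ?_⟩
  have h3 : (mpol a).degree = n := by
    unfold mpol
    rw [degree_add_eq_left_of_degree_lt (by rw [degree_X_pow]; exact h1), degree_X_pow]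
  exact natDegree_eq_of_degree_eq_some h3

section tower

variable {k k' K F : Type} [Field k] [Field k'] [Algebra k k'] [Field K]
    [Algebra k[X] K] [Field F] [Algebra k'[X] F] [IsFractionRing k'[X] F] [Algebra K F]

/-- the field `κ(t)` -/
theorem exists_tower {κ : IntermediateField k k'} [IsSepClosure κ k'] :
    ∃ (K' : Type) (_ : Field K') (_ : Algebra κ[X] K') (_ : Algebra K' F), IsTower κ k' K' F := by
  have hinj : Function.Injective ((algebraMap k'[X] F).comp (mapRingHom (algebraMap κ k'))) :=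
    (IsFractionRing.injective k'[X] F).comp (map_injective _ (algebraMap κ k').injective)
  refine ⟨FractionRing κ[X], inferInstance, inferInstance,
    (IsFractionRing.lift hinj : FractionRing κ[X] →+* F).toAlgebra, ?_⟩
  letI : Algebra (FractionRing κ[X]) F :=
    (IsFractionRing.lift hinj : FractionRing κ[X] →+* F).toAlgebra
  exact ⟨inferInstance, inferInstance, fun q => IsFractionRing.lift_algebraMap hinj q⟩

end tower

section main

variable {k k' K F : Type} [Field k] [CharZero k] [Field k'] [Algebra k k'] [Field K]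
    [Algebra k[X] K] [Field F] [Algebra k'[X] F] [IsFractionRing k'[X] F] [Algebra K F]

/-- the degrees of the extensions which contain all the roots are divisible by `n!` -/
def FullDeg {k : Type} [Field k] (k' : Type) [Field k'] [Algebra k k'] (D : k[X]) : Prop :=
  ∀ κ : IntermediateField k k', FiniteDimensional k κ → (∀ θ : k', aeval θ D = 0 → θ ∈ κ) →
    Nat.factorial D.natDegree ∣ Module.finrank k κ

/-- `D` is irreducible, and its Galois group over each finite Galois extension which does not contain all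
the roots contains the alternating group -/
def GalBig {k : Type} [Field k] (k' : Type) [Field k'] [Algebra k k'] (n : ℕ) (D : k[X]) : Prop :=
  Irreducible D ∧ ∃ θ : Fin n → k', D.map (algebraMap k k') = ∏ i, (X - C (θ i)) ∧
    ∀ κ : IntermediateField k k', FiniteDimensional k κ → IsGalois k κ →
      (∃ x : k', aeval x D = 0 ∧ x ∉ κ) → Alt κ θ

theorem Alt.mono {k k' : Type} [Field k] [Field k'] [Algebra k k'] {κ κ' : IntermediateField k k'}
    (h : κ ≤ κ') {n : ℕ} {θ : Fin n → k'} (hA : Alt κ' θ) : Alt κ θ := by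
  intro π hπ
  obtain ⟨ν, hν⟩ := hA π hπ
  refine ⟨AlgEquiv.ofRingEquiv (f := ν.toRingEquiv) (fun x => ?_), hν⟩
  exact ν.commutes (⟨x, h x.2⟩ : κ')

/-- **The theorem over all fields of characteristic zero.** -/
theorem thin_all {p : ℕ} [hpf : Fact p.Prime] (hDSL : P_DLP) (hKUM : P_KMP) (hCJ1 : S_CJ1)
    (hCJ2 : S_CJ2) (hCH1 : P_CP1) (hSUR : S_SUR) (hCON : S_CON) (hHFP : P_HFP) (hWRT : Q_WRT)
    (hNDV : Q_NDV) (hGRP : Q_GRP) (hCMM : Q_CMM) (hSPT : Q_SPT) (hIRD : Q_IRD) (hIDP : Q_IDP)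
    (hABP : Q_ABP) (hDSG : Q_DSG) (hMIR : Q_MIR) (hBOT : Q_BOT) (hRSV : Q_RSV) (hGFU : Q_GFU)
    (hT : IsTower k k' K F) (L₀ : IntermediateField K (Sep F)) [FiniteDimensional K L₀]
    {P : k[X]} (hP : P ≠ 0) {n : ℕ} (hn : 5 ≤ n) :
    OutsideThin fun a : Fin n → k => VanishGal p k' K F L₀ P (monicPoly a) ∧
      FullDeg k' (monicPoly a) ∧ GalBig k' n (monicPoly a) := by
  haveI := hT.sep
  haveI := hT.fracK
  haveI : IsAlgClosed k' := isAC (k := k)
  haveI : CharZero k' := charZero_of_injective_algebraMap (algebraMap k k').injective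
  haveI : IsSepClosure K (Sep F) := sepKΩ hT.map
  haveI : Algebra.IsSeparable K (Sep F) := IsSepClosure.separable
  haveI : IsGalois K (Sep F) := inferInstance
  haveI : Algebra.IsSeparable k k' := IsSepClosure.separable
  set μ : Set (Sep F) := (fun e : k' => em k' F (Sep F) (C e)) '' {e : k' | e ^ p = 1} with hμd
  have hμf : {e : k' | e ^ p = 1}.Finite := by
    refine (Polynomial.finite_setOf_isRoot (X_pow_sub_C_ne_zero hpf.out.pos (1 : k'))).subset ?_
    intro e he
    show (X ^ p - C (1 : k')).eval e = 0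
    rw [eval_sub, eval_pow, eval_X, eval_C, he, sub_self]
  haveI : Finite μ := hμf.image _
  haveI : FiniteDimensional K (IntermediateField.adjoin K μ) :=
    IntermediateField.finiteDimensional_adjoin fun x _ => Algebra.IsSeparable.isIntegral K x
  haveI : FiniteDimensional K (L₀ ⊔ IntermediateField.adjoin K μ : IntermediateField K (Sep F)) :=
    IntermediateField.finiteDimensional_sup _ _
  obtain ⟨s, L, L2, hs, hPs, hL₀', hle, hfd, hnL, hfd2, hn2, hunr, hfin⟩ :=
    hHFP p k k' K F hT (L₀ ⊔ IntermediateField.adjoin K μ) (fun e he =>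
      le_sup_right (a := L₀) (IntermediateField.subset_adjoin _ _ ⟨e, he, rfl⟩)) P hP
  haveI := hfd
  haveI := hnL
  haveI := hfd2
  haveI := hn2
  have hL₀ : L₀ ≤ L := le_sup_left.trans hL₀'
  have hμ : ∀ e : k', e ^ p = 1 → em k' F (Sep F) (C e) ∈ L := fun e he =>
    hL₀' (le_sup_right (a := L₀) (IntermediateField.subset_adjoin _ _ ⟨e, he, rfl⟩))
  haveI : FiniteDimensional k (consts hT L) := fin_consts hT L
  -- the field `κ₀`
  obtain ⟨S', hS'⟩ : ∃ S' : Finset k', consts hT L = IntermediateField.adjoin k (S' : Set k') := by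
    obtain ⟨S', hS'⟩ := IntermediateField.essFiniteType_iff.1
      (inferInstance : Algebra.EssFiniteType k (consts hT L))
    exact ⟨S', hS'.symm⟩
  have hrf : {r : k' | aeval r s = 0}.Finite := by
    have h1 : (s.map (algebraMap k k')) ≠ 0 := by rwa [Ne, Polynomial.map_eq_zero]
    refine (Polynomial.finite_setOf_isRoot h1).subset ?_
    intro θ hθ
    show (s.map (algebraMap k k')).eval θ = 0
    rw [eval_map_algebraMap]
    exact hθ
  obtain ⟨κ₀, g, α, s₁, hκf, hκn, hTκ, hg, hg0, hgabs, hL2, hα, hs₁, hsep⟩ :=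
    hDSG k k' K F hT L2 (({r : k' | aeval r s = 0} ∪ {e : k' | e ^ p = 1}) ∪ (S' : Set k'))
      ((hrf.union hμf).union S'.finite_toSet)
  haveI := hκf
  haveI := hκn
  have hcon₀ : consts hT L ≤ κ₀ := by
    rw [hS', IntermediateField.adjoin_le_iff]
    exact fun x hx => hTκ x (Or.inr hx)
  have hrκ : ∀ r : k', aeval r s = 0 → r ∈ κ₀ := fun r hr => hTκ r (Or.inl (Or.inl hr))
  have hμκ : ∀ e : k', e ^ p = 1 → e ∈ κ₀ := fun e he => hTκ e (Or.inl (Or.inr he))
  -- the polynomials `S`
  have hs0 : (s.map (algebraMap k κ₀)) ^ (p - 1) ≠ 0 := by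
    apply pow_ne_zero
    rwa [Ne, Polynomial.map_eq_zero]
  obtain ⟨𝒮, h𝒮⟩ := fin_div hs0
  set 𝒮' : Finset κ₀[X] := 𝒮.filter fun S => S.Monic ∧ S ∣ (s.map (algebraMap k κ₀)) ^ (p - 1) ∧
    (∀ q : κ₀[X], Irreducible q → ¬ q ^ p ∣ S) ∧ S ≠ 1 with h𝒮'
  have o1 : OffThin fun a : Fin n → k => ∀ S ∈ 𝒮', Wr κ₀ (X ^ p - C S) n (mpol a) := by
    refine OffThin.finset 𝒮' fun S hS => ?_
    obtain ⟨-, h1, h2, h3, h4⟩ := Finset.mem_filter.1 hS
    exact hWRT k k' κ₀ (X ^ p - C S) (monic_X_pow_sub_C S hpf.out.ne_zero)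
      (hABP p k k' κ₀ s hs hrκ S h1 h2 h3 h4) n
  have o2 : OffThin fun a : Fin n → k => Wr κ₀ g n (mpol a) := hWRT k k' κ₀ g hg hgabs n
  have o3 := hNDV k n (by omega) (s * s₁) (mul_ne_zero hs hs₁)
  refine (o1.and (o2.and o3)).mono ?_
  rintro a ⟨h1, h2, hirr, hdiv⟩
  set D : k[X] := mpol a with hD
  have hmD := mpol_natDegree a
  -- the roots
  obtain ⟨θ, hθ⟩ : ∃ θ : Fin n → k', D.map (algebraMap k k') = ∏ i, (X - C (θ i)) := by
    obtain ⟨θ, hθ⟩ := exists_roots (hmD.1.map (algebraMap k k'))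
    have h3 : (D.map (algebraMap k k')).natDegree = n := by
      rw [natDegree_map, hmD.2]
    refine ⟨θ ∘ Fin.cast h3.symm, hθ.trans ?_⟩
    exact (Equiv.prod_comp (finCongr h3.symm) fun i => (X - C (θ i) : k'[X])).symm
  have hroot : ∀ x : k', aeval x D = 0 → ∃ i, x = θ i := by
    intro x hx
    have h3 : (D.map (algebraMap k k')).eval x = 0 := by rwa [eval_map_algebraMap]
    rw [hθ, eval_prod, Finset.prod_eq_zero_iff] at h3
    obtain ⟨i, -, hi⟩ := h3
    refine ⟨i, ?_⟩
    rw [eval_sub, eval_X, eval_C, sub_eq_zero] at hi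
    exact hi
  have hroot' : ∀ i, aeval (θ i) D = 0 := by
    intro i
    rw [← eval_map_algebraMap, hθ, eval_prod]
    apply Finset.prod_eq_zero (Finset.mem_univ i)
    rw [eval_sub, eval_X, eval_C, sub_self]
  have hbig : ∀ κ : IntermediateField k k', FiniteDimensional k κ → IsGalois k κ →
      (∃ x : k', aeval x D = 0 ∧ x ∉ κ) → Alt (κ ⊔ κ₀) θ := by
    intro κ hκfd hκg hex
    haveI := hκfd
    haveI := hκg
    haveI : Normal k κ := hκg.to_normal
    haveI : Normal k (κ ⊔ κ₀ : IntermediateField k k') := IntermediateField.normal_sup k k' κ κ₀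
    refine hGRP k k' κ₀ (κ ⊔ κ₀) le_sup_right g hg hg0 n D θ hn hirr hθ h2 ?_
    by_contra hcon
    push Not at hcon
    obtain ⟨x, hx, hxκ⟩ := hex
    obtain ⟨i, rfl⟩ := hroot x hx
    exact hxκ (hSPT k k' κ₀ κ g hg hg0 n D θ (by omega) hirr hθ h2 hcon i)
  refine ⟨?_, fun κ hκ hall => ?_, hirr, θ, hθ, fun κ h5 h6 h7 =>
    (hbig κ h5 h6 h7).mono le_sup_left⟩
  swap
  · rw [show (monicPoly a).natDegree = n from hmD.2]
    exact hGFU k k' κ₀ g hg hg0 n D θ (by omega) hirr hθ h2 κ hκ fun i => hall _ (hroot' i)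
  intro k₂ κ hk₂κ hκfd hκg hex K₂ _ _ _ hT₂
  haveI := hκfd
  haveI := hκg
  have hAlt := hbig κ hκfd hκg hex
  set κ' : IntermediateField k k' := κ ⊔ κ₀ with hκ'
  haveI : FiniteDimensional k κ' := IntermediateField.finiteDimensional_sup _ _
  haveI : Normal k κ := hκg.to_normal
  haveI : Normal k κ' := IntermediateField.normal_sup k k' κ κ₀
  have hκ₀κ' : κ₀ ≤ κ' := le_sup_right
  have hκκ' : κ ≤ κ' := le_sup_left
  have hss : ∀ x : k', aeval x D = 0 → aeval x s ≠ 0 ∧ aeval x s₁ ≠ 0 := by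
    intro x hx
    have h3 : aeval x (s * s₁) ≠ 0 := fun h => hdiv ((dvd_iff_aeval hirr hx).2 h)
    rw [map_mul] at h3
    exact ⟨left_ne_zero_of_mul h3, right_ne_zero_of_mul h3⟩
  have hDκ : Irreducible (D.map (algebraMap k κ')) := hIRD k k' κ' n D θ hn hirr hθ hAlt
  have hind : IndepP p (D.map (algebraMap k κ')) (s.map (algebraMap k κ')) :=
    hIDP p k k' κ₀ κ' hκ₀κ' hμκ n D θ hn hirr hθ hAlt s hs hrκ (fun i => (hss _ (hroot' i)).1)
      (fun S hS1 hS2 hS3 hS4 => h1 S (Finset.mem_filter.2 ⟨h𝒮 S hS1 hS2, hS1, hS2, hS3, hS4⟩))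
  have hDs : ¬ D ∣ s := fun h => hdiv (h.mul_right s₁)
  haveI : IsSepClosure κ' k' := sepcl (k := k)
  obtain ⟨K', _, _, _, hT'⟩ := exists_tower (k := k) (k' := k') (F := F) (κ := κ')
  have key := vanish_kappa hDSL hKUM hCJ1 hCJ2 hCH1 hSUR hCON hMIR hBOT hT hs hPs hL₀ hle hμ hunr
    hfin hκ₀κ' (hcon₀.trans hκ₀κ') hg hg0 hL2 hα hDκ hind hDs
    (fun x hx => hsep x (hss x hx).2) (fun x b b' hx hb hb' => by
      obtain ⟨i, rfl⟩ := hroot x hx
      exact hCMM k k' κ₀ κ' hκ₀κ' g n D θ hn hirr hθ h2 hAlt i b b' hb hb') K' hT'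
  set S : Set (Sep F) := (L₀ : Set (Sep F)) ∪
    (fun e : k' => algebraMap F (Sep F) (algebraMap k'[X] F (C e))) '' (κ : Set k') with hS
  have hadj : IntermediateField.adjoin K' S = IntermediateField.adjoin K' (L₀ : Set (Sep F)) := by
    apply le_antisymm
    · rw [IntermediateField.adjoin_le_iff]
      rintro x (hx | ⟨e, he, rfl⟩)
      · exact IntermediateField.subset_adjoin _ _ hx
      · have h5 := hT'.map (C (⟨e, hκκ' he⟩ : κ'))
        rw [map_C] at h5
        show algebraMap F (Sep F) (algebraMap k'[X] F (C e)) ∈ _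
        have h6 : algebraMap F (Sep F) (algebraMap k'[X] F (C e)) =
            algebraMap K' (Sep F) (algebraMap κ'[X] K' (C (⟨e, hκκ' he⟩ : κ'))) := by
          rw [IsScalarTower.algebraMap_apply K' F (Sep F), h5]
          rfl
        rw [h6]
        exact IntermediateField.algebraMap_mem _ _
    · exact IntermediateField.adjoin.mono _ _ _ Set.subset_union_left
  rw [← hadj] at key
  exact hRSV p k k' F k₂ κ' (hk₂κ.trans hκκ') K₂ K' hT₂ hT' S P D key

end main

end Pool.Agent.Helper55.RT
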