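import Pool.Agent.Helper55.RT.Spec5
import Pool.Agent.Helper55.RT.Asm
import Pool.Agent.Helper44.Thin.KMM
import Pool.Agent.Helper44.Thin.RSV0

/-!
# All Tate classes over all finite extensions: the space `M / N₀`
-/

set_option autoImplicit false
set_option linter.all false

open Polynomial IsDedekindDomain
open scoped Classical

namespace Pool.Agent.Helper55.RT

open Pool.Agent.TH115.GD Pool.Agent.Helper55.TT
open Pool.Agent.Helper55.RG hiding em_inj VanishL VanishExt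
open Pool.Agent.Helper55.RL

section act

variable {p : ℕ} [Fact p.Prime] {Γ : Type} [Group Γ] {d : ℕ} (ρ : Γ →* GL (Fin d) ℤ_[p])

theorem actQ_mul' (σ τ : Γ) (y : Fin d → ℚ_[p]) : actQ ρ (σ * τ) y = actQ ρ σ (actQ ρ τ y) := by
  unfold actQ
  rw [map_mul, Units.val_mul, Matrix.map_mul, Matrix.mulVec_mulVec]

theorem actQ_one' (y : Fin d → ℚ_[p]) : actQ ρ 1 y = y := by
  unfold actQ
  rw [map_one, Units.val_one, Matrix.map_one _ (map_zero _) (map_one _), Matrix.one_mulVec]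

theorem actQ_sub' (σ : Γ) (y z : Fin d → ℚ_[p]) :
    actQ ρ σ (y - z) = actQ ρ σ y - actQ ρ σ z := by
  unfold actQ
  rw [Matrix.mulVec_sub]

theorem actQ_add' (σ : Γ) (y z : Fin d → ℚ_[p]) :
    actQ ρ σ (y + z) = actQ ρ σ y + actQ ρ σ z := by
  unfold actQ
  rw [Matrix.mulVec_add]

theorem actQ_smul' (σ : Γ) (u : ℚ_[p]) (y : Fin d → ℚ_[p]) :
    actQ ρ σ (u • y) = u • actQ ρ σ y := by
  unfold actQ
  rw [Matrix.mulVec_smul]

theorem actQ_sum' {ι : Type} (s : Finset ι) (σ : Γ) (y : ι → Fin d → ℚ_[p]) :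
    actQ ρ σ (∑ i ∈ s, y i) = ∑ i ∈ s, actQ ρ σ (y i) := by
  unfold actQ
  exact map_sum (Matrix.mulVecLin ((ρ σ).1.map (algebraMap ℤ_[p] ℚ_[p]))) y s

/-- the linear map of `σ` -/
noncomputable def linQ (σ : Γ) : (Fin d → ℚ_[p]) →ₗ[ℚ_[p]] (Fin d → ℚ_[p]) :=
  Matrix.mulVecLin ((ρ σ).1.map (algebraMap ℤ_[p] ℚ_[p]))

theorem linQ_apply (σ : Γ) (y : Fin d → ℚ_[p]) : linQ ρ σ y = actQ ρ σ y := rfl

theorem actQ_pow_congr {Γ' : Type} [Group Γ'] (ρ' : Γ' →* GL (Fin d) ℤ_[p]) {σ : Γ} {σ' : Γ'}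
    (h : ρ σ = ρ' σ') (y : Fin d → ℚ_[p]) : actQ ρ σ y = actQ ρ' σ' y := by
  unfold actQ
  rw [h]

end act

section cmb

variable {p : ℕ} [Fact p.Prime] {K F : Type} [Field K] [Field F] [Algebra K F] {d m : ℕ}

/-- the linear combinations of the cocycles -/
noncomputable def cmb (c : Fin m → (Sep F ≃ₐ[F] Sep F) → Fin d → ℚ_[p]) (x : Fin m → ℚ_[p])
    (σ : Sep F ≃ₐ[F] Sep F) : Fin d → ℚ_[p] :=
  ∑ j, x j • c j σ

theorem cmb_add (c : Fin m → (Sep F ≃ₐ[F] Sep F) → Fin d → ℚ_[p]) (x y : Fin m → ℚ_[p])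
    (σ : Sep F ≃ₐ[F] Sep F) : cmb c (x + y) σ = cmb c x σ + cmb c y σ := by
  unfold cmb
  rw [← Finset.sum_add_distrib]
  exact Finset.sum_congr rfl fun j _ => by rw [Pi.add_apply, add_smul]

theorem cmb_sub (c : Fin m → (Sep F ≃ₐ[F] Sep F) → Fin d → ℚ_[p]) (x y : Fin m → ℚ_[p])
    (σ : Sep F ≃ₐ[F] Sep F) : cmb c (x - y) σ = cmb c x σ - cmb c y σ := by
  unfold cmb
  rw [← Finset.sum_sub_distrib]
  exact Finset.sum_congr rfl fun j _ => by rw [Pi.sub_apply, sub_smul]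

theorem cmb_smul (c : Fin m → (Sep F ≃ₐ[F] Sep F) → Fin d → ℚ_[p]) (u : ℚ_[p])
    (x : Fin m → ℚ_[p]) (σ : Sep F ≃ₐ[F] Sep F) : cmb c (u • x) σ = u • cmb c x σ := by
  unfold cmb
  rw [Finset.smul_sum]
  exact Finset.sum_congr rfl fun j _ => by rw [Pi.smul_apply, smul_eq_mul, mul_smul]

theorem cmb_single (c : Fin m → (Sep F ≃ₐ[F] Sep F) → Fin d → ℚ_[p]) (j : Fin m)
    (σ : Sep F ≃ₐ[F] Sep F) : cmb c (Pi.single j 1) σ = c j σ := by
  unfold cmb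
  rw [Finset.sum_eq_single j]
  · rw [Pi.single_eq_same, one_smul]
  · intro i _ hi
    rw [Pi.single_eq_of_ne hi, zero_smul]
  · intro h
    exact absurd (Finset.mem_univ j) h

/-- the kernel of the homomorphism from `M` to `H¹(F, V)` -/
noncomputable def kerH (ρ : (Sep F ≃ₐ[K] Sep F) →* GL (Fin d) ℤ_[p])
    (c : Fin m → (Sep F ≃ₐ[F] Sep F) → Fin d → ℚ_[p]) : Submodule ℚ_[p] (Fin m → ℚ_[p]) where
  carrier := {x | IsCob ρ (cmb c x)}
  zero_mem' := ⟨0, fun σ => by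
    unfold cmb actQ
    simp⟩
  add_mem' := by
    rintro x y ⟨a, ha⟩ ⟨b, hb⟩
    refine ⟨a + b, fun σ => ?_⟩
    rw [cmb_add, ha, hb, actQ_add']
    abel
  smul_mem' := by
    rintro u x ⟨a, ha⟩
    refine ⟨u • a, fun σ => ?_⟩
    rw [cmb_smul, ha, actQ_smul', smul_sub]

theorem mem_kerH {ρ : (Sep F ≃ₐ[K] Sep F) →* GL (Fin d) ℤ_[p]}
    {c : Fin m → (Sep F ≃ₐ[F] Sep F) → Fin d → ℚ_[p]} {x : Fin m → ℚ_[p]} :
    x ∈ kerH ρ c ↔ IsCob ρ (cmb c x) := Iff.rfl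

/-- `τ (c_x) - c_{δ(τ) x}` is a coboundary. -/
theorem hom_cmb {ρ : (Sep F ≃ₐ[K] Sep F) →* GL (Fin d) ℤ_[p]}
    {δ : (Sep F ≃ₐ[K] Sep F) →* GL (Fin m) ℤ_[p]}
    {c : Fin m → (Sep F ≃ₐ[F] Sep F) → Fin d → ℚ_[p]} (hc : IsHomH1 ρ δ c)
    (τ : Sep F ≃ₐ[K] Sep F) (x : Fin m → ℚ_[p]) : ∃ y : Fin d → ℚ_[p],
      ∀ σ σ' : Sep F ≃ₐ[F] Sep F, (∀ z, τ (σ' z) = σ (τ z)) →
        actQ ρ τ (cmb c x σ') - cmb c (actQ δ τ x) σ = actQ ρ (σ.restrictScalars K) y - y := by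
  choose y hy using hc.equiv τ
  refine ⟨∑ j, x j • y j, fun σ σ' h => ?_⟩
  have h1 : actQ ρ τ (cmb c x σ') = ∑ j, x j • actQ ρ τ (c j σ') := by
    unfold cmb
    rw [actQ_sum']
    exact Finset.sum_congr rfl fun j _ => actQ_smul' _ _ _ _
  have h2 : cmb c (actQ δ τ x) σ =
      ∑ j, x j • ∑ i, algebraMap ℤ_[p] ℚ_[p] ((δ τ).1 i j) • c i σ := by
    unfold cmb
    have h3 : ∀ i, actQ δ τ x i = ∑ j, algebraMap ℤ_[p] ℚ_[p] ((δ τ).1 i j) * x j := fun i => rfl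
    simp_rw [h3, Finset.sum_smul, Finset.smul_sum]
    rw [Finset.sum_comm]
    refine Finset.sum_congr rfl fun j _ => Finset.sum_congr rfl fun i _ => ?_
    rw [smul_smul, mul_comm]
  have h4 : actQ ρ (σ.restrictScalars K) (∑ j, x j • y j) =
      ∑ j, x j • actQ ρ (σ.restrictScalars K) (y j) := by
    rw [actQ_sum']
    exact Finset.sum_congr rfl fun j _ => actQ_smul' _ _ _ _
  rw [h1, h2, h4, ← Finset.sum_sub_distrib, ← Finset.sum_sub_distrib]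
  refine Finset.sum_congr rfl fun j _ => ?_
  rw [← smul_sub, ← smul_sub, hy j σ σ' h]

end cmb

section tower

variable {k k' K F : Type} [Field k] [CharZero k] [Field k'] [Algebra k k'] [Field K]
    [Algebra k[X] K] [Field F] [Algebra k'[X] F] [IsFractionRing k'[X] F] [Algebra K F]

/-- `τ⁻¹ σ τ` -/
theorem conj_ex (hT : IsTower k k' K F) (τ : Sep F ≃ₐ[K] Sep F) (σ : Sep F ≃ₐ[F] Sep F) :
    ∃ σ' : Sep F ≃ₐ[F] Sep F, ∀ z, τ (σ' z) = σ (τ z) := by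
  obtain ⟨r, -, hr⟩ := Pool.Agent.Helper44.Thin.KMM.exists_r hT
  have h1 : ∀ x : F, ∃ x' : F, τ (algebraMap F (Sep F) x) = algebraMap F (Sep F) x' := by
    intro x
    obtain ⟨a, b, -, rfl⟩ := IsFractionRing.div_surjective (A := k'[X]) x
    refine ⟨algebraMap k'[X] F (a.map (r τ : k' →+* k')) /
      algebraMap k'[X] F (b.map (r τ : k' →+* k')), ?_⟩
    rw [map_div₀, map_div₀, map_div₀]
    have h3 := hr τ a
    have h4 := hr τ b
    unfold Pool.Agent.Helper55.RG.em at h3 h4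
    rw [RingHom.comp_apply, RingHom.comp_apply] at h3 h4
    rw [h3, h4]
  refine ⟨AlgEquiv.ofRingEquiv (f := ((τ.trans (σ.restrictScalars K)).trans τ.symm).toRingEquiv)
    (fun x => ?_), fun z => ?_⟩
  · show τ.symm (σ (τ (algebraMap F (Sep F) x))) = algebraMap F (Sep F) x
    obtain ⟨x', hx'⟩ := h1 x
    rw [hx', σ.commutes, ← hx', AlgEquiv.symm_apply_apply]
  · show τ (τ.symm (σ (τ z))) = _
    rw [AlgEquiv.apply_symm_apply]

/-- the kernel is stable -/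
theorem kerH_stable {p : ℕ} [Fact p.Prime] {d m : ℕ} (hT : IsTower k k' K F)
    {ρ : (Sep F ≃ₐ[K] Sep F) →* GL (Fin d) ℤ_[p]} {δ : (Sep F ≃ₐ[K] Sep F) →* GL (Fin m) ℤ_[p]}
    {c : Fin m → (Sep F ≃ₐ[F] Sep F) → Fin d → ℚ_[p]} (hc : IsHomH1 ρ δ c)
    (τ : Sep F ≃ₐ[K] Sep F) {x : Fin m → ℚ_[p]} (hx : x ∈ kerH ρ c) :
    actQ δ τ x ∈ kerH ρ c := by
  obtain ⟨y₀, hy₀⟩ := hx
  obtain ⟨y, hy⟩ := hom_cmb hc τ x
  refine ⟨actQ ρ τ y₀ - y, fun σ => ?_⟩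
  obtain ⟨σ', hσ'⟩ := conj_ex hT τ σ
  have h1 := hy σ σ' hσ'
  have h2 : τ * σ'.restrictScalars K = σ.restrictScalars K * τ := by
    ext z
    exact hσ' z
  have h3 : actQ ρ τ (cmb c x σ') = actQ ρ (σ.restrictScalars K) (actQ ρ τ y₀) -
      actQ ρ τ y₀ := by
    rw [hy₀ σ', actQ_sub', ← actQ_mul', h2, actQ_mul']
  rw [h3] at h1
  rw [actQ_sub']
  have h4 : cmb c (actQ δ τ x) σ = actQ ρ (σ.restrictScalars K) (actQ ρ τ y₀) - actQ ρ τ y₀ -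
      (actQ ρ (σ.restrictScalars K) y - y) := by
    rw [← h1]; abel
  rw [h4]
  abel

/-- automorphisms which fix `κ` are automorphisms over `κ(t)` -/
theorem lift_tower (hT : IsTower k k' K F) {κ : IntermediateField k k'} {K' : Type} [Field K']
    [Algebra κ[X] K'] [Algebra K' F] (hT' : IsTower κ k' K' F) (τ : Sep F ≃ₐ[K] Sep F)
    (hτ : ∀ e ∈ κ, τ (em k' F (Sep F) (C e)) = em k' F (Sep F) (C e)) :
    ∃ τ' : Sep F ≃ₐ[K'] Sep F, ∀ z, τ' z = τ z := by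
  haveI := hT'.fracK
  obtain ⟨r, -, hr⟩ := Pool.Agent.Helper44.Thin.KMM.exists_r hT
  have hrκ : ∀ e ∈ κ, r τ e = e := by
    intro e he
    apply Pool.Agent.Helper55.RL.em_inj (k' := k') (F := F)
    have h1 := hr τ (C e)
    rw [hτ e he, Polynomial.map_C] at h1
    exact h1.symm
  have h1 : ∀ a : κ[X], τ (algebraMap K' (Sep F) (algebraMap κ[X] K' a)) =
      algebraMap K' (Sep F) (algebraMap κ[X] K' a) := by
    intro a
    have h2 : algebraMap K' (Sep F) (algebraMap κ[X] K' a) =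
        em k' F (Sep F) (a.map (algebraMap κ k')) := by
      rw [IsScalarTower.algebraMap_apply K' F (Sep F), hT'.map]
      rfl
    rw [h2, hr, Polynomial.map_map]
    congr 2
    ext e
    exact hrκ e e.2
  refine ⟨AlgEquiv.ofRingEquiv (f := τ.toRingEquiv) (fun x => ?_), fun z => rfl⟩
  obtain ⟨a, b, -, rfl⟩ := IsFractionRing.div_surjective (A := κ[X]) x
  show τ _ = _
  rw [map_div₀, map_div₀, h1, h1]

end tower

end Pool.Agent.Helper55.RT
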