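import Pool.Agent.Helper55.RT.Def
import Pool.Agent.Helper55.RT.Def2

/-!
# The conditions do not depend on constant factors of `D`
-/

set_option autoImplicit false
set_option linter.all false

open Polynomial IsDedekindDomain

namespace Pool.Agent.Helper55.RT

open Pool.Agent.TH115.GD Pool.Agent.Helper55.RL

theorem vanishL_scale {p : ℕ} [Fact p.Prime] {k k' K F : Type} [Field k] [Field k'] [Algebra k k']
    [Field K] [Field F] [Algebra k'[X] F] [IsFractionRing k'[X] F] [Algebra K F]
    {L : IntermediateField K (Sep F)} {P D : k[X]} {u : k} (hu : u ≠ 0)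
    (h : VanishL p k' K F L P D) : VanishL p k' K F L P (C u * D) := by
  have hmem : ∀ v : HeightOneSpectrum k'[X], (P * (C u * D)).map (algebraMap k k') ∉ v.asIdeal ↔
      (P * D).map (algebraMap k k') ∉ v.asIdeal := by
    intro v
    have e1 : (P * (C u * D)).map (algebraMap k k') =
        C (algebraMap k k' u) * (P * D).map (algebraMap k k') := by
      simp only [Polynomial.map_mul, map_C]; ring
    have hu' : IsUnit (C (algebraMap k k' u) : k'[X]) := by
      rw [isUnit_C, isUnit_iff_ne_zero]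
      exact (_root_.map_ne_zero _).2 hu
    rw [e1, Ideal.unit_mul_mem_iff_mem _ hu']
  have hroot : ∀ θ : k', aeval θ (C u * D) = 0 ↔ aeval θ D = 0 := by
    intro θ
    rw [map_mul, aeval_C, mul_eq_zero]
    constructor
    · rintro (h1 | h1)
      · exact absurd h1 ((_root_.map_ne_zero _).2 hu)
      · exact h1
    · exact Or.inr
  intro d ρ hρ hL hU hN c hc hloc
  refine h d ρ hρ hL (fun v hv => hU v ((hmem v).2 hv)) (fun θ hθ => hN θ ((hroot θ).2 hθ)) c hc
    ⟨fun v hv => hloc.1 v ((hmem v).2 hv), fun θ hθ => hloc.2 θ ((hroot θ).2 hθ)⟩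

theorem vanishGal_scale {p : ℕ} [Fact p.Prime] {k k' K F : Type} [Field k] [Field k']
    [Algebra k k'] [Field K] [Field F] [Algebra k'[X] F] [IsFractionRing k'[X] F] [Algebra K F]
    {L : IntermediateField K (Sep F)} {P D : k[X]} {u : k} (hu : u ≠ 0)
    (h : VanishGal p k' K F L P D) : VanishGal p k' K F L P (C u * D) := by
  intro k₂ κ hκ h1 h2 h3 K₂ _ _ _ hT
  rw [Polynomial.map_mul, map_C]
  refine vanishL_scale ((_root_.map_ne_zero _).2 hu) (h k₂ κ hκ h1 h2 ?_ K₂ hT)
  obtain ⟨θ, hθ, hθ'⟩ := h3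
  refine ⟨θ, ?_, hθ'⟩
  rw [map_mul, aeval_C, mul_eq_zero] at hθ
  exact hθ.resolve_left ((_root_.map_ne_zero _).2 hu)

theorem noSub_scale {p : ℕ} [Fact p.Prime] {k k' K F : Type} [Field k] [Field k']
    [Algebra k k'] [Field K] [Field F] [Algebra k'[X] F] [IsFractionRing k'[X] F] [Algebra K F]
    {L : IntermediateField K (Sep F)} {P D : k[X]} {u : k} (hu : u ≠ 0)
    (h : NoSub p k' K F L P D) : NoSub p k' K F L P (C u * D) := by
  have hmem : ∀ v : HeightOneSpectrum k'[X], (P * (C u * D)).map (algebraMap k k') ∉ v.asIdeal ↔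
      (P * D).map (algebraMap k k') ∉ v.asIdeal := by
    intro v
    have e1 : (P * (C u * D)).map (algebraMap k k') =
        C (algebraMap k k' u) * (P * D).map (algebraMap k k') := by
      simp only [Polynomial.map_mul, map_C]; ring
    have hu' : IsUnit (C (algebraMap k k' u) : k'[X]) := by
      rw [isUnit_C, isUnit_iff_ne_zero]
      exact (_root_.map_ne_zero _).2 hu
    rw [e1, Ideal.unit_mul_mem_iff_mem _ hu']
  have hroot : ∀ θ : k', aeval θ (C u * D) = 0 ↔ aeval θ D = 0 := by
    intro θ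
    rw [map_mul, aeval_C, mul_eq_zero]
    constructor
    · rintro (h1 | h1)
      · exact absurd h1 ((_root_.map_ne_zero _).2 hu)
      · exact h1
    · exact Or.inr
  intro m hm d ρ hρ hL hU hN δ hδ hδF c hc hloc
  rw [natDegree_C_mul hu] at hm
  exact h m hm d ρ hρ hL (fun v hv => hU v ((hmem v).2 hv)) (fun θ hθ => hN θ ((hroot θ).2 hθ)) δ hδ
    hδF c hc fun j => ⟨fun v hv => (hloc j).1 v ((hmem v).2 hv),
      fun θ hθ => (hloc j).2 θ ((hroot θ).2 hθ)⟩

end Pool.Agent.Helper55.RT
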