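import Pool.Agent.Helper55.RT.Spec2
import Pool.Agent.Helper55.RT.SCL
import Pool.Agent.Helper55.RL.Asm4

/-!
# Number fields: both theorems for 100% of the polynomials `D`
-/

set_option autoImplicit false
set_option linter.all false

open Polynomial IsDedekindDomain NumberField
open scoped Classical

namespace Pool.Agent.Helper55.RT

open Pool.Agent Pool.Agent.TH115.GD Pool.Agent.R939.EI Pool.Agent.R939.PP Pool.Agent.R939.HI
  Pool.Agent.W275.UB Pool.Agent.Helper55.TT Pool.Agent.H927R2.RD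
open Pool.Agent.Helper55.RG hiding em_inj VanishL VanishExt
open Pool.Agent.Helper55.RL

theorem polA_scale {k : Type} [Field k] {n : ℕ} (y : Fin (n + 1) → k) (hy : y (Fin.last n) ≠ 0) :
    polA y = C (y (Fin.last n)) * monicPoly (fun i : Fin n => y i.castSucc / y (Fin.last n)) := by
  show ∑ j, C (y j) * X ^ (j : ℕ) = _
  rw [Fin.sum_univ_castSucc, monicPoly, mul_add, Finset.mul_sum, add_comm]
  congr 1
  refine Finset.sum_congr rfl fun i _ => ?_
  rw [← mul_assoc, ← C_mul, mul_div_cancel₀ _ hy, Fin.val_castSucc]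

/-- From thin sets to sets of density zero. -/
theorem gal_D0 (hHDN : Q_HDN) {k : Type} [Field k] [NumberField k] {J : Type} [Fintype J]
    (B : Module.Basis J ℤ (𝓞 k)) {n : ℕ} (hn : 0 < n) (Q : k[X] → Prop)
    (hscale : ∀ (u : k) (D : k[X]), u ≠ 0 → Q D → Q (C u * D))
    (h : OutsideThin fun a : Fin n → k => Q (monicPoly a)) :
    D0 {x : (Σ l : Fin 1, Fin ((fun _ => n : Fin 1 → ℕ) l + 1)) × J → ℤ | ¬ Q (Dp B x 0)} := by
  intro ε hε
  refine (hHDN k J B n hn _ h ε hε).mono ?_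
  intro x hx hcon
  apply hx
  have h1 := polA_scale (fun j : Fin (n + 1) => kv B x ⟨0, j⟩) hcon.1
  show Q (polA fun j : Fin (n + 1) => kv B x ⟨0, j⟩)
  rw [h1]
  exact hscale _ _ hcon.1 hcon.2

section main

variable {k k' K F : Type} [Field k] [Field k'] [Algebra k k'] [Field K] [Algebra k[X] K]
    [Field F] [Algebra k'[X] F] [IsFractionRing k'[X] F] [Algebra K F]

/-- **Both theorems over number fields.** -/
theorem both_all (hHDN : Q_HDN) (p : ℕ) [Fact p.Prime] [NumberField k] (hT : IsTower k k' K F)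
    {J : Type} [Fintype J] (B : Module.Basis J ℤ (𝓞 k)) (L : IntermediateField K (Sep F))
    [FiniteDimensional K L] {P : k[X]} (hP : P ≠ 0) {n : ℕ} (hn : 3 ≤ n)
    (hthin : 5 ≤ n → OutsideThin fun a : Fin n → k => VanishGal p k' K F L P (monicPoly a) ∧
      NoSub p k' K F L P (monicPoly a)) :
    ∃ N : ℕ, 0 < N ∧ ∀ η : ℝ, 0 < η → ∃ H0 : ℕ, ∀ H : ℕ, H0 ≤ H →
      (({x : Fin (n + 1) → 𝓞 k | (∀ j t, |B.repr (x j) t| ≤ (H : ℤ)) ∧
        ¬ (VanishExt p k' K F L P N
            (∑ j : Fin (n + 1), C (algebraMap (𝓞 k) k (x j)) * X ^ (j : ℕ)) ∧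
          (5 ≤ n → VanishGal p k' K F L P
              (∑ j : Fin (n + 1), C (algebraMap (𝓞 k) k (x j)) * X ^ (j : ℕ)) ∧
            NoSub p k' K F L P
              (∑ j : Fin (n + 1), C (algebraMap (𝓞 k) k (x j)) * X ^ (j : ℕ))))}.ncard : ℕ) : ℝ) ≤
        η * (2 * H + 1) ^ (Fintype.card J * (n + 1)) := by
  obtain ⟨N, hN0, hN⟩ := dense_p (k' := k') (K := K) (F := F) (p := p)
    Pool.Agent.Helper57.RG.DLP.main Pool.Agent.Helper51.RL.KMP.main
    Pool.Agent.Helper61.RG.CJ1.main Pool.Agent.Helper61.RG.CJ2.main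
    (Pool.Agent.Helper51.RL.CP1.main (Pool.Agent.Helper10.RL.CHP.main
      Pool.Agent.Helper51.RL.KMP.main))
    Pool.Agent.Helper85.RG.su2 Pool.Agent.Helper54.RL.sp2 Pool.Agent.Helper54.RG.con
    (Pool.Agent.Helper49.RL.kpp Pool.Agent.Helper51.RL.KMP.main)
    (Pool.Agent.Helper49.RL.BDP.bdp Pool.Agent.Helper85.RG.mdg) hfP
    Pool.Agent.Helper47.RG.PRK.main irr (Pool.Agent.Helper79.RGK.irk irr) k1P hT B L hP hn
  have hG : D0 {x : (Σ l : Fin 1, Fin ((fun _ => n : Fin 1 → ℕ) l + 1)) × J → ℤ |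
      ¬ (5 ≤ n → VanishGal p k' K F L P (Dp B x 0) ∧ NoSub p k' K F L P (Dp B x 0))} := by
    by_cases h5 : 5 ≤ n
    · intro ε hε
      refine (gal_D0 hHDN B (by omega)
        (fun D => VanishGal p k' K F L P D ∧ NoSub p k' K F L P D)
        (fun u D hu hD => ⟨vanishGal_scale hu hD.1, noSub_scale hu hD.2⟩) (hthin h5) ε hε).mono ?_
      intro x hx hcon
      exact hx fun _ => hcon
    · intro ε hε
      refine (D0.empty ε hε).mono ?_
      intro x hx
      exact absurd (fun h => absurd h h5) hx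
  refine ⟨N, hN0, fun η hη => count_box B
    (fun D => VanishExt p k' K F L P N D ∧
      (5 ≤ n → VanishGal p k' K F L P D ∧ NoSub p k' K F L P D)) ?_ hη⟩
  intro ε hε
  refine ((hN.union hG) ε hε).mono ?_
  intro x hx
  by_contra hcon
  simp only [Set.mem_union, Set.mem_setOf_eq, not_or, not_not] at hcon
  exact hx hcon

end main

end Pool.Agent.Helper55.RT
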