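import Pool.Agent.Helper55.RT.Spec

/-!
# Thin sets: finite intersections
-/

set_option autoImplicit false
set_option linter.all false

open Polynomial
open scoped Classical

namespace Pool.Agent.Helper55.RT

variable {k : Type} [Field k] {n : ℕ}

theorem OffThin.mono {Q Q' : (Fin n → k) → Prop} (h : OffThin Q) (hQ : ∀ a, Q a → Q' a) :
    OffThin Q' := by
  obtain ⟨h0, S, h1, h2, h3⟩ := h
  exact ⟨h0, S, h1, h2, fun a ha hS => hQ a (h3 a ha hS)⟩

theorem OffThin.true' {Q : (Fin n → k) → Prop} (hQ : ∀ a, Q a) : OffThin Q :=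
  ⟨1, ∅, one_ne_zero, fun f hf => absurd hf (Finset.notMem_empty f), fun a _ _ => hQ a⟩

theorem OffThin.and {Q Q' : (Fin n → k) → Prop} (h : OffThin Q) (h' : OffThin Q') :
    OffThin fun a => Q a ∧ Q' a := by
  obtain ⟨h0, S, h1, h2, h3⟩ := h
  obtain ⟨h0', S', h1', h2', h3'⟩ := h'
  refine ⟨h0 * h0', S ∪ S', mul_ne_zero h1 h1', ?_, ?_⟩
  · intro f hf
    rcases Finset.mem_union.1 hf with hf | hf
    · exact h2 f hf
    · exact h2' f hf
  · intro a ha hS
    rw [map_mul] at ha
    exact ⟨h3 a (left_ne_zero_of_mul ha) fun f hf => hS f (Finset.mem_union_left _ hf),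
      h3' a (right_ne_zero_of_mul ha) fun f hf => hS f (Finset.mem_union_right _ hf)⟩

theorem OffThin.finset {ι : Type} (T : Finset ι) {Q : ι → (Fin n → k) → Prop}
    (h : ∀ i ∈ T, OffThin (Q i)) : OffThin fun a => ∀ i ∈ T, Q i a := by
  induction T using Finset.induction_on with
  | empty => exact OffThin.true' fun a i hi => absurd hi (Finset.notMem_empty i)
  | insert i T hi ih =>
    refine ((h i (Finset.mem_insert_self i T)).and
      (ih fun j hj => h j (Finset.mem_insert_of_mem hj))).mono ?_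
    rintro a ⟨h1, h2⟩ j hj
    rcases Finset.mem_insert.1 hj with rfl | hj
    · exact h1
    · exact h2 j hj

end Pool.Agent.Helper55.RT
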