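import Pool.Agent.Helper55.RT.Spec6
import Pool.Agent.Helper67.Thin.UNP

/-!
# The dimension of the space of cocycles modulo `p` (part DMF)
-/

set_option autoImplicit false
set_option linter.all false

open Polynomial IsDedekindDomain
open scoped Classical

namespace Pool.Agent.Helper55.RT.DMF

open Pool.Agent.TH115.GD Pool.Agent.Helper55.RT
open Pool.Agent.Helper55.RG hiding em_inj VanishL VanishExt
open Pool.Agent.Helper55.RL

theorem abs_dim {p : ℕ} [Fact p.Prime] {H : Type} [Group H] (R : ℕ) (Q : (H → ZMod p) → Prop)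
    (hQ : ∀ (E : Type) [AddCommGroup E] [Module (ZMod p) E] [Finite E]
      (χ : E →ₗ[ZMod p] (H → ZMod p)), (∀ e, Q (χ e)) →
      (∀ e σ σ', χ e (σ * σ') = χ e σ + χ e σ') → R < Module.finrank (ZMod p) E →
      ∃ e, e ≠ 0 ∧ χ e = 0) :
    ∀ (n : ℕ) (V : Type) [AddCommGroup V] [Module (ZMod p) V] [Finite V],
      Module.finrank (ZMod p) V = n → ∀ r : H →* (V →ₗ[ZMod p] V),
      (∀ g, ∃ m : ℕ, r (g ^ p ^ m) = 1) →
      ∀ (E : Type) [AddCommGroup E] [Module (ZMod p) E] [Finite E] (f : E →ₗ[ZMod p] (H → V)),
      (∀ (φ : Module.Dual (ZMod p) V) (e : E), Q (fun σ => φ (f e σ))) →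
      (∀ e σ σ', f e (σ * σ') = f e σ + r σ (f e σ')) → R * n < Module.finrank (ZMod p) E →
      ∃ e, e ≠ 0 ∧ f e = 0 := by
  intro n
  induction n with
  | zero =>
    intro V _ _ _ hn r hr E _ _ _ f hfQ hf hE
    haveI : Module.Finite (ZMod p) V := Module.Finite.of_finite
    haveI : Subsingleton V := Module.finrank_zero_iff.1 hn
    haveI : Nontrivial E := Module.nontrivial_of_finrank_pos (R := ZMod p) (by omega)
    obtain ⟨e, he⟩ := exists_ne (0 : E)
    exact ⟨e, he, funext fun σ => Subsingleton.elim _ _⟩
  | succ n ih =>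
    intro V _ _ _ hn r hr E _ _ _ f hfQ hf hE
    haveI : Module.Finite (ZMod p) V := Module.Finite.of_finite
    haveI : Module.Finite (ZMod p) E := Module.Finite.of_finite
    haveI : Nontrivial V := Module.nontrivial_of_finrank_pos (R := ZMod p) (by rw [hn]; omega)
    obtain ⟨φ, hφ0, hφ⟩ := Pool.Agent.Helper67.Thin.UNP.fixed_functional r hr
    -- the characters
    let χ : E →ₗ[ZMod p] (H → ZMod p) := (φ.compLeft H).comp f
    have hχ : ∀ e σ, χ e σ = φ (f e σ) := fun e σ => rfl
    have hχm : ∀ e σ σ', χ e (σ * σ') = χ e σ + χ e σ' := by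
      intro e σ σ'
      rw [hχ, hf, map_add, hφ]
      rfl
    let E' : Submodule (ZMod p) E := LinearMap.ker χ
    let χ' : (E ⧸ E') →ₗ[ZMod p] (H → ZMod p) := E'.liftQ χ le_rfl
    have hχ' : ∀ e, χ' (Submodule.Quotient.mk e) = χ e := fun e => rfl
    have hinj : Function.Injective χ' := by
      rw [← LinearMap.ker_eq_bot]
      exact Submodule.ker_liftQ_eq_bot _ _ _ le_rfl
    haveI : Finite (E ⧸ E') := Finite.of_surjective _ (Submodule.mkQ_surjective E')
    have hquo : Module.finrank (ZMod p) (E ⧸ E') ≤ R := by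
      by_contra hcon
      obtain ⟨e, he, he'⟩ := hQ (E ⧸ E') χ' (fun e => by
        induction e using Submodule.Quotient.induction_on with
        | _ e => exact hfQ φ e) (fun e σ σ' => by
        induction e using Submodule.Quotient.induction_on with
        | _ e => exact hχm e σ σ') (not_le.1 hcon)
      exact he (hinj (by rw [he', map_zero]))
    have hsum : Module.finrank (ZMod p) (E ⧸ E') + Module.finrank (ZMod p) E' =
        Module.finrank (ZMod p) E := Submodule.finrank_quotient_add_finrank E'
    let V' := LinearMap.ker φ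
    have hst : ∀ g, ∀ v ∈ V', r g v ∈ V' := by
      intro g v hv
      rw [LinearMap.mem_ker] at hv ⊢
      rw [hφ, hv]
    let r' : H →* (V' →ₗ[ZMod p] V') :=
      { toFun := fun g => (r g).restrict (hst g)
        map_one' := by
          ext v
          rw [LinearMap.restrict_coe_apply, map_one]
          rfl
        map_mul' := fun a b => by
          ext v
          rw [LinearMap.restrict_coe_apply, map_mul]
          rfl }
    have hr' : ∀ g v, ((r' g v : V') : V) = r g v := fun g v => rfl
    have hn' : Module.finrank (ZMod p) V' = n := by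
      have h1 := Module.Dual.finrank_ker_add_one_of_ne_zero hφ0
      rw [hn] at h1
      exact Nat.succ_injective h1
    have hker : ∀ (e : E') σ, φ (f e σ) = 0 := by
      intro e σ
      have h1 : χ (e : E) = 0 := e.2
      rw [← hχ, h1]
      rfl
    let f' : E' →ₗ[ZMod p] (H → V') :=
      { toFun := fun e σ => ⟨f e σ, hker e σ⟩
        map_add' := fun a b => by
          funext σ
          apply Subtype.ext
          show f ((a : E) + (b : E)) σ = f a σ + f b σ
          rw [map_add]
          rfl
        map_smul' := fun u a => by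
          funext σ
          apply Subtype.ext
          show f (u • (a : E)) σ = u • f a σ
          rw [map_smul]
          rfl }
    have hf' : ∀ e σ, ((f' e σ : V') : V) = f e σ := fun e σ => rfl
    obtain ⟨e, he, he'⟩ := ih V' hn' r' (fun g => by
      obtain ⟨m, hm⟩ := hr g
      refine ⟨m, ?_⟩
      ext v
      rw [hr', hm]
      rfl) E' f' (fun ψ e => by
      obtain ⟨g, hg⟩ := LinearMap.exists_extend ψ
      have h1 := hfQ g e
      have h2 : (fun σ => ψ (f' e σ)) = fun σ => g (f e σ) := by
        funext σ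
        rw [← hg]
        rfl
      rw [h2]
      exact h1) (fun e a b => Subtype.ext (by
        rw [Submodule.coe_add, hr']
        exact hf e a b)) (by
        have h1 : R * (n + 1) = R * n + R := by ring
        omega)
    refine ⟨(e : E), fun h => he (Subtype.ext h), ?_⟩
    funext σ
    have h1 := congrFun he' σ
    have h2 := congrArg Subtype.val h1
    exact h2

theorem main (hK : Q_KMD) : Q_DMF := by
  intro p _ k' F _ _ _ _ _ _ s hs d N ρ hρ hN f hfc hf hfl
  let Q : ((Sep F ≃ₐ[F] Sep F) → ZMod p) → Prop := fun χ => Continuous χ ∧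
    (∀ v : HeightOneSpectrum k'[X], s ∉ v.asIdeal →
    ∀ (ι : Sep F →ₐ[F] Sep (Comp k'[X] F v)) (σ : Sep F ≃ₐ[F] Sep F), InLoc k' v ι σ → χ σ = 0)
  let r : (Sep F ≃ₐ[F] Sep F) →* ((Fin d → ZMod p) →ₗ[ZMod p] (Fin d → ZMod p)) :=
    { toFun := fun g => Matrix.mulVecLin (ρ g).1
      map_one' := by
        rw [map_one, Units.val_one, Matrix.mulVecLin_one]
        rfl
      map_mul' := fun a b => by
        rw [map_mul, Units.val_mul, Matrix.mulVecLin_mul]
        rfl }
  let fl : (Fin N → ZMod p) →ₗ[ZMod p] ((Sep F ≃ₐ[F] Sep F) → (Fin d → ZMod p)) :=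
    Fintype.linearCombination (ZMod p) f
  have hfl' : ∀ x σ, fl x σ = ∑ i, x i • f i σ := by
    intro x σ
    show Fintype.linearCombination (ZMod p) f x σ = _
    rw [Fintype.linearCombination_apply, Finset.sum_apply]
    rfl
  obtain ⟨x, hx, hx'⟩ := abs_dim (p := p) s.natDegree Q (by
      intro E _ _ _ χ hχ hχm hE
      haveI : Module.Finite (ZMod p) E := Module.Finite.of_finite
      let b := Module.finBasis (ZMod p) E
      obtain ⟨x, hx, hx'⟩ := hK p k' F s hs (Module.finrank (ZMod p) E) hE (fun i => χ (b i))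
        (fun i => (hχ (b i)).1) (fun i => hχm (b i)) (fun i => (hχ (b i)).2)
      refine ⟨∑ i, x i • b i, fun h => hx ?_, ?_⟩
      · funext i
        exact (Fintype.linearIndependent_iff.1 b.linearIndependent) x h i
      · funext σ
        rw [map_sum, Finset.sum_apply]
        simp only [map_smul, Pi.smul_apply, smul_eq_mul]
        exact hx' σ) d (Fin d → ZMod p) (by rw [Module.finrank_fin_fun]) r
    (fun g => by
      obtain ⟨m, hm⟩ := hρ g
      refine ⟨m, ?_⟩
      show Matrix.mulVecLin (ρ (g ^ p ^ m)).1 = 1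
      rw [hm, Units.val_one, Matrix.mulVecLin_one]
      rfl) (Fin N → ZMod p) fl (fun φ x => by
      constructor
      · have h1 : Continuous fun σ => fl x σ := by
          have h2 : (fun σ => fl x σ) = fun σ => ∑ i, x i • f i σ := funext fun σ => hfl' x σ
          rw [h2]
          exact continuous_finset_sum _ fun i _ => (hfc i).const_smul (x i)
        have h3 : Continuous φ := continuous_of_discreteTopology
        exact h3.comp h1
      · intro v hv ι σ hσ
        have h1 : ∑ i, x i • f i σ = 0 :=
          Finset.sum_eq_zero fun i _ => by rw [hfl i v hv ι σ hσ, smul_zero]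
        show φ (fl x σ) = 0
        rw [hfl', h1, map_zero]) (fun x σ σ' => by
      rw [hfl', hfl', hfl']
      show _ = _ + Matrix.mulVecLin (ρ σ).1 (∑ i, x i • f i σ')
      rw [map_sum, ← Finset.sum_add_distrib]
      refine Finset.sum_congr rfl fun i _ => ?_
      rw [hf, smul_add, map_smul]
      rfl) (by rw [Module.finrank_fin_fun]; exact hN)
  refine ⟨x, hx, fun σ => ?_⟩
  rw [← hfl', hx']
  rfl

end Pool.Agent.Helper55.RT.DMF
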