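import Mathlib
import Pool.Graph.R_seed8.TH115.GD.Defs
import Pool.Agent.Helper55.RL.Def
import Pool.Agent.Helper55.RT.Def2

/-!
# Finite representations in the cohomology: the definitions
-/

set_option autoImplicit false
set_option linter.all false

open Polynomial IsDedekindDomain

namespace Pool.Agent.Helper55.RT

open Pool.Agent.TH115.GD Pool.Agent.Helper55.RL

/-- `NoArtin p k' K F L ℓ P D`: let `V` be a representation of the Galois group of `K = k(t)` as in `VanishL`,
and `M` any representation of the Galois group of `k` in `GL_m(ℤ_p)` with a finite image, such that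
`(2 p m²)^ℓ < p^(⌊n / ℓ⌋ - 1)`, where `n` is the degree of `D`. Then there are no nonzero homomorphisms of
Galois representations from `M` to the space of the classes in `H¹(F, V)` which are locally trivial at the
roots of `D` and at the places which are not roots of `P D` or infinite. -/
def NoArtin (p : ℕ) [Fact p.Prime] (k' K F : Type) {k : Type} [Field k] [Field k'] [Algebra k k']
    [Field K] [Field F] [Algebra k'[X] F] [IsFractionRing k'[X] F] [Algebra K F]
    (L : IntermediateField K (Sep F)) (ℓ : ℕ) (P D : k[X]) : Prop :=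
  ∀ m : ℕ, (2 * p * m ^ 2) ^ ℓ < p ^ (D.natDegree / ℓ - 1) →
    ∀ (d : ℕ) (ρ : (Sep F ≃ₐ[K] Sep F) →* GL (Fin d) ℤ_[p]), Continuous ρ → IsProPOn L ρ →
    UnramOutside k' (P * D) ρ → NoInvAtRoots k' D ρ →
    ∀ δ : (Sep F ≃ₐ[K] Sep F) →* GL (Fin m) ℤ_[p], Continuous δ → (Set.range δ).Finite →
    (∀ σ : Sep F ≃ₐ[F] Sep F, δ (σ.restrictScalars K) = 1) →
    ∀ c : Fin m → (Sep F ≃ₐ[F] Sep F) → Fin d → ℚ_[p], IsHomH1 ρ δ c →
      (∀ j, LocTrivial k' (P * D) D ρ (c j)) → ∀ j, IsCob ρ (c j)

end Pool.Agent.Helper55.RT
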