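import Mathlib
import Pool.Graph.R_seed8.TH115.GD.Defs
import Pool.Agent.Helper55.RL.Def

/-!
# Tate classes over finite extensions: the definition
-/

set_option autoImplicit false
set_option linter.all false

open Polynomial IsDedekindDomain

namespace Pool.Agent.Helper55.RT

open Pool.Agent.TH115.GD Pool.Agent.Helper55.RL

/-- The class of the cocycle `c` is fixed by the automorphisms of `Sep F` over `κ(t)`. -/
def FixedOver {p : ℕ} [Fact p.Prime] {k k' K F : Type} [Field k] [Field k'] [Algebra k k']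
    [Field K] [Field F] [Algebra k'[X] F] [IsFractionRing k'[X] F] [Algebra K F] {d : ℕ}
    (ρ : (Sep F ≃ₐ[K] Sep F) →* GL (Fin d) ℤ_[p]) (κ : IntermediateField k k')
    (c : (Sep F ≃ₐ[F] Sep F) → Fin d → ℚ_[p]) : Prop :=
  ∀ τ : Sep F ≃ₐ[K] Sep F, (∀ e ∈ κ, τ (algebraMap F (Sep F) (algebraMap k'[X] F (C e))) =
      algebraMap F (Sep F) (algebraMap k'[X] F (C e))) →
    ∃ y : Fin d → ℚ_[p], ∀ σ σ' : Sep F ≃ₐ[F] Sep F, (∀ x, τ (σ' x) = σ (τ x)) →
      actQ ρ τ (c σ') - c σ = actQ ρ (σ.restrictScalars K) y - y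

/-- `NoPotential p k' K F L ℓ P D`: let `ρ` be any continuous representation of the Galois group of `K = k(t)`
in `GL_d(ℤ_p)` as in `VanishL` (any `d`) and `κ` any finite extension of `k` in `k'`, and suppose that
`(2 p m²)^ℓ < p^(⌊n / ℓ⌋ - 1)` where `n = deg D` and `m` is the minimum of `deg(P D) d` and the degree of `κ`
over `k`. Then there are no nonzero classes in `H¹(F, V)` which are locally trivial at the roots of `D` and at
the places which are not roots of `P D` or infinite, and fixed by the Galois group of `κ(t)`. -/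
def NoPotential (p : ℕ) [Fact p.Prime] (k' K F : Type) {k : Type} [Field k] [Field k'] [Algebra k k']
    [Field K] [Field F] [Algebra k'[X] F] [IsFractionRing k'[X] F] [Algebra K F]
    (L : IntermediateField K (Sep F)) (ℓ : ℕ) (P D : k[X]) : Prop :=
  ∀ (d : ℕ) (ρ : (Sep F ≃ₐ[K] Sep F) →* GL (Fin d) ℤ_[p]), Continuous ρ → IsProPOn L ρ →
    UnramOutside k' (P * D) ρ → NoInvAtRoots k' D ρ →
    ∀ κ : IntermediateField k k', FiniteDimensional k κ →
    (2 * p * (min ((P * D).natDegree * d) (Module.finrank k κ)) ^ 2) ^ ℓ <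
      p ^ (D.natDegree / ℓ - 1) →
    ∀ c : (Sep F ≃ₐ[F] Sep F) → Fin d → ℚ_[p], Continuous c →
    (∀ σ τ, c (σ * τ) = c σ + actQ ρ (σ.restrictScalars K) (c τ)) →
    LocTrivial k' (P * D) D ρ c → FixedOver ρ κ c → IsCob ρ c

end Pool.Agent.Helper55.RT
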