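import Pool.Agent.Helper55.RL.Asm4
import Pool.Agent.Helper55.RT.Asm
import Pool.Agent.Helper56.Thin.ABP
import Pool.Agent.Helper86.Thin.ABS
import Pool.Agent.Helper12.Thin.BOT
import Pool.Agent.Helper12.Thin.GRP
import Pool.Agent.Helper12.Thin.MIR
import Pool.Agent.Helper32.Thin.CMM
import Pool.Agent.Helper32.Thin.DSG
import Pool.Agent.Helper32.Thin.SPT
import Pool.Agent.Helper52.Thin.DOM
import Pool.Agent.Helper3.Thin.IDP
import Pool.Agent.Helper3.Thin.IRD
import Pool.Agent.Helper61.Thin.NDV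
import Pool.Agent.Helper61.Thin.SL
import Pool.Agent.Helper61.Thin.WRT
import Pool.Agent.Helper44.Thin.RSV

/-!
# The theorem over all fields of characteristic zero: the proof
-/

set_option autoImplicit false
set_option linter.all false

open Polynomial IsDedekindDomain
open scoped Classical

namespace Pool.Agent.Helper55.RT

open Pool.Agent.TH115.GD Pool.Agent.Helper55.TT
open Pool.Agent.Helper55.RG hiding em_inj VanishL VanishExt
open Pool.Agent.Helper55.RL

theorem wrt : Q_WRT :=
  Pool.Agent.Helper61.Thin.WRT.main Pool.Agent.Helper61.Thin.SL.main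
    (Pool.Agent.Helper52.Thin.DOM.main Pool.Agent.Helper86.Thin.ABS.main)

section main

variable {k k' K F : Type} [Field k] [CharZero k] [Field k'] [Algebra k k'] [Field K]
    [Algebra k[X] K] [Field F] [Algebra k'[X] F] [IsFractionRing k'[X] F] [Algebra K F]

theorem thin_fin (hGFU : Q_GFU) (p : ℕ) [Fact p.Prime] (hT : IsTower k k' K F)
    (L : IntermediateField K (Sep F)) [FiniteDimensional K L] {P : k[X]} (hP : P ≠ 0) {n : ℕ}
    (hn : 5 ≤ n) :
    OutsideThin fun a : Fin n → k => VanishGal p k' K F L P (monicPoly a) ∧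
      FullDeg k' (monicPoly a) ∧ GalBig k' n (monicPoly a) :=
  thin_all Pool.Agent.Helper57.RG.DLP.main Pool.Agent.Helper51.RL.KMP.main
    Pool.Agent.Helper61.RG.CJ1.main Pool.Agent.Helper61.RG.CJ2.main
    (Pool.Agent.Helper51.RL.CP1.main (Pool.Agent.Helper10.RL.CHP.main
      Pool.Agent.Helper51.RL.KMP.main)) Pool.Agent.Helper35.RG.SUR.main
    Pool.Agent.Helper54.RG.con Pool.Agent.Helper55.RL.hfP wrt
    Pool.Agent.Helper61.Thin.NDV.main Pool.Agent.Helper12.Thin.GRP.main
    Pool.Agent.Helper32.Thin.CMM.main Pool.Agent.Helper32.Thin.SPT.main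
    Pool.Agent.Helper3.Thin.IRD.main Pool.Agent.Helper3.Thin.IDP.main
    Pool.Agent.Helper56.Thin.ABP.main Pool.Agent.Helper32.Thin.DSG.main
    Pool.Agent.Helper12.Thin.MIR.main Pool.Agent.Helper12.Thin.BOT.main
    Pool.Agent.Helper44.Thin.RSV.main hGFU hT L hP hn

end main

end Pool.Agent.Helper55.RT
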