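import Pool.Agent.Helper55.RT.Asm

/-!
# No small subrepresentations: the proof from the parts
-/

set_option autoImplicit false
set_option linter.all false

open Polynomial IsDedekindDomain
open scoped Classical

namespace Pool.Agent.Helper55.RT

open Pool.Agent.TH115.GD Pool.Agent.Helper55.TT
open Pool.Agent.Helper55.RG hiding em_inj VanishL VanishExt
open Pool.Agent.Helper55.RL

section bot

variable {k k' K F : Type} [Field k] [CharZero k] [Field k'] [Algebra k k'] [Field K]
    [Algebra k[X] K] [Field F] [Algebra k'[X] F] [IsFractionRing k'[X] F] [Algebra K F]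

/-- `K` as the field of rational functions over `⊥`. -/
theorem tower_bot (hT : IsTower k k' K F) :
    ∃ _ : Algebra (⊥ : IntermediateField k k')[X] K, IsTower (⊥ : IntermediateField k k') k' K F := by
  haveI := hT.sep
  haveI := hT.fracK
  let e : (⊥ : IntermediateField k k') ≃ₐ[k] k := IntermediateField.botEquiv k k'
  let E : (⊥ : IntermediateField k k')[X] ≃+* k[X] := Polynomial.mapEquiv e.toRingEquiv
  have he : ∀ x : (⊥ : IntermediateField k k'), algebraMap k k' (e x) = (x : k') := by
    intro x
    have h1 : e.symm (e x) = x := e.symm_apply_apply x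
    conv_rhs => rw [← h1]
    rw [IntermediateField.botEquiv_symm]
    rfl
  letI alg : Algebra (⊥ : IntermediateField k k')[X] K :=
    ((algebraMap k[X] K).comp (E : (⊥ : IntermediateField k k')[X] →+* k[X])).toAlgebra
  have hal : ∀ q : (⊥ : IntermediateField k k')[X], algebraMap (⊥ : IntermediateField k k')[X] K q =
      algebraMap k[X] K (E q) := fun q => rfl
  refine ⟨alg, sepcl (k := k), ?_, ?_⟩
  · exact IsFractionRing.of_ringEquiv_left E fun q => (hal q).symm
  · intro q
    rw [hal, hT.map]
    congr 1
    show (q.map (e : (⊥ : IntermediateField k k') →+* k)).map (algebraMap k k') = _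
    rw [Polynomial.map_map]
    congr 1
    ext x
    exact he x

end bot

section main

variable {k k' K F : Type} [Field k] [CharZero k] [Field k'] [Algebra k k'] [Field K]
    [Algebra k[X] K] [Field F] [Algebra k'[X] F] [IsFractionRing k'[X] F] [Algebra K F]

/-- from `⊥` to `k` -/
theorem vanishL_bot {p : ℕ} [Fact p.Prime] {L : IntermediateField K (Sep F)} {P D : k[X]}
    (h : VanishL p k' K F L (P.map (algebraMap k (⊥ : IntermediateField k k')))
      (D.map (algebraMap k (⊥ : IntermediateField k k')))) : VanishL p k' K F L P D := by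
  have hmap : ((P.map (algebraMap k (⊥ : IntermediateField k k'))) *
      (D.map (algebraMap k (⊥ : IntermediateField k k')))).map
        (algebraMap (⊥ : IntermediateField k k') k') = (P * D).map (algebraMap k k') := by
    rw [← Polynomial.map_mul, Polynomial.map_map]
    rfl
  have hroot : ∀ θ : k', aeval θ (D.map (algebraMap k (⊥ : IntermediateField k k'))) = aeval θ D :=
    fun θ => aeval_map_algebraMap _ _ _
  intro d ρ hρ hL hU hN c hc hloc
  refine h d ρ hρ hL (fun v hv => hU v ?_) (fun θ hθ => hN θ ?_) c hc ⟨fun v hv => hloc.1 v ?_,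
    fun θ hθ => hloc.2 θ ?_⟩
  · rwa [hmap] at hv
  · rwa [hroot] at hθ
  · rwa [hmap] at hv
  · rwa [hroot] at hθ

/-- **No small subrepresentations.** -/
theorem noSub_of (hTNS : Q_TNS) (hKMM : Q_KMM) {p : ℕ} [Fact p.Prime] (hT : IsTower k k' K F)
    {L : IntermediateField K (Sep F)} {P D : k[X]} (hV : VanishGal p k' K F L P D)
    (hD : FullDeg k' D) : NoSub p k' K F L P D := by
  intro m hm d ρ hρ hL hU hN δ hδ hδF c hc hloc
  obtain ⟨κ, hfd, hgal, hcard, hκ⟩ := hKMM p k k' K F hT m δ hδ hδF
  have hex : ∃ θ : k', aeval θ D = 0 ∧ θ ∉ κ := by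
    by_contra hcon
    push Not at hcon
    exact hm (((hD κ hfd hcon).trans hcard).mul_left 2)
  obtain ⟨alg, hT₂⟩ := tower_bot hT
  have key := vanishL_bot (hV ⊥ κ bot_le hfd hgal hex K hT₂)
  refine hTNS p k k' K F _ P D key d m ρ hρ ?_ hU hN δ hδ ?_ hδF c hc hloc
  · intro σ hσ
    exact hL σ fun x hx => hσ x (IntermediateField.subset_adjoin _ _ (Or.inl hx))
  · intro σ hσ
    refine ⟨0, fun i j => ?_⟩
    rw [pow_zero, pow_one]
    exact hκ σ (fun e he => hσ _ (IntermediateField.subset_adjoin _ _ (Or.inr ⟨e, he, rfl⟩))) i j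

end main

end Pool.Agent.Helper55.RT
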