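import Pool.Agent.Helper55.RT.Fin
import Pool.Agent.Helper55.RT.NoSub
import Pool.Agent.Helper23.Thin.TNS
import Pool.Agent.Helper44.Thin.KMM
import Pool.Agent.Helper42.Thin.GFU

/-!
# The theorems over all fields of characteristic zero
-/

set_option autoImplicit false
set_option linter.all false

open Polynomial IsDedekindDomain
open scoped Classical

namespace Pool.Agent.Helper55.RT

open Pool.Agent.TH115.GD Pool.Agent.Helper55.TT
open Pool.Agent.Helper55.RG hiding em_inj VanishL VanishExt
open Pool.Agent.Helper55.RL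

variable {k k' K F : Type} [Field k] [CharZero k] [Field k'] [Algebra k k'] [Field K]
    [Algebra k[X] K] [Field F] [Algebra k'[X] F] [IsFractionRing k'[X] F] [Algebra K F]

theorem outsideThin_mono {k : Type} [Field k] {n : ℕ} {Q Q' : (Fin n → k) → Prop}
    (h : OutsideThin Q) (hQ : ∀ a, Q a → Q' a) : OutsideThin Q' := by
  obtain ⟨h1, S, h2, h3, h4⟩ := h
  exact ⟨h1, S, h2, h3, fun a h5 h6 => hQ a (h4 a h5 h6)⟩

/-- **No new Tate classes over Galois extensions which do not contain the roots of `D`.** -/
theorem gal_fin (p : ℕ) [Fact p.Prime] (hT : IsTower k k' K F)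
    (L : IntermediateField K (Sep F)) [FiniteDimensional K L] {P : k[X]} (hP : P ≠ 0) {n : ℕ}
    (hn : 5 ≤ n) :
    OutsideThin fun a : Fin n → k => VanishGal p k' K F L P (monicPoly a) :=
  outsideThin_mono (thin_fin Pool.Agent.Helper42.Thin.GFU.main p hT L hP hn) fun a h => h.1

/-- **No small subrepresentations over `k`.** -/
theorem sub_fin (p : ℕ) [Fact p.Prime] (hT : IsTower k k' K F)
    (L : IntermediateField K (Sep F)) [FiniteDimensional K L] {P : k[X]} (hP : P ≠ 0) {n : ℕ}
    (hn : 5 ≤ n) :
    OutsideThin fun a : Fin n → k => NoSub p k' K F L P (monicPoly a) :=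
  outsideThin_mono (thin_fin Pool.Agent.Helper42.Thin.GFU.main p hT L hP hn) fun a h =>
    noSub_of Pool.Agent.Helper23.Thin.main Pool.Agent.Helper44.Thin.KMM.main hT h.1 h.2.1

end Pool.Agent.Helper55.RT
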