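import Pool.Agent.Helper55.RT.Spec

/-!
# Subrepresentations over extensions of `k`: the statements of the parts (Galois theory)
-/

set_option autoImplicit false
set_option linter.all false

open Polynomial

namespace Pool.Agent.Helper55.RT

/-- `κ₁` is stable under the automorphisms over `κ` (`κ₁` is normal over `κ`). -/
def Stab {k k' : Type} [Field k] [Field k'] [Algebra k k'] (κ κ₁ : IntermediateField k k') : Prop :=
  ∀ ν : k' ≃ₐ[k] k', (∀ x ∈ κ, ν x = x) → ∀ x ∈ κ₁, ν x ∈ κ₁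

/-- ALC: if `κ₁` is normal over `κ` and the Galois group of `D` over `κ₁` contains the alternating group,
then the same is true for a Galois extension of `k` which contains `κ₁`. -/
def Q_ALC : Prop := ∀ (k k' : Type) [Field k] [CharZero k] [Field k'] [Algebra k k']
  [IsSepClosure k k'] (κ κ₁ : IntermediateField k k') [Normal k κ] [FiniteDimensional k κ₁],
  κ ≤ κ₁ → Stab κ κ₁ → ∀ (n : ℕ) (D : k[X]) (θ : Fin n → k'), 5 ≤ n → Irreducible D →
  D.map (algebraMap k k') = ∏ i, (X - C (θ i)) → Alt κ₁ θ →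
  ∃ κ₂ : IntermediateField k k', κ₁ ≤ κ₂ ∧ FiniteDimensional k κ₂ ∧ IsGalois k κ₂ ∧ Alt κ₂ θ

/-- DIC: the Galois group of `D` over `κ₁` contains the alternating group, or the degree of `κ₁` over `κ`
is divisible by `n! / 2`. -/
def Q_DIC : Prop := ∀ (k k' : Type) [Field k] [CharZero k] [Field k'] [Algebra k k']
  [IsSepClosure k k'] (κ κ₁ : IntermediateField k k') [FiniteDimensional k κ₁],
  κ ≤ κ₁ → Stab κ κ₁ → ∀ (n : ℕ) (D : k[X]) (θ : Fin n → k'), 5 ≤ n → Irreducible D →
  D.map (algebraMap k k') = ∏ i, (X - C (θ i)) → Alt κ θ →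
  Alt κ₁ θ ∨ Nat.factorial n * Module.finrank k κ ∣ 2 * Module.finrank k κ₁

/-- KM2: the compositum of `κ` and a Galois extension `M` of a subfield `k₂` of `κ`. -/
def Q_KM2 : Prop := ∀ (k k' : Type) [Field k] [CharZero k] [Field k'] [Algebra k k']
  [IsSepClosure k k'] (k₂ κ : IntermediateField k k') [FiniteDimensional k κ], k₂ ≤ κ →
  ∀ (M : IntermediateField k₂ k') [FiniteDimensional k₂ M] [IsGalois k₂ M],
  ∃ κ₁ : IntermediateField k k', κ ≤ κ₁ ∧ FiniteDimensional k κ₁ ∧ (∀ x ∈ M, x ∈ κ₁) ∧ Stab κ κ₁ ∧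
    ∃ r : ℕ, Module.finrank k κ₁ = Module.finrank k κ * r ∧ r ∣ Module.finrank k₂ M

end Pool.Agent.Helper55.RT
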