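import Pool.Agent.Helper55.RT.NoSub
import Pool.Agent.Helper55.RT.Spec4

/-!
# No small subrepresentations over extensions of `k`: the proof from the parts
-/

set_option autoImplicit false
set_option linter.all false

open Polynomial IsDedekindDomain
open scoped Classical

namespace Pool.Agent.Helper55.RT

open Pool.Agent.TH115.GD Pool.Agent.Helper55.TT
open Pool.Agent.Helper55.RG hiding em_inj VanishL VanishExt
open Pool.Agent.Helper55.RL

variable {k k' K F : Type} [Field k] [CharZero k] [Field k'] [Algebra k k'] [Field K]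
    [Algebra k[X] K] [Field F] [Algebra k'[X] F] [IsFractionRing k'[X] F] [Algebra K F]

theorem roots_inj [IsSepClosure k k'] {n : ℕ} {D : k[X]} {θ : Fin n → k'} (hirr : Irreducible D)
    (hθ : D.map (algebraMap k k') = ∏ i, (X - C (θ i))) : Function.Injective θ := by
  have h1 : (D.map (algebraMap k k')).Separable := hirr.separable.map
  rw [hθ] at h1
  exact (separable_prod_X_sub_C_iff (f := θ)).1 h1

/-- not all the roots are in `κ` if the Galois group over `κ` contains the alternating group -/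
theorem exists_of_alt [IsSepClosure k k'] {n : ℕ} {D : k[X]} {θ : Fin n → k'} (hn : 5 ≤ n)
    (hirr : Irreducible D) (hθ : D.map (algebraMap k k') = ∏ i, (X - C (θ i)))
    {κ : IntermediateField k k'} (hA : Alt κ θ) : ∃ x : k', aeval x D = 0 ∧ x ∉ κ := by
  have hinj := roots_inj hirr hθ
  set a : Fin n := ⟨0, by omega⟩ with ha
  set b : Fin n := ⟨1, by omega⟩ with hb
  set c : Fin n := ⟨2, by omega⟩ with hc
  have hab : a ≠ b := by rw [ha, hb, Ne, Fin.mk.injEq]; omega
  have hac : a ≠ c := by rw [ha, hc, Ne, Fin.mk.injEq]; omega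
  have hbc : b ≠ c := by rw [hb, hc, Ne, Fin.mk.injEq]; omega
  have h3 : (Equiv.swap a b * Equiv.swap a c : Equiv.Perm (Fin n)) ∈ alternatingGroup (Fin n) :=
    (Equiv.Perm.isThreeCycle_swap_mul_swap_same hab hac hbc).mem_alternatingGroup
  obtain ⟨ν, hν⟩ := hA _ h3
  refine ⟨θ a, ?_, fun hmem => ?_⟩
  · rw [← eval_map_algebraMap, hθ, eval_prod]
    apply Finset.prod_eq_zero (Finset.mem_univ a)
    rw [eval_sub, eval_X, eval_C, sub_self]
  · have h4 : ν (θ a) = θ a := ν.commutes (⟨θ a, hmem⟩ : κ)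
    have h5 := hν a
    rw [h4] at h5
    have h6 := hinj h5
    rw [Equiv.Perm.mul_apply, Equiv.swap_apply_left, Equiv.swap_apply_of_ne_of_ne hac.symm
      hbc.symm] at h6
    exact hac h6

/-- **No small subrepresentations, over all `k₂ ≤ κ`.** -/
theorem noSubGal_of (hTNS : Q_TNS) (hKMM : Q_KMM) (hALC : Q_ALC) (hDIC : Q_DIC) (hKM2 : Q_KM2)
    {p : ℕ} [Fact p.Prime] (hT : IsTower k k' K F) {L : IntermediateField K (Sep F)} {P D : k[X]}
    {n : ℕ} (hn : 5 ≤ n) (hV : VanishGal p k' K F L P D) (hG : GalBig k' n D) :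
    NoSubGal p k' K F L P D := by
  haveI := hT.sep
  obtain ⟨hirr, θ, hθ, hbig⟩ := hG
  have hdeg : D.natDegree = n := by
    have h1 := congrArg natDegree hθ
    rw [natDegree_map, natDegree_prod_of_monic _ _ fun i _ => monic_X_sub_C _] at h1
    simpa using h1
  intro k₂ κ hk₂κ hκfd hκg hex K₂ _ _ _ hT₂ m hm d ρ hρ hL hU hN δ hδ hδF c hc hloc
  haveI := hκfd
  haveI := hκg
  haveI : Normal k κ := hκg.to_normal
  rw [natDegree_map, hdeg] at hm
  obtain ⟨M, hMfd, hMgal, hMcard, hM⟩ := hKMM p k₂ k' K₂ F hT₂ m δ hδ hδF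
  haveI := hMfd
  haveI := hMgal
  obtain ⟨κ₁, hκκ₁, hκ₁fd, hMκ₁, hstab, r, hr, hrM⟩ := hKM2 k k' k₂ κ hk₂κ M
  haveI := hκ₁fd
  have hAκ : Alt κ θ := hbig κ hκfd hκg hex
  have hA₁ : Alt κ₁ θ := by
    rcases hDIC k k' κ κ₁ hκκ₁ hstab n D θ hn hirr hθ hAκ with h | h
    · exact h
    · exfalso
      apply hm
      rw [hr] at h
      have hpos : 0 < Module.finrank k κ := Module.finrank_pos
      have h1 : Nat.factorial n ∣ 2 * r := by
        obtain ⟨q, hq⟩ := h
        refine ⟨q, ?_⟩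
        apply Nat.eq_of_mul_eq_mul_left hpos
        linarith [hq, mul_comm (Module.finrank k κ) (2 * r)]
      exact h1.trans (mul_dvd_mul_left 2 (hrM.trans hMcard))
  obtain ⟨κ₂, hκ₁κ₂, h2fd, h2g, hA₂⟩ := hALC k k' κ κ₁ hκκ₁ hstab n D θ hn hirr hθ hA₁
  have key := hV k₂ κ₂ (hk₂κ.trans (hκκ₁.trans hκ₁κ₂)) h2fd h2g (exists_of_alt hn hirr hθ hA₂) K₂ hT₂
  refine hTNS p k₂ k' K₂ F _ _ _ key d m ρ hρ ?_ hU hN δ hδ ?_ hδF c hc hloc
  · intro σ hσ
    refine hL σ fun x hx => hσ x (IntermediateField.adjoin.mono _ _ _ ?_ hx)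
    exact Set.union_subset_union_right _ (Set.image_mono (hκκ₁.trans hκ₁κ₂))
  · intro σ hσ
    refine ⟨0, fun i j => ?_⟩
    rw [pow_zero, pow_one]
    exact hM σ (fun e he => hσ _ (IntermediateField.subset_adjoin _ _
      (Or.inr ⟨e, hκ₁κ₂ (hMκ₁ e he), rfl⟩))) i j

end Pool.Agent.Helper55.RT
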