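import Pool.Agent.Helper55.RT.Fin2
import Pool.Agent.Helper55.RT.NoSub2
import Pool.Agent.Helper61.Thin.DIC
import Pool.Agent.Helper85.Thin.KM2

/-!
# No small subrepresentations: the theorem
-/

set_option autoImplicit false
set_option linter.all false

open Polynomial IsDedekindDomain
open scoped Classical

namespace Pool.Agent.Helper55.RT

open Pool.Agent.TH115.GD Pool.Agent.Helper55.TT
open Pool.Agent.Helper55.RG hiding em_inj VanishL VanishExt
open Pool.Agent.Helper55.RL

variable {k k' K F : Type} [Field k] [CharZero k] [Field k'] [Algebra k k'] [Field K]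
    [Algebra k[X] K] [Field F] [Algebra k'[X] F] [IsFractionRing k'[X] F] [Algebra K F]

/-- **No small subrepresentations.** -/
theorem subgal_fin (p : ℕ) [Fact p.Prime] (hT : IsTower k k' K F)
    (L : IntermediateField K (Sep F)) [FiniteDimensional K L] {P : k[X]} (hP : P ≠ 0) {n : ℕ}
    (hn : 5 ≤ n) :
    OutsideThin fun a : Fin n → k => NoSubGal p k' K F L P (monicPoly a) :=
  outsideThin_mono (thin_fin Pool.Agent.Helper42.Thin.GFU.main p hT L hP hn) fun a h =>
    noSubGal_of Pool.Agent.Helper23.Thin.main Pool.Agent.Helper44.Thin.KMM.main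
      Pool.Agent.Helper61.Thin.ALC.alc Pool.Agent.Helper61.Thin.DIC.dic
      Pool.Agent.Helper85.Thin.KM2.main hT hn h.1 h.2.2

end Pool.Agent.Helper55.RT
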