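import Pool.Agent.Helper55.RT.MT4

/-!
# All Tate classes over all finite extensions: outside of a thin set
-/

set_option autoImplicit false
set_option linter.all false

open Polynomial IsDedekindDomain
open scoped Classical

namespace Pool.Agent.Helper55.RT

open Pool.Agent.TH115.GD Pool.Agent.Helper55.TT
open Pool.Agent.Helper55.RG hiding em_inj VanishL VanishExt
open Pool.Agent.Helper55.RL

variable {k k' K F : Type} [Field k] [CharZero k] [Field k'] [Algebra k k'] [Field K]
    [Algebra k[X] K] [Field F] [Algebra k'[X] F] [IsFractionRing k'[X] F] [Algebra K F]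

theorem NoArtin.mono {p : ℕ} [Fact p.Prime] {L L' : IntermediateField K (Sep F)} (h : L ≤ L')
    {ℓ : ℕ} {P D : k[X]} (hA : NoArtin p k' K F L' ℓ P D) : NoArtin p k' K F L ℓ P D := by
  intro m hm d ρ hρ hL hU hN δ hδ hδfin hδF c hc hloc
  exact hA m hm d ρ hρ (fun σ hσ => hL σ fun x hx => hσ x (h hx)) hU hN δ hδ hδfin hδF c hc hloc

/-- **The theorem, outside of a thin set.** -/
theorem artin_thin {p ℓ : ℕ} [hpf : Fact p.Prime] [hlf : Fact ℓ.Prime] (hpl : p ≠ ℓ)
    (hl3 : 3 ≤ ℓ) (hAGT : Q_AGT) (hPPR : Q_PPR) (hVKO : Q_VKO) (hCNT : Q_CNT) (hBTC : Q_BTC)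
    (hRES : Q_RES) (hDES : Q_DES) (hRSH : Q_RSH) (hINT : Q_INT) (hWRT : Q_WRT) (hNDV : Q_NDV)
    (hT : IsTower k k' K F) (k₀ : IntermediateField k k') [FiniteDimensional k k₀] {P : k[X]}
    (hP : P ≠ 0) (n : ℕ) :
    OutsideThin fun a : Fin n → k => NoArtin p k' K F (IntermediateField.adjoin K
      ((fun e : k' => algebraMap F (Sep F) (algebraMap k'[X] F (C e))) '' (k₀ : Set k'))) ℓ P
        (monicPoly a) := by
  haveI := hT.sep
  haveI := hT.fracK
  haveI : IsAlgClosed k' := isAC (k := k)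
  haveI : CharZero k' := charZero_of_injective_algebraMap (algebraMap k k').injective
  haveI : Algebra.IsSeparable k k' := IsSepClosure.separable
  have hp0 : 0 < p := hpf.out.pos
  rcases Nat.lt_or_ge n 2 with hn2 | hn2
  · -- nothing to prove
    refine OffThin.true' fun a m hm d ρ hρ hL hU hN δ hδ hδfin hδF c hc hloc j => ?_
    exfalso
    rw [show (monicPoly a).natDegree = n from (mpol_natDegree a).2] at hm
    have h1 : n / ℓ = 0 := Nat.div_eq_of_lt (by omega)
    rw [h1] at hm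
    have hm0 : 0 < m := j.pos
    have h2 : 0 < (2 * p * m ^ 2) ^ ℓ := by positivity
    simp at hm
    omega
  -- the field `κ₀`
  obtain ⟨S', hS'⟩ : ∃ S' : Finset k', k₀ = IntermediateField.adjoin k (S' : Set k') := by
    obtain ⟨S', hS'⟩ := IntermediateField.essFiniteType_iff.1
      (inferInstance : Algebra.EssFiniteType k k₀)
    exact ⟨S', hS'.symm⟩
  have hμf : {e : k' | e ^ p = 1}.Finite := by
    refine (Polynomial.finite_setOf_isRoot (X_pow_sub_C_ne_zero hp0 (1 : k'))).subset ?_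
    intro e he
    show (X ^ p - C (1 : k')).eval e = 0
    rw [eval_sub, eval_pow, eval_X, eval_C, he, sub_self]
  obtain ⟨z, hz⟩ : ∃ z : k', z ^ p = -1 := IsAlgClosed.exists_pow_nat_eq (-1 : k') hp0
  have hP' : P.map (algebraMap k k') ≠ 0 := by rwa [Ne, Polynomial.map_eq_zero]
  set R : Finset k' := (P.map (algebraMap k k')).roots.toFinset with hR
  have hmemR : ∀ x : k', x ∈ R ↔ aeval x P = 0 := by
    intro x
    rw [hR, Multiset.mem_toFinset, mem_roots hP', IsRoot, eval_map_algebraMap]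
  set T : Set k' := (((S' : Set k') ∪ {e : k' | e ^ p = 1}) ∪ (R : Set k')) ∪ {z} with hTd
  have hTf : T.Finite := ((S'.finite_toSet.union hμf).union R.finite_toSet).union
    (Set.finite_singleton z)
  haveI : Finite T := hTf.to_subtype
  set κ₀ : IntermediateField k k' := IntermediateField.adjoin k T with hκ₀
  haveI : FiniteDimensional k κ₀ := IntermediateField.finiteDimensional_adjoin fun x _ =>
    Algebra.IsSeparable.isIntegral k x
  have hTκ : ∀ x ∈ T, x ∈ κ₀ := fun x hx => IntermediateField.subset_adjoin _ _ hx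
  have hk₀κ₀ : k₀ ≤ κ₀ := by
    rw [hS', IntermediateField.adjoin_le_iff]
    exact fun x hx => hTκ x (Or.inl (Or.inl (Or.inl hx)))
  have hμκ : ∀ e : k', e ^ p = 1 → e ∈ κ₀ := fun e he => hTκ e (Or.inl (Or.inl (Or.inr he)))
  have hRκ : ∀ r ∈ R, r ∈ κ₀ := fun r hr => hTκ r (Or.inl (Or.inr hr))
  have hzκ : z ∈ κ₀ := hTκ z (Or.inr rfl)
  have o1 := hINT p k k' κ₀ R hRκ hμκ n
  have o2 := hWRT k k' κ₀ (X : κ₀[X][X]) monic_X (by
    unfold AbsIrr
    rw [Polynomial.map_X, Polynomial.map_X]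
    exact irreducible_X) n
  have o3 := hNDV k n (by omega) P hP
  refine (o1.and (o2.and o3)).mono ?_
  rintro a ⟨h1, h2, hirr, hdiv⟩
  set D : k[X] := mpol a with hD
  have hmD := mpol_natDegree a
  obtain ⟨θ, hθ⟩ : ∃ θ : Fin n → k', D.map (algebraMap k k') = ∏ i, (X - C (θ i)) := by
    obtain ⟨θ, hθ⟩ := exists_roots (hmD.1.map (algebraMap k k'))
    have h3 : (D.map (algebraMap k k')).natDegree = n := by
      rw [natDegree_map, hmD.2]
    refine ⟨θ ∘ Fin.cast h3.symm, hθ.trans ?_⟩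
    exact (Equiv.prod_comp (finCongr h3.symm) fun i => (X - C (θ i) : k'[X])).symm
  have hinj : Function.Injective θ := Pool.Agent.Helper32.Thin.inj_of hirr hθ
  have hroot' : ∀ i, aeval (θ i) D = 0 := by
    intro i
    rw [← eval_map_algebraMap, hθ, eval_prod]
    apply Finset.prod_eq_zero (Finset.mem_univ i)
    rw [eval_sub, eval_X, eval_C, sub_self]
  have hPθ : ∀ i, aeval (θ i) P ≠ 0 := fun i h => hdiv ((dvd_iff_aeval hirr (hroot' i)).2 h)
  haveI : IsSepClosure κ₀ k' := sepcl (k := k)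
  haveI : CharZero κ₀ := charZero_of_injective_algebraMap (algebraMap k κ₀).injective
  obtain ⟨K', _, _, _, hT'⟩ := exists_tower (k := k) (k' := k') (F := F) (κ := κ₀)
  have hmap : ∀ Q : k[X], (Q.map (algebraMap k κ₀)).map (algebraMap κ₀ k') =
      Q.map (algebraMap k k') := by
    intro Q
    rw [Polynomial.map_map]
    rfl
  have key : NoArtin p k' K' F (⊥ : IntermediateField K' (Sep F)) ℓ (P.map (algebraMap k κ₀))
      (D.map (algebraMap k κ₀)) := by
    refine core hpl hl3 hAGT hPPR hVKO hCNT hBTC hRES hDES hT' (fun ζ hζ => ⟨⟨ζ, hμκ ζ hζ⟩, rfl⟩)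
      ⟨⟨z, hzκ⟩, Subtype.ext hz⟩ (by rwa [Ne, Polynomial.map_eq_zero])
      (fun x hx => ⟨⟨x, hRκ x ((hmemR x).2 (by rwa [aeval_map_algebraMap] at hx))⟩, rfl⟩) hinj
      ((hmap D).trans hθ) (fun i => by rw [aeval_map_algebraMap]; exact hPθ i) ?_ ?_
    · intro π
      have h3 : D.map (algebraMap k k') = ∏ i, (X - C (θ (π i))) := by
        rw [hθ]
        exact (Equiv.prod_comp π fun i => (X - C (θ i) : k'[X])).symm
      have hev : ∀ t : k', ev2 (algebraMap κ₀ k') t 0 (X : κ₀[X][X]) = 0 := by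
        intro t
        unfold ev2
        rw [eval₂_X]
      obtain ⟨s, hs, -, -⟩ := h2 θ (fun i => θ (π i)) hθ h3 ⟨0, by omega⟩ ⟨1, by omega⟩
        (by rw [Ne, Fin.mk.injEq]; omega) 0 0 0 0 (hev _) (hev _) (hev _) (hev _)
      exact ⟨s, hs⟩
    · rw [hmap]
      exact h1 θ hθ
  have key2 := hRSH p k k' K F hT κ₀ K' hT' ℓ P D key
  refine NoArtin.mono ?_ key2
  exact IntermediateField.adjoin.mono _ _ _ (Set.image_mono hk₀κ₀)

end Pool.Agent.Helper55.RT
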