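import Pool.Agent.Helper55.RT.Spec
import Pool.Agent.Helper55.RT.Def3

/-!
# All Tate classes over all finite extensions: the statements of the parts
-/

set_option autoImplicit false
set_option linter.all false

open Polynomial IsDedekindDomain
open scoped Classical

namespace Pool.Agent.Helper55.RT

open Pool.Agent.TH115.GD Pool.Agent.Helper55.TT
open Pool.Agent.Helper55.RG hiding em_inj VanishL VanishExt
open Pool.Agent.Helper55.RL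

/-- MON: representations of finite `p`-groups are spanned by eigenvectors of subgroups of small index. -/
def Q_MON : Prop := ∀ (p : ℕ) [Fact p.Prime] (Ω : Type) [Field Ω] [IsAlgClosed Ω] [CharZero Ω]
  (R : Type) [Group R] [Finite R], IsPGroup p R → ∀ (W : Type) [AddCommGroup W] [Module Ω W]
  [FiniteDimensional Ω W] (r : Representation Ω R W),
  Submodule.span Ω {x : W | ∃ (H : Subgroup R) (χ : H →* Ωˣ), H.index ≤ Module.finrank Ω W ∧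
    ∀ h : H, r h x = ((χ h : Ωˣ) : Ω) • x} = ⊤

/-- EXO: elements of finite `p`-power order in `GL_m(ℚ_p)` have small order. -/
def Q_EXO : Prop := ∀ (p : ℕ) [Fact p.Prime] (m : ℕ), 0 < m →
  ∀ (g : Matrix (Fin m) (Fin m) ℚ_[p]) (a : ℕ), g ^ p ^ a = 1 →
  ∃ b : ℕ, p ^ b ≤ 2 * p * m ∧ g ^ p ^ b = 1

/-- STB: representations of finite `p`-groups over `ℚ_p` are spanned (over `Ω`) by vectors whose stabilizers
have small index. -/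
def Q_STB : Prop := ∀ (p : ℕ) [Fact p.Prime] (Ω : Type) [Field Ω] [IsAlgClosed Ω] [CharZero Ω]
  [Algebra ℚ_[p] Ω] (m : ℕ), 0 < m → ∀ (R : Type) [Group R] [Finite R], IsPGroup p R →
  ∀ r : R →* GL (Fin m) ℚ_[p],
  Submodule.span Ω {x : Fin m → Ω | ∃ H : Subgroup R, H.index ≤ 2 * p * m ^ 2 ∧
    ∀ h ∈ H, ((r h).1.map (algebraMap ℚ_[p] Ω)).mulVec x = x} = ⊤

/-- LAT: linear algebra: operators which are unipotent modulo `p`, of order prime to `p`. -/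
def Q_LAT : Prop := ∀ (p : ℕ) [Fact p.Prime] (m d e : ℕ)
  (T : (Fin m → ℚ_[p]) →ₗ[ℚ_[p]] (Fin m → ℚ_[p])) (Λ : Submodule ℤ_[p] (Fin m → ℚ_[p]))
  (N₀ : Submodule ℚ_[p] (Fin m → ℚ_[p])),
  (∀ x : Fin m → ℚ_[p], ∃ j : ℕ, ((p : ℚ_[p]) ^ j) • x ∈ Λ) → (∀ x ∈ N₀, x ∈ Λ) →
  (∀ x : Fin m → ℚ_[p], (∀ j : ℕ, ∃ y ∈ Λ, x = ((p : ℚ_[p]) ^ j) • y) → x ∈ N₀) →
  (∀ x ∈ Λ, T x ∈ Λ) → (∀ x ∈ N₀, T x ∈ N₀) →
  (∀ x ∈ Λ, ∃ y ∈ Λ, ((T - 1) ^ d) x = (p : ℚ_[p]) • y) → Nat.Coprime e p →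
  (∀ x, (T ^ e) x - x ∈ N₀) → ∀ x, T x - x ∈ N₀

/-- SZL: commuting lifts of disjoint cycles of prime length (Schur and Zassenhaus). -/
def Q_SZL : Prop := ∀ (p ℓ : ℕ) [Fact p.Prime] [Fact ℓ.Prime], p ≠ ℓ → ∀ (G : Type) [Group G]
  [Finite G] (n : ℕ) (φ : G →* Equiv.Perm (Fin n)), Function.Surjective φ → IsPGroup p φ.ker →
  ∃ (c : Fin (n / ℓ) → G) (x : Fin (n / ℓ) → Fin n), (∀ i j, Commute (c i) (c j)) ∧
    (∀ i, c i ^ ℓ = 1) ∧ (∀ i, {y | ∃ s : ℕ, (φ (c i) ^ s) (x i) = y}.ncard = ℓ) ∧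
    (∀ i j, i ≠ j → ∀ s : ℕ, φ (c j) ((φ (c i) ^ s) (x i)) = (φ (c i) ^ s) (x i)) ∧
    (∀ i j, i ≠ j → ∀ s : ℕ, (φ (c i) ^ s) (x i) ≠ x j)

/-- EIG: commuting operators of order `ℓ` have a product, with at most one factor missing, which fixes a
vector. -/
def Q_EIG : Prop := ∀ (ℓ : ℕ) [Fact ℓ.Prime], 3 ≤ ℓ → ∀ (Ω : Type) [Field Ω] [IsAlgClosed Ω]
  [CharZero Ω] (W : Type) [AddCommGroup W] [Module Ω W] [FiniteDimensional Ω W] [Nontrivial W]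
  (l : ℕ) (c : Fin l → (W →ₗ[Ω] W)), (∀ i j, Commute (c i) (c j)) → (∀ i, c i ^ ℓ = 1) →
  ∃ (a : Fin l → ℕ) (w : W), w ≠ 0 ∧ (∀ i j, ℓ ∣ a i → ℓ ∣ a j → i = j) ∧
    (List.ofFn fun i => c i ^ a i).prod w = w

/-- AGT: a subgroup with a fixed vector, many orbits of length `ℓ`, and a small index in the kernel of
`φ`. -/
def Q_AGT : Prop := ∀ (p ℓ : ℕ) [Fact p.Prime] [Fact ℓ.Prime], p ≠ ℓ → 3 ≤ ℓ →
  ∀ (A : Type) [Group A] (W : Type) [AddCommGroup W] [Module ℚ_[p] W]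
  [FiniteDimensional ℚ_[p] W] (m n : ℕ), 0 < Module.finrank ℚ_[p] W →
  Module.finrank ℚ_[p] W ≤ m → ∀ (r : Representation ℚ_[p] A W) (φ : A →* Equiv.Perm (Fin n))
  (N : Subgroup A), N.Normal → N.FiniteIndex → (∀ a ∈ N, r a = 1 ∧ φ a = 1) →
  Function.Surjective φ →
  (∀ a, φ a = 1 → ∀ e : ℕ, Nat.Coprime e p → r a ^ e = 1 → r a = 1) →
  ∃ (K : Subgroup A) (x : Fin (n / ℓ - 1) → Fin n), N ≤ K ∧
    (∃ w : W, w ≠ 0 ∧ ∀ a ∈ K, r a w = w) ∧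
    (∀ i, {y | ∃ a ∈ K, φ a (x i) = y}.ncard = ℓ) ∧ (∀ i j, i ≠ j → ∀ a ∈ K, φ a (x i) ≠ x j) ∧
    (K ⊓ φ.ker).relIndex φ.ker ≤ (2 * p * m ^ 2) ^ ℓ

/-- KIN: characters of order `p` which are not ramified outside of the roots of `s`, all in `k`, are fixed by
the Galois group of `K`. -/
def Q_KIN : Prop := ∀ (p : ℕ) [Fact p.Prime] (k k' K F : Type) [Field k] [CharZero k] [Field k']
  [Algebra k k'] [Field K] [Algebra k[X] K] [Field F] [Algebra k'[X] F] [IsFractionRing k'[X] F]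
  [Algebra K F], IsTower k k' K F → (∀ ζ : k', ζ ^ p = 1 → ζ ∈ Set.range (algebraMap k k')) →
  ∀ s : k[X], s ≠ 0 → (∀ x : k', aeval x s = 0 → x ∈ Set.range (algebraMap k k')) →
  ∀ χ : (Sep F ≃ₐ[F] Sep F) → ZMod p, Continuous χ → (∀ σ τ, χ (σ * τ) = χ σ + χ τ) →
  (∀ v : HeightOneSpectrum k'[X], s.map (algebraMap k k') ∉ v.asIdeal →
    ∀ (ι : Sep F →ₐ[F] Sep (Comp k'[X] F v)) (σ : Sep F ≃ₐ[F] Sep F), InLoc k' v ι σ → χ σ = 0) →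
  ∀ (τ : Sep F ≃ₐ[K] Sep F) (σ σ' : Sep F ≃ₐ[F] Sep F), (∀ x, τ (σ' x) = σ (τ x)) → χ σ' = χ σ

/-- UNP: the Galois group of `K` acts unipotently on the cocycles with values in `𝔽_p ^ d` which are not
ramified outside of the roots of `s`, all in `k`. -/
def Q_UNP : Prop := ∀ (p : ℕ) [Fact p.Prime] (k k' K F : Type) [Field k] [CharZero k] [Field k']
  [Algebra k k'] [Field K] [Algebra k[X] K] [Field F] [Algebra k'[X] F] [IsFractionRing k'[X] F]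
  [Algebra K F], IsTower k k' K F → (∀ ζ : k', ζ ^ p = 1 → ζ ∈ Set.range (algebraMap k k')) →
  ∀ s : k[X], s ≠ 0 → (∀ x : k', aeval x s = 0 → x ∈ Set.range (algebraMap k k')) →
  ∀ (d : ℕ) (ρ : (Sep F ≃ₐ[K] Sep F) →* GL (Fin d) (ZMod p)),
  (∀ σ, ∃ m : ℕ, ρ (σ ^ p ^ m) = 1) →
  (∀ v : HeightOneSpectrum k'[X], s.map (algebraMap k k') ∉ v.asIdeal →
    ∀ (ι : Sep F →ₐ[F] Sep (Comp k'[X] F v)) (σ : Sep F ≃ₐ[F] Sep F), InLoc k' v ι σ →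
      ρ (σ.restrictScalars K) = 1) →
  ∀ (τ : Sep F ≃ₐ[K] Sep F) (f : ℕ → (Sep F ≃ₐ[F] Sep F) → Fin d → ZMod p),
  (∀ i, Continuous (f i)) →
  (∀ i σ σ', f i (σ * σ') = f i σ + (ρ (σ.restrictScalars K)).1.mulVec (f i σ')) →
  (∀ i, ∀ v : HeightOneSpectrum k'[X], s.map (algebraMap k k') ∉ v.asIdeal →
    ∀ (ι : Sep F →ₐ[F] Sep (Comp k'[X] F v)) (σ : Sep F ≃ₐ[F] Sep F), InLoc k' v ι σ →
      f i σ = 0) →
  (∀ i (σ σ' : Sep F ≃ₐ[F] Sep F), (∀ x, τ (σ' x) = σ (τ x)) →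
    f (i + 1) σ = (ρ τ).1.mulVec (f i σ') - f i σ) →
  ∀ σ, f d σ = 0

/-- LIF: lifting to the decomposition group at a rational place, for a finite extension `M`. -/
def Q_LIF : Prop := ∀ (k k' K F : Type) [Field k] [CharZero k] [Field k'] [Algebra k k'] [Field K]
  [Algebra k[X] K] [Field F] [Algebra k'[X] F] [IsFractionRing k'[X] F] [Algebra K F],
  IsTower k k' K F → ∀ (a : k) (M : IntermediateField k k') [FiniteDimensional k M]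
  (ι : Sep F →ₐ[F] Sep (Comp k'[X] F (pl (algebraMap k k' a)))) (τ : Sep F ≃ₐ[K] Sep F),
  ∃ δ : Sep F ≃ₐ[K] Sep F, InD K (Comp k'[X] F (pl (algebraMap k k' a))) ι δ ∧
    ∀ e ∈ M, δ (em k' F (Sep F) (C e)) = τ (em k' F (Sep F) (C e))

/-- PPR: elements whose order on `M / N₀` is prime to `p` act trivially on it, if all the roots of `s` are
in `k`. Here `N₀` is the kernel of the homomorphism from `M` to `H¹(F, V)`. -/
def Q_PPR : Prop := ∀ (p : ℕ) [Fact p.Prime] (k k' K F : Type) [Field k] [CharZero k] [Field k']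
  [Algebra k k'] [Field K] [Algebra k[X] K] [Field F] [Algebra k'[X] F] [IsFractionRing k'[X] F]
  [Algebra K F], IsTower k k' K F → (∀ ζ : k', ζ ^ p = 1 → ζ ∈ Set.range (algebraMap k k')) →
  ∀ s : k[X], s ≠ 0 → (∀ x : k', aeval x s = 0 → x ∈ Set.range (algebraMap k k')) →
  ∀ (d m : ℕ) (ρ : (Sep F ≃ₐ[K] Sep F) →* GL (Fin d) ℤ_[p]), Continuous ρ →
  IsProPOn (⊥ : IntermediateField K (Sep F)) ρ → UnramOutside k' s ρ →
  ∀ δ : (Sep F ≃ₐ[K] Sep F) →* GL (Fin m) ℤ_[p], Continuous δ → (Set.range δ).Finite →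
  (∀ σ : Sep F ≃ₐ[F] Sep F, δ (σ.restrictScalars K) = 1) →
  ∀ c : Fin m → (Sep F ≃ₐ[F] Sep F) → Fin d → ℚ_[p], IsHomH1 ρ δ c →
  (∀ j, ∀ v : HeightOneSpectrum k'[X], s.map (algebraMap k k') ∉ v.asIdeal →
    LocCobAt k' ρ (c j) v) →
  ∀ a : k, (∀ (ι : Sep F →ₐ[F] Sep (Comp k'[X] F (pl (algebraMap k k' a)))) (y : Fin d → ℚ_[p]),
    (∀ σ : Sep F ≃ₐ[F] Sep F, InLoc k' (pl (algebraMap k k' a)) ι σ →
      actQ ρ (σ.restrictScalars K) y = y) → y = 0) →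
  (∀ j, LocCobAt k' ρ (c j) (pl (algebraMap k k' a))) →
  ∀ (τ : Sep F ≃ₐ[K] Sep F) (e : ℕ), Nat.Coprime e p →
  (∀ x : Fin m → ℚ_[p], IsCob ρ fun σ => ∑ j, (actQ δ (τ ^ e) x - x) j • c j σ) →
  ∀ x : Fin m → ℚ_[p], IsCob ρ fun σ => ∑ j, (actQ δ τ x - x) j • c j σ

/-- The product `∏ (x - θ_i)^(e_i) ∏ (x - r)^(g_r)`. -/
noncomputable def bet {k' : Type} [Field k'] {n : ℕ} (θ : Fin n → k') (R : Finset k')
    (e : Fin n → ℕ) (g : k' → ℕ) (x : k') : k' :=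
  (∏ i, (x - θ i) ^ e i) * ∏ r ∈ R, (x - r) ^ g r

/-- The differences of the `θ_i` and the differences of the `θ_i` and the elements of `R` are independent
modulo `p`-th powers in the field generated by the `θ_i`. -/
def Ind (p : ℕ) {k k' : Type} [Field k] [Field k'] [Algebra k k'] {n : ℕ} (θ : Fin n → k')
    (R : Finset k') : Prop :=
  ∀ (f : Fin n → Fin n → ℕ) (g : Fin n → k' → ℕ),
    (∃ w : k', (∀ ν : k' ≃ₐ[k] k', (∀ i, ν (θ i) = θ i) → ν w = w) ∧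
      w ^ p = (∏ i, ∏ j ∈ Finset.univ.filter (fun j => i < j), (θ i - θ j) ^ f i j) *
        ∏ i, ∏ r ∈ R, (θ i - r) ^ g i r) →
    (∀ i j, i < j → p ∣ f i j) ∧ ∀ i, ∀ r ∈ R, p ∣ g i r

/-- VKO: the condition for one orbit `O`. -/
def Q_VKO : Prop := ∀ (p : ℕ) [Fact p.Prime] (k k' : Type) [Field k] [CharZero k] [Field k']
  [Algebra k k'] [IsSepClosure k k'] (κ : IntermediateField k k') [FiniteDimensional k κ],
  (∀ ζ : k', ζ ^ p = 1 → ζ ∈ κ) → ∀ (n : ℕ) (θ : Fin n → k'), Function.Injective θ →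
  ∀ P : k[X], P ≠ 0 → (∀ x : k', aeval x P = 0 → x ∈ κ) → (∀ i, aeval (θ i) P ≠ 0) →
  ∀ O : Finset (Fin n), (∀ (ν : k' ≃ₐ[κ] k') (i : Fin n), i ∈ O → ∃ j ∈ O, ν (θ i) = θ j) →
  (∀ (ν : k' ≃ₐ[κ] k') (i : Fin n), ∃ j, ν (θ i) = θ j) →
  (∀ i ∈ O, ∀ j ∈ O, ∃ ν : k' ≃ₐ[κ] k', ν (θ i) = θ j) → Nat.Coprime O.card p → O.Nonempty →
  (∀ (e : Fin n → ℕ) (g : k' → ℕ), (∀ i ∈ O, e i = 0) → (∀ i, e i < p) →
    (∀ r, g r < p) → (∀ (ν : k' ≃ₐ[κ] k') (i j : Fin n), ν (θ i) = θ j → e i = e j) →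
    (∀ i ∈ O, ∀ j ∈ O, ∃ w : k', (∀ ν : k' ≃ₐ[κ] k', (∀ i, ν (θ i) = θ i) → ν w = w) ∧
      w ^ p * bet θ (P.map (algebraMap k k')).roots.toFinset e g (θ j) =
        bet θ (P.map (algebraMap k k')).roots.toFinset e g (θ i)) →
    (∀ i, e i = 0) ∧ ∀ r ∈ (P.map (algebraMap k k')).roots.toFinset, g r = 0) →
  ∀ D₁ D₂ : κ[X], D₁.map (algebraMap κ k') = ∏ i ∈ O, (X - C (θ i)) →
  D₂.map (algebraMap κ k') = ∏ i ∈ Oᶜ, (X - C (θ i)) →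
  Irreducible D₁ ∧ ¬ D₁ ∣ P.map (algebraMap k κ) * D₂ ∧
    IndepP p D₁ (P.map (algebraMap k κ) * D₂)

/-- CNT: counting. -/
def Q_CNT : Prop := ∀ (p : ℕ) [Fact p.Prime] (k k' : Type) [Field k] [CharZero k] [Field k']
  [Algebra k k'] [IsSepClosure k k'], (∀ ζ : k', ζ ^ p = 1 → ζ ∈ Set.range (algebraMap k k')) →
  (∃ z : k, z ^ p = -1) → ∀ (n : ℕ) (θ : Fin n → k') (R : Finset k'), Function.Injective θ →
  (∀ r ∈ R, r ∈ Set.range (algebraMap k k')) → (∀ i, θ i ∉ R) → Ind (k := k) p θ R →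
  ∀ (φ : (k' ≃ₐ[k] k') →* Equiv.Perm (Fin n)), (∀ ν i, ν (θ i) = θ (φ ν i)) →
  ∀ (K : Subgroup (k' ≃ₐ[k] k')), (K ⊓ φ.ker).relIndex φ.ker ≠ 0 → ∀ (l : ℕ) (x : Fin l → Fin n),
  (∀ i, 3 ≤ {y | ∃ a ∈ K, φ a (x i) = y}.ncard) → (∀ i j, i ≠ j → ∀ a ∈ K, φ a (x i) ≠ x j) →
  (∀ i, ∃ (e : Fin n → ℕ) (g : k' → ℕ), (∀ a ∈ K, e (φ a (x i)) = 0) ∧ (∀ j, e j < p) ∧
    (∀ r, g r < p) ∧ (∀ a ∈ K, ∀ j, e (φ a j) = e j) ∧ ((∃ j, e j ≠ 0) ∨ ∃ r ∈ R, g r ≠ 0) ∧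
    ∀ a ∈ K, ∀ b ∈ K, ∃ w : k', (∀ ν ∈ K, φ ν = 1 → ν w = w) ∧
      w ^ p * bet θ R e g (θ (φ a (x i))) = bet θ R e g (θ (φ b (x i)))) →
  p ^ l ≤ (K ⊓ φ.ker).relIndex φ.ker

/-- NPW: the generic products are not `p`-th powers. -/
def Q_NPW : Prop := ∀ (p : ℕ) [Fact p.Prime] (κ : Type) [Field κ] [CharZero κ] (n : ℕ)
  (R : Finset κ) (f : Fin n → Fin n → ℕ) (g : Fin n → κ → ℕ),
  ((∃ i j, i < j ∧ ¬ p ∣ f i j) ∨ ∃ i, ∃ r ∈ R, ¬ p ∣ g i r) →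
  ∀ w : FractionRing (MvPolynomial (Fin n) κ), w ^ p ≠
    algebraMap (MvPolynomial (Fin n) κ) (FractionRing (MvPolynomial (Fin n) κ))
      ((∏ i, ∏ j ∈ Finset.univ.filter (fun j => i < j),
        (MvPolynomial.X i - MvPolynomial.X j) ^ f i j) *
        ∏ i, ∏ r ∈ R, (MvPolynomial.X i - MvPolynomial.C r) ^ g i r)

/-- INT: outside of a thin set the differences are independent modulo `p`-th powers. -/
def Q_INT : Prop := ∀ (p : ℕ) [Fact p.Prime] (k k' : Type) [Field k] [CharZero k] [Field k']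
  [Algebra k k'] [IsSepClosure k k'] (κ₀ : IntermediateField k k') [FiniteDimensional k κ₀]
  (R : Finset k'), (∀ r ∈ R, r ∈ κ₀) → (∀ ζ : k', ζ ^ p = 1 → ζ ∈ κ₀) → ∀ n : ℕ,
  OffThin fun a : Fin n → k => ∀ θ : Fin n → k',
    (mpol a).map (algebraMap k k') = ∏ i, (X - C (θ i)) → Ind (k := κ₀) p θ R

/-- BTC: the criterion for `p`-groups (no extension `L`). -/
def Q_BTC : Prop := ∀ (p : ℕ) [Fact p.Prime] (k k' K F : Type) [Field k] [CharZero k] [Field k']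
  [Algebra k k'] [Field K] [Algebra k[X] K] [Field F] [Algebra k'[X] F] [IsFractionRing k'[X] F]
  [Algebra K F], IsTower k k' K F → (∀ ζ : k', ζ ^ p = 1 → ζ ∈ Set.range (algebraMap k k')) →
  ∀ s π : k[X], s ≠ 0 → Irreducible π → ¬ π ∣ s → IndepP p π s →
  VanishL p k' K F (⊥ : IntermediateField K (Sep F)) s π

/-- RES: classes which are fixed by the automorphisms over `κ`, and vanishing over `κ(t)`. -/
def Q_RES : Prop := ∀ (p : ℕ) [Fact p.Prime] (k k' K F : Type) [Field k] [CharZero k] [Field k']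
  [Algebra k k'] [Field K] [Algebra k[X] K] [Field F] [Algebra k'[X] F] [IsFractionRing k'[X] F]
  [Algebra K F], IsTower k k' K F → ∀ (κ : IntermediateField k k') (K' : Type) [Field K']
  [Algebra κ[X] K'] [Algebra K' F], IsTower κ k' K' F → ∀ (s π : κ[X]) (P D : k[X]),
  (s * π).map (algebraMap κ k') = (P * D).map (algebraMap k k') →
  VanishL p k' K' F (⊥ : IntermediateField K' (Sep F)) s π →
  ∀ (d : ℕ) (ρ : (Sep F ≃ₐ[K] Sep F) →* GL (Fin d) ℤ_[p]), Continuous ρ →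
  IsProPOn (⊥ : IntermediateField K (Sep F)) ρ → UnramOutside k' (P * D) ρ →
  NoInvAtRoots k' D ρ → (∀ θ : k', aeval θ π = 0 → aeval θ D = 0) →
  ∀ c : (Sep F ≃ₐ[F] Sep F) → Fin d → ℚ_[p], Continuous c →
  (∀ σ τ, c (σ * τ) = c σ + actQ ρ (σ.restrictScalars K) (c τ)) →
  (∀ τ : Sep F ≃ₐ[K] Sep F, (∀ e ∈ κ, τ (em k' F (Sep F) (C e)) = em k' F (Sep F) (C e)) →
    ∃ y : Fin d → ℚ_[p], ∀ σ σ' : Sep F ≃ₐ[F] Sep F, (∀ x, τ (σ' x) = σ (τ x)) →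
      actQ ρ τ (c σ') - c σ = actQ ρ (σ.restrictScalars K) y - y) →
  LocTrivial k' (P * D) D ρ c → IsCob ρ c

/-- RSH: from `κ(t)` to `K`. -/
def Q_RSH : Prop := ∀ (p : ℕ) [Fact p.Prime] (k k' K F : Type) [Field k] [CharZero k] [Field k']
  [Algebra k k'] [Field K] [Algebra k[X] K] [Field F] [Algebra k'[X] F] [IsFractionRing k'[X] F]
  [Algebra K F], IsTower k k' K F → ∀ (κ : IntermediateField k k') (K' : Type) [Field K']
  [Algebra κ[X] K'] [Algebra K' F], IsTower κ k' K' F → ∀ (ℓ : ℕ) (P D : k[X]),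
  NoArtin p k' K' F (⊥ : IntermediateField K' (Sep F)) ℓ (P.map (algebraMap k κ))
    (D.map (algebraMap k κ)) →
  NoArtin p k' K F (IntermediateField.adjoin K
    ((fun e : k' => algebraMap F (Sep F) (algebraMap k'[X] F (C e))) '' (κ : Set k'))) ℓ P D

/-- DES: a representation of the Galois group of `K` which is trivial on the Galois group of `F` is a
representation of the Galois group of `k`. -/
def Q_DES : Prop := ∀ (p : ℕ) [Fact p.Prime] (k k' K F : Type) [Field k] [CharZero k] [Field k']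
  [Algebra k k'] [Field K] [Algebra k[X] K] [Field F] [Algebra k'[X] F] [IsFractionRing k'[X] F]
  [Algebra K F], IsTower k k' K F → ∀ (m : ℕ) (δ : (Sep F ≃ₐ[K] Sep F) →* GL (Fin m) ℤ_[p]),
  Continuous δ → (Set.range δ).Finite →
  (∀ σ : Sep F ≃ₐ[F] Sep F, δ (σ.restrictScalars K) = 1) →
  ∃ (δ' : (k' ≃ₐ[k] k') →* GL (Fin m) ℤ_[p]) (κ : IntermediateField k k'),
    FiniteDimensional k κ ∧ Normal k κ ∧ (∀ ν : k' ≃ₐ[k] k', (∀ x ∈ κ, ν x = x) → δ' ν = 1) ∧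
    (∀ ν : k' ≃ₐ[k] k', ∃ τ : Sep F ≃ₐ[K] Sep F, ∀ e : k',
      τ (em k' F (Sep F) (C e)) = em k' F (Sep F) (C (ν e))) ∧
    (∀ τ : Sep F ≃ₐ[K] Sep F, ∃ ν : k' ≃ₐ[k] k', ∀ e : k',
      τ (em k' F (Sep F) (C e)) = em k' F (Sep F) (C (ν e))) ∧
    ∀ (τ : Sep F ≃ₐ[K] Sep F) (ν : k' ≃ₐ[k] k'),
      (∀ e : k', τ (em k' F (Sep F) (C e)) = em k' F (Sep F) (C (ν e))) → δ τ = δ' ν

end Pool.Agent.Helper55.RT
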