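import Pool.Agent.Helper55.RT.Fin
import Pool.Agent.Helper55.RT.MT5
import Pool.Agent.Helper6.Thin.AGT
import Pool.Agent.Helper88.Thin.BTC
import Pool.Agent.Helper2.Thin.DES
import Pool.Agent.Helper42.Thin.EIG
import Pool.Agent.Helper47.Thin.EXO
import Pool.Agent.Helper52.Thin.INT
import Pool.Agent.Helper84.Thin.KIN
import Pool.Agent.Helper85.Thin.LAT
import Pool.Agent.Helper57.Thin.LIF
import Pool.Agent.Helper70.Thin.MON
import Pool.Agent.Helper35.Thin.RES
import Pool.Agent.Helper8.Thin.RSH
import Pool.Agent.Helper16.Thin.SZL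
import Pool.Agent.Helper67.Thin.UNP
import Pool.Agent.Helper60.Thin.CNT
import Pool.Agent.Helper39.Thin.PPR
import Pool.Agent.Helper40.Thin.STB
import Pool.Agent.Helper26.Thin.VKO
import Pool.Agent.Helper87.RT.NPW

/-!
# All Tate classes over all finite extensions: the theorem
-/

set_option autoImplicit false
set_option linter.all false

open Polynomial IsDedekindDomain
open scoped Classical

namespace Pool.Agent.Helper55.RT

open Pool.Agent.TH115.GD Pool.Agent.Helper55.TT
open Pool.Agent.Helper55.RG hiding em_inj VanishL VanishExt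
open Pool.Agent.Helper55.RL

variable {k k' K F : Type} [Field k] [CharZero k] [Field k'] [Algebra k k'] [Field K]
    [Algebra k[X] K] [Field F] [Algebra k'[X] F] [IsFractionRing k'[X] F] [Algebra K F]

/-- **No small representations with a finite image.** -/
theorem artin_fin (p ℓ : ℕ) [Fact p.Prime] [Fact ℓ.Prime] (hpl : p ≠ ℓ) (hl3 : 3 ≤ ℓ)
    (hT : IsTower k k' K F) (k₀ : IntermediateField k k') [FiniteDimensional k k₀] {P : k[X]}
    (hP : P ≠ 0) (n : ℕ) :
    OutsideThin fun a : Fin n → k => NoArtin p k' K F (IntermediateField.adjoin K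
      ((fun e : k' => algebraMap F (Sep F) (algebraMap k'[X] F (C e))) '' (k₀ : Set k'))) ℓ P
        (monicPoly a) :=
  artin_thin hpl hl3
    (Pool.Agent.Helper6.Thin.AGT.main
      (Pool.Agent.Helper40.Thin.STB.main Pool.Agent.Helper70.Thin.MON.main
        Pool.Agent.Helper47.Thin.EXO.main)
      Pool.Agent.Helper16.Thin.SZL.main Pool.Agent.Helper42.Thin.EIG.main)
    (Pool.Agent.Helper39.Thin.main
      (Pool.Agent.Helper67.Thin.UNP.main Pool.Agent.Helper84.Thin.KIN.main)
      (Pool.Agent.Helper57.Thin.LIF.main Pool.Agent.Helper35.RG.SUR.main)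
      Pool.Agent.Helper85.Thin.LAT.main Pool.Agent.Helper2.Thin.DES.main)
    Pool.Agent.Helper26.Thin.VKO.main Pool.Agent.Helper60.Thin.CNT.main
    (Pool.Agent.Helper88.Thin.BTC.main Pool.Agent.Helper57.RG.DLP.main
      Pool.Agent.Helper51.RL.KMP.main Pool.Agent.Helper61.RG.CJ1.main
      Pool.Agent.Helper61.RG.CJ2.main
      (Pool.Agent.Helper51.RL.CP1.main (Pool.Agent.Helper10.RL.CHP.main
        Pool.Agent.Helper51.RL.KMP.main)) Pool.Agent.Helper12.Thin.BOT.main)
    Pool.Agent.Helper35.Thin.RES.main Pool.Agent.Helper2.Thin.DES.main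
    Pool.Agent.Helper8.Thin.RSH.main
    (Pool.Agent.Helper52.Thin.INT.main Pool.Agent.Helper61.Thin.SL.main
      Pool.Agent.Helper87.RT.NPW.main) wrt
    Pool.Agent.Helper61.Thin.NDV.main hT k₀ hP n

end Pool.Agent.Helper55.RT
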