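import Pool.Agent.Helper13.Thin.ORB
import Pool.Agent.Helper42.Thin.ORA

/-!
# The orbit of a class which is fixed over `κ(t)`: the dimension of its span is at most the degree of `κ`

This is ORA and ORB (helper42, helper13) with one more bound.
-/

set_option autoImplicit false
set_option linter.all false

open Polynomial IsDedekindDomain
open scoped Classical

namespace Pool.Agent.Helper55.RT.ORB2

open Pool.Agent.TH115.GD Pool.Agent.Helper55.RT
open Pool.Agent.Helper55.RG hiding em_inj VanishL VanishExt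
open Pool.Agent.Helper55.RL
open Pool.Agent.Helper13.Thin.ORB

/-- as ORA (helper42), with a bound for `m` -/
theorem ora2 (p : ℕ) [Fact p.Prime] (G : Type) [Group G] (H : Type) [AddCommGroup H]
    [Module ℚ_[p] H] [Module ℤ_[p] H] [IsScalarTower ℤ_[p] ℚ_[p] H]
    (r : Representation ℚ_[p] G H) (v : H) (hv : v ≠ 0)
    (N : Subgroup G) (hN : N.Normal) (hf : N.FiniteIndex) (hfix : ∀ g ∈ N, r g v = v)
    (S : Subgroup G) (hSf : S.FiniteIndex) (hS : ∀ g ∈ S, r g v = v) :
    ∃ (m : ℕ) (b : Fin m → H) (δ : G →* GL (Fin m) ℤ_[p]), 0 < m ∧ m ≤ S.index ∧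
      LinearIndependent ℚ_[p] b ∧
      (∀ g ∈ N, δ g = 1) ∧
      (∀ g j, r g (b j) = ∑ i, algebraMap ℤ_[p] ℚ_[p] ((δ g).1 i j) • b i) := by
  classical
  let O : Set H := Set.range fun g : G => r g v
  have hmul : ∀ (g h : G) (x : H), r (g * h) x = r g (r h x) := fun g h x => by
    rw [map_mul, Module.End.mul_apply]
  have hO : O.Finite := by
    haveI := hf
    haveI : Finite (G ⧸ N) := inferInstance
    have : O ⊆ Set.range fun q : G ⧸ N => r q.out v := by
      rintro _ ⟨g, rfl⟩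
      refine ⟨(g : G ⧸ N), ?_⟩
      have h1 : ((g : G ⧸ N).out)⁻¹ * g ∈ N := by
        rw [← QuotientGroup.eq, QuotientGroup.out_eq']
      have h2 : g = (g : G ⧸ N).out * (((g : G ⧸ N).out)⁻¹ * g) := by group
      show r (g : G ⧸ N).out v = r g v
      conv_rhs => rw [h2, hmul, hfix _ h1]
    exact (Set.finite_range _).subset this
  have hOS : O.ncard ≤ S.index := by
    haveI := hSf
    haveI : Finite (G ⧸ S) := inferInstance
    have h0 : O ⊆ Set.range fun q : G ⧸ S => r q.out v := by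
      rintro _ ⟨g, rfl⟩
      refine ⟨(g : G ⧸ S), ?_⟩
      have h1 : ((g : G ⧸ S).out)⁻¹ * g ∈ S := by
        rw [← QuotientGroup.eq, QuotientGroup.out_eq']
      have h2 : g = (g : G ⧸ S).out * (((g : G ⧸ S).out)⁻¹ * g) := by group
      show r (g : G ⧸ S).out v = r g v
      conv_rhs => rw [h2, hmul, hS _ h1]
    refine (Set.ncard_le_ncard h0 (Set.finite_range _)).trans ?_
    rw [← Set.image_univ]
    refine (Set.ncard_image_le Set.finite_univ).trans ?_
    rw [Set.ncard_univ]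
    exact le_rfl
  let Λ : Submodule ℤ_[p] H := Submodule.span ℤ_[p] O
  have hΛ : Λ.FG := ⟨hO.toFinset, by rw [Set.Finite.coe_toFinset]⟩
  haveI : Module.Finite ℤ_[p] Λ := Module.Finite.iff_fg.2 hΛ
  haveI : Module.IsTorsionFree ℤ_[p] H := by
    exact Module.IsTorsionFree.trans_faithfulSMul ℤ_[p] ℚ_[p] H
  haveI : Module.Free ℤ_[p] Λ := Module.free_of_finite_type_torsion_free'
  let R : G → (H →ₗ[ℤ_[p]] H) := fun g => (r g).restrictScalars ℤ_[p]
  have hmaps : ∀ g, ∀ x ∈ Λ, R g x ∈ Λ := by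
    intro g x hx
    have : Λ ≤ Λ.comap (R g) := by
      refine Submodule.span_le.2 ?_
      rintro _ ⟨h, rfl⟩
      refine Submodule.subset_span ⟨g * h, ?_⟩
      exact hmul g h v
    exact this hx
  let ρ : G →* Module.End ℤ_[p] Λ :=
    { toFun := fun g => (R g).restrict (hmaps g)
      map_one' := by
        apply LinearMap.ext
        intro x
        apply Subtype.ext
        show r 1 (x : H) = x
        rw [map_one]
        rfl
      map_mul' := by
        intro g h
        apply LinearMap.ext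
        intro x
        apply Subtype.ext
        exact hmul g h x }
  let B := Module.finBasis ℤ_[p] Λ
  let M : G →* Matrix (Fin (Module.finrank ℤ_[p] Λ)) (Fin (Module.finrank ℤ_[p] Λ)) ℤ_[p] :=
    ((LinearMap.toMatrixAlgEquiv B : Module.End ℤ_[p] Λ ≃ₐ[ℤ_[p]] _) :
      Module.End ℤ_[p] Λ →* _).comp ρ
  have hM : ∀ g i j, M g i j = B.repr (ρ g (B j)) i := fun g i j =>
    LinearMap.toMatrixAlgEquiv_apply B (ρ g) i j
  refine ⟨Module.finrank ℤ_[p] Λ, fun i => (B i : H), M.toHomUnits, ?_, ?_, ?_, ?_, ?_⟩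
  · have hvΛ : v ∈ Λ := Submodule.subset_span ⟨1, by
      show r 1 v = v
      rw [map_one]
      rfl⟩
    haveI : Nontrivial Λ := ⟨⟨v, hvΛ⟩, 0, fun h => hv (congrArg Subtype.val h)⟩
    exact Module.finrank_pos
  · refine le_trans ?_ hOS
    haveI : Fintype O := hO.fintype
    have h1 := finrank_span_le_card (R := ℤ_[p]) O
    rwa [← Set.ncard_eq_toFinset_card'] at h1
  · refine (LinearIndependent.iff_fractionRing ℤ_[p] ℚ_[p]).1 ?_
    exact B.linearIndependent.map' Λ.subtype (Submodule.ker_subtype Λ)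
  · intro g hg
    have hid : ∀ x ∈ Λ, R g x = x := by
      intro x hx
      have : Λ ≤ LinearMap.eqLocus (R g) LinearMap.id := by
        refine Submodule.span_le.2 ?_
        rintro _ ⟨h, rfl⟩
        show r g (r h v) = r h v
        have h1 : h⁻¹ * g * h ∈ N := by
          have := hN.conj_mem g hg h⁻¹
          simpa using this
        rw [← hmul, show g * h = h * (h⁻¹ * g * h) by group, hmul, hfix _ h1]
      exact this hx
    have hρ : ρ g = 1 := by
      apply LinearMap.ext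
      intro x
      apply Subtype.ext
      exact hid x x.2
    apply Units.ext
    show M g = 1
    show (LinearMap.toMatrixAlgEquiv B) (ρ g) = 1
    rw [hρ, map_one]
  · intro g j
    have h1 : (ρ g (B j)) = ∑ i, (M g i j) • B i := by
      conv_lhs => rw [← B.sum_repr (ρ g (B j))]
      exact Finset.sum_congr rfl fun i _ => by rw [hM]
    have h2 := congrArg Subtype.val h1
    show r g (B j : H) = ∑ i, algebraMap ℤ_[p] ℚ_[p] (M g i j) • (B i : H)
    have h3 : ((ρ g (B j) : Λ) : H) = r g (B j : H) := rfl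
    rw [← h3, h1]
    rw [Submodule.coe_sum]
    refine Finset.sum_congr rfl fun i _ => ?_
    rw [Submodule.coe_smul, algebraMap_smul]


/-- as ORB (helper13), with a bound for `m` -/
theorem orb2 (hTRL : Q_TRL) (p : ℕ) [Fact p.Prime] (k k' K F : Type) [Field k] [CharZero k]
    [Field k'] [Algebra k k'] [Field K] [Algebra k[X] K] [Field F] [Algebra k'[X] F]
    [IsFractionRing k'[X] F] [Algebra K F] (hT : IsTower k k' K F) (q D : k[X]) (d B : ℕ)
    (ρ : (Sep F ≃ₐ[K] Sep F) →* GL (Fin d) ℤ_[p]) (hρ : Continuous ρ)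
    (hB : ∀ (N : ℕ), B < N → ∀ c : Fin N → (Sep F ≃ₐ[F] Sep F) → Fin d → ℚ_[p],
      (∀ j, Continuous (c j)) →
      (∀ j σ τ, c j (σ * τ) = c j σ + actQ ρ (σ.restrictScalars K) (c j τ)) →
      (∀ j, LocTrivial k' q D ρ (c j)) →
      ∃ x : Fin N → ℚ_[p], x ≠ 0 ∧ ∀ σ, ∑ j, x j • c j σ = 0)
    (c : (Sep F ≃ₐ[F] Sep F) → Fin d → ℚ_[p]) (hcc : Continuous c)
    (hcm : ∀ σ τ, c (σ * τ) = c σ + actQ ρ (σ.restrictScalars K) (c τ))
    (hcl : LocTrivial k' q D ρ c) (hcob : ¬ IsCob ρ c) (κ : IntermediateField k k')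
    (hκ : FiniteDimensional k κ) (hfix : FixedOver ρ κ c) :
    ∃ (m : ℕ) (δ : (Sep F ≃ₐ[K] Sep F) →* GL (Fin m) ℤ_[p])
      (c' : Fin m → (Sep F ≃ₐ[F] Sep F) → Fin d → ℚ_[p]), m ≤ B ∧ m ≤ Module.finrank k κ ∧
      Continuous δ ∧
      (Set.range δ).Finite ∧ (∀ σ : Sep F ≃ₐ[F] Sep F, δ (σ.restrictScalars K) = 1) ∧
      IsHomH1 ρ δ c' ∧ (∀ j, LocTrivial k' q D ρ (c' j)) ∧ ∃ j, ¬ IsCob ρ (c' j) := by
  haveI := hT.sep
  haveI := hT.fracK
  haveI : IsSepClosure K (Sep F) := sepKΩ hT.map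
  haveI : Algebra.IsSeparable K (Sep F) := IsSepClosure.separable
  haveI : IsGalois K (Sep F) := inferInstance
  haveI : Algebra.IsSeparable k k' := IsSepClosure.separable
  haveI : IsGalois k k' := inferInstance
  obtain ⟨r, hrs, hr⟩ := Pool.Agent.Helper44.Thin.KMM.exists_r hT
  have hrc' : ∀ (τ : Sep F ≃ₐ[K] Sep F) (c : k'), τ (em k' F (Sep F) (C c)) =
      em k' F (Sep F) (C (r τ c)) := by
    intro τ c
    rw [hr, Polynomial.map_C]
    rfl
  have hrc : Continuous r := Pool.Agent.Helper44.Thin.KMM.r_cont hT hrc'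
  -- the normal subgroup
  set κn : IntermediateField k k' := IntermediateField.normalClosure k κ k' with hκn
  haveI : FiniteDimensional k κ := hκ
  haveI : FiniteDimensional k κn := inferInstance
  haveI : Normal k κn := inferInstance
  haveI : IsGalois k κn := ⟨⟩
  have hle : κ ≤ κn := IntermediateField.le_normalClosure κ
  haveI hkn : κn.fixingSubgroup.Normal := (InfiniteGalois.normal_iff_isGalois κn).2 inferInstance
  haveI hkf : κn.fixingSubgroup.FiniteIndex := ⟨by
    rw [← IntermediateField.finrank_eq_fixingSubgroup_index]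
    exact Module.finrank_pos.ne'⟩
  set N : Subgroup (Sep F ≃ₐ[K] Sep F) := κn.fixingSubgroup.comap r with hN
  haveI hNn : N.Normal := Subgroup.Normal.comap hkn r
  haveI hNf : N.FiniteIndex := ⟨by
    rw [hN, Subgroup.index_comap_of_surjective _ hrs]
    exact hkf.index_ne_zero⟩
  have hNopen : IsOpen (N : Set (Sep F ≃ₐ[K] Sep F)) :=
    (IntermediateField.fixingSubgroup_isOpen κn).preimage hrc
  have hmemN : ∀ τ, τ ∈ N ↔ ∀ e ∈ κn, r τ e = e := by
    intro τ
    rw [hN, Subgroup.mem_comap, IntermediateField.mem_fixingSubgroup_iff]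
  set H := ↥(Zc ρ q D c hcl) ⧸ (Z0 ρ).comap (Zc ρ q D c hcl).subtype with hH
  set v : H := Submodule.Quotient.mk ⟨c, hcc, hcm, hcl⟩ with hv
  have hv0 : v ≠ 0 := by
    intro h
    apply hcob
    rw [hv, Submodule.Quotient.mk_eq_zero] at h
    exact h
  haveI hSf' : κ.fixingSubgroup.FiniteIndex := ⟨by
    rw [← IntermediateField.finrank_eq_fixingSubgroup_index]
    exact Module.finrank_pos.ne'⟩
  set S : Subgroup (Sep F ≃ₐ[K] Sep F) := κ.fixingSubgroup.comap r with hSd
  have hSi : S.index = Module.finrank k κ := by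
    rw [hSd, Subgroup.index_comap_of_surjective _ hrs,
      ← IntermediateField.finrank_eq_fixingSubgroup_index]
  haveI hSf : S.FiniteIndex := ⟨by
    rw [hSi]
    exact Module.finrank_pos.ne'⟩
  have hmemS : ∀ τ, τ ∈ S ↔ ∀ e ∈ κ, r τ e = e := by
    intro τ
    rw [hSd, Subgroup.mem_comap, IntermediateField.mem_fixingSubgroup_iff]
  obtain ⟨m, b, δ, hm, hmS, hb, hδ1, hδ⟩ := ora2 p (Sep F ≃ₐ[K] Sep F) H
    (rep ρ hTRL hT q D c hcl) v hv0 N hNn hNf (by
      intro g hg
      rw [hv, rep_mk, Submodule.Quotient.eq]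
      obtain ⟨y, hy⟩ := hfix g (fun e he => by
        have h1 := hrc' g e
        rw [(hmemN g).1 hg e (hle he)] at h1
        exact h1)
      exact ⟨y, fun σ => hy σ (cj hT g σ) (cj_spec hT g σ)⟩) S hSf (by
      intro g hg
      rw [hv, rep_mk, Submodule.Quotient.eq]
      obtain ⟨y, hy⟩ := hfix g (fun e he => by
        have h1 := hrc' g e
        rw [(hmemS g).1 hg e he] at h1
        exact h1)
      exact ⟨y, fun σ => hy σ (cj hT g σ) (cj_spec hT g σ)⟩)
  choose z hz using fun j => Submodule.Quotient.mk_surjective _ (b j)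
  refine ⟨m, δ, fun j => (z j).1, ?_, hmS.trans hSi.le, ?_, ?_, ?_, ?_,
    fun j => (z j).2.2.2, ?_⟩
  · by_contra hmB
    push Not at hmB
    obtain ⟨x, hx0, hx⟩ := hB m hmB (fun j => (z j).1) (fun j => (z j).2.1)
      (fun j => (z j).2.2.1) (fun j => (z j).2.2.2)
    apply hx0
    have h1 : ∑ j, x j • b j = 0 := by
      have h2 : ∑ j, x j • b j = Submodule.Quotient.mk (∑ j, x j • z j) := by
        have h3 : (Submodule.Quotient.mk (∑ j, x j • z j) : H) =
            Submodule.mkQ _ (∑ j, x j • z j) := rfl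
        rw [h3, map_sum]
        refine Finset.sum_congr rfl fun j _ => ?_
        rw [map_smul, ← hz j]
        rfl
      rw [h2]
      have h4 : ∑ j, x j • z j = 0 := by
        apply Subtype.ext
        rw [Submodule.coe_sum, Submodule.coe_zero]
        funext σ
        rw [Finset.sum_apply]
        exact hx σ
      rw [h4]
      rfl
    funext j
    exact Fintype.linearIndependent_iff.1 hb x h1 j
  · apply continuous_of_continuousAt_one
    rw [ContinuousAt, map_one]
    refine tendsto_const_nhds.congr' ?_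
    filter_upwards [hNopen.mem_nhds N.one_mem] with τ hτ
    exact (hδ1 τ hτ).symm
  · have h1 : N ≤ δ.ker := fun g hg => hδ1 g hg
    haveI : δ.ker.FiniteIndex := Subgroup.finiteIndex_of_le h1
    haveI : Finite ((Sep F ≃ₐ[K] Sep F) ⧸ δ.ker) := inferInstance
    haveI : Finite δ.range := Finite.of_equiv _ (QuotientGroup.quotientKerEquivRange δ).toEquiv
    have h2 : Set.range δ = (δ.range : Set (GL (Fin m) ℤ_[p])) := rfl
    rw [h2]
    exact Set.toFinite _
  · intro σ
    apply hδ1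
    rw [hmemN]
    intro e _
    apply Pool.Agent.Helper55.RL.em_inj (k' := k') (F := F)
    show em k' F (Sep F) (C (r (σ.restrictScalars K) e)) = em k' F (Sep F) (C e)
    rw [← hrc']
    exact σ.commutes _
  · refine ⟨fun j => (z j).2.1, fun j => (z j).2.2.1, fun τ j => ?_⟩
    have h1 := hδ τ j
    have h2 : ∑ i, algebraMap ℤ_[p] ℚ_[p] ((δ τ).1 i j) • b i =
        Submodule.Quotient.mk (∑ i, algebraMap ℤ_[p] ℚ_[p] ((δ τ).1 i j) • z i) := by
      have h3 : (Submodule.Quotient.mk (∑ i, algebraMap ℤ_[p] ℚ_[p] ((δ τ).1 i j) • z i) : H) =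
          Submodule.mkQ _ (∑ i, algebraMap ℤ_[p] ℚ_[p] ((δ τ).1 i j) • z i) := rfl
      rw [h3, map_sum]
      refine Finset.sum_congr rfl fun i _ => ?_
      rw [map_smul, ← hz i]
      rfl
    rw [h2, ← hz j, rep_mk, Submodule.Quotient.eq] at h1
    obtain ⟨y, hy⟩ := h1
    refine ⟨y, fun σ σ' h => ?_⟩
    have h4 := hy σ
    have h5 : (((⟨actA ρ hT τ (z j).1, actA_Zc ρ hTRL hT q D c hcl τ (z j).2⟩ : Zc ρ q D c hcl) -
        ∑ i, algebraMap ℤ_[p] ℚ_[p] ((δ τ).1 i j) • z i : Zc ρ q D c hcl) :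
        (Sep F ≃ₐ[F] Sep F) → Fin d → ℚ_[p]) σ = actQ ρ τ ((z j).1 σ') -
        ∑ i, algebraMap ℤ_[p] ℚ_[p] ((δ τ).1 i j) • (z i).1 σ := by
      rw [Submodule.coe_sub, Pi.sub_apply, Submodule.coe_sum, Finset.sum_apply]
      change actQ ρ τ ((z j).1 (cj hT τ σ)) - _ = _
      rw [cj_eq hT τ h]
      rfl
    rw [← h5]
    exact h4
  · refine ⟨⟨0, hm⟩, fun h => hb.ne_zero ⟨0, hm⟩ ?_⟩
    rw [← hz, Submodule.Quotient.mk_eq_zero]
    exact h


end Pool.Agent.Helper55.RT.ORB2
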