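import Pool.Agent.Helper55.RT.Spec5
import Pool.Agent.Helper55.RT.Def4

/-!
# Tate classes over finite extensions: the statements of the parts
-/

set_option autoImplicit false
set_option linter.all false

open Polynomial IsDedekindDomain
open scoped Classical

namespace Pool.Agent.Helper55.RT

open Pool.Agent.TH115.GD Pool.Agent.Helper55.TT
open Pool.Agent.Helper55.RG hiding em_inj VanishL VanishExt
open Pool.Agent.Helper55.RL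

/-- KMD: the characters of order `p` which are not ramified outside of the roots of `s` span a space whose
dimension is at most the degree of `s`. -/
def Q_KMD : Prop := ∀ (p : ℕ) [Fact p.Prime] (k' F : Type) [Field k'] [IsAlgClosed k']
  [CharZero k'] [Field F] [Algebra k'[X] F] [IsFractionRing k'[X] F] (s : k'[X]), s ≠ 0 →
  ∀ N : ℕ, s.natDegree < N → ∀ χ : Fin N → (Sep F ≃ₐ[F] Sep F) → ZMod p,
  (∀ i, Continuous (χ i)) → (∀ i σ τ, χ i (σ * τ) = χ i σ + χ i τ) →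
  (∀ i, ∀ v : HeightOneSpectrum k'[X], s ∉ v.asIdeal →
    ∀ (ι : Sep F →ₐ[F] Sep (Comp k'[X] F v)) (σ : Sep F ≃ₐ[F] Sep F), InLoc k' v ι σ → χ i σ = 0) →
  ∃ x : Fin N → ZMod p, x ≠ 0 ∧ ∀ σ, ∑ i, x i * χ i σ = 0

/-- DMF: the same for cocycles with values in `𝔽_p ^ d`. -/
def Q_DMF : Prop := ∀ (p : ℕ) [Fact p.Prime] (k' F : Type) [Field k'] [IsAlgClosed k']
  [CharZero k'] [Field F] [Algebra k'[X] F] [IsFractionRing k'[X] F] (s : k'[X]), s ≠ 0 →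
  ∀ (d N : ℕ) (ρ : (Sep F ≃ₐ[F] Sep F) →* GL (Fin d) (ZMod p)),
  (∀ σ, ∃ m : ℕ, ρ (σ ^ p ^ m) = 1) → s.natDegree * d < N →
  ∀ f : Fin N → (Sep F ≃ₐ[F] Sep F) → Fin d → ZMod p, (∀ i, Continuous (f i)) →
  (∀ i σ τ, f i (σ * τ) = f i σ + (ρ σ).1.mulVec (f i τ)) →
  (∀ i, ∀ v : HeightOneSpectrum k'[X], s ∉ v.asIdeal →
    ∀ (ι : Sep F →ₐ[F] Sep (Comp k'[X] F v)) (σ : Sep F ≃ₐ[F] Sep F), InLoc k' v ι σ → f i σ = 0) →
  ∃ x : Fin N → ZMod p, x ≠ 0 ∧ ∀ σ, ∑ i, x i • f i σ = 0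

/-- DMQ: the same for cocycles with values in `ℚ_p ^ d`. -/
def Q_DMQ : Prop := ∀ (p : ℕ) [Fact p.Prime] (k k' K F : Type) [Field k] [CharZero k] [Field k']
  [Algebra k k'] [Field K] [Algebra k[X] K] [Field F] [Algebra k'[X] F] [IsFractionRing k'[X] F]
  [Algebra K F], IsTower k k' K F → ∀ s : k[X], s ≠ 0 →
  ∀ (d N : ℕ) (ρ : (Sep F ≃ₐ[K] Sep F) →* GL (Fin d) ℤ_[p]), Continuous ρ →
  (∀ σ : Sep F ≃ₐ[F] Sep F, ∃ m : ℕ, ∀ i j,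
    (p : ℤ_[p]) ∣ ((ρ ((σ.restrictScalars K) ^ p ^ m)).1 - 1) i j) → UnramOutside k' s ρ →
  s.natDegree * d < N → ∀ c : Fin N → (Sep F ≃ₐ[F] Sep F) → Fin d → ℚ_[p],
  (∀ j, Continuous (c j)) →
  (∀ j σ τ, c j (σ * τ) = c j σ + actQ ρ (σ.restrictScalars K) (c j τ)) →
  (∀ j, ∀ v : HeightOneSpectrum k'[X], s.map (algebraMap k k') ∉ v.asIdeal →
    LocCobAt k' ρ (c j) v) →
  ∃ x : Fin N → ℚ_[p], x ≠ 0 ∧ ∀ σ, ∑ j, x j • c j σ = 0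

/-- TRN: transport of the local groups. -/
def Q_TRN : Prop := ∀ (k k' K F : Type) [Field k] [CharZero k] [Field k'] [Algebra k k'] [Field K]
  [Algebra k[X] K] [Field F] [Algebra k'[X] F] [IsFractionRing k'[X] F] [Algebra K F],
  IsTower k k' K F → ∀ (τ : Sep F ≃ₐ[K] Sep F) (θ θ' : k'),
  τ (em k' F (Sep F) (C θ)) = em k' F (Sep F) (C θ') →
  ∀ ι : Sep F →ₐ[F] Sep (Comp k'[X] F (pl θ)),
  ∃ ι' : Sep F →ₐ[F] Sep (Comp k'[X] F (pl θ')), ∀ σ σ' : Sep F ≃ₐ[F] Sep F,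
    (∀ x, τ (σ' x) = σ (τ x)) → InLoc k' (pl θ') ι' σ → InLoc k' (pl θ) ι σ'

/-- TRL: transport of local triviality. -/
def Q_TRL : Prop := ∀ (p : ℕ) [Fact p.Prime] (k k' K F : Type) [Field k] [CharZero k] [Field k']
  [Algebra k k'] [Field K] [Algebra k[X] K] [Field F] [Algebra k'[X] F] [IsFractionRing k'[X] F]
  [Algebra K F], IsTower k k' K F → ∀ (q D : k[X]) (d : ℕ)
  (ρ : (Sep F ≃ₐ[K] Sep F) →* GL (Fin d) ℤ_[p]) (τ : Sep F ≃ₐ[K] Sep F)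
  (c c' : (Sep F ≃ₐ[F] Sep F) → Fin d → ℚ_[p]), LocTrivial k' q D ρ c →
  (∀ σ σ' : Sep F ≃ₐ[F] Sep F, (∀ x, τ (σ' x) = σ (τ x)) → c' σ = actQ ρ τ (c σ')) →
  LocTrivial k' q D ρ c'

/-- ORA: finite orbits in representations over `ℚ_p` give lattices with an action of the group. -/
def Q_ORA : Prop := ∀ (p : ℕ) [Fact p.Prime] (G : Type) [Group G] (H : Type) [AddCommGroup H]
  [Module ℚ_[p] H] (r : Representation ℚ_[p] G H) (v : H), v ≠ 0 →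
  ∀ N : Subgroup G, N.Normal → N.FiniteIndex → (∀ g ∈ N, r g v = v) →
  ∃ (m : ℕ) (b : Fin m → H) (δ : G →* GL (Fin m) ℤ_[p]), 0 < m ∧ LinearIndependent ℚ_[p] b ∧
    (∀ g ∈ N, δ g = 1) ∧
    (∀ g j, r g (b j) = ∑ i, algebraMap ℤ_[p] ℚ_[p] ((δ g).1 i j) • b i)

/-- ORB: a class which is fixed over `κ(t)` gives a representation with a finite image in `H¹(F, V)`. -/
def Q_ORB : Prop := ∀ (p : ℕ) [Fact p.Prime] (k k' K F : Type) [Field k] [CharZero k] [Field k']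
  [Algebra k k'] [Field K] [Algebra k[X] K] [Field F] [Algebra k'[X] F] [IsFractionRing k'[X] F]
  [Algebra K F], IsTower k k' K F → ∀ (q D : k[X]) (d B : ℕ)
  (ρ : (Sep F ≃ₐ[K] Sep F) →* GL (Fin d) ℤ_[p]), Continuous ρ →
  (∀ (N : ℕ), B < N → ∀ c : Fin N → (Sep F ≃ₐ[F] Sep F) → Fin d → ℚ_[p],
    (∀ j, Continuous (c j)) →
    (∀ j σ τ, c j (σ * τ) = c j σ + actQ ρ (σ.restrictScalars K) (c j τ)) →
    (∀ j, LocTrivial k' q D ρ (c j)) →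
    ∃ x : Fin N → ℚ_[p], x ≠ 0 ∧ ∀ σ, ∑ j, x j • c j σ = 0) →
  ∀ c : (Sep F ≃ₐ[F] Sep F) → Fin d → ℚ_[p], Continuous c →
  (∀ σ τ, c (σ * τ) = c σ + actQ ρ (σ.restrictScalars K) (c τ)) → LocTrivial k' q D ρ c →
  ¬ IsCob ρ c → ∀ κ : IntermediateField k k', FiniteDimensional k κ → FixedOver ρ κ c →
  ∃ (m : ℕ) (δ : (Sep F ≃ₐ[K] Sep F) →* GL (Fin m) ℤ_[p])
    (c' : Fin m → (Sep F ≃ₐ[F] Sep F) → Fin d → ℚ_[p]), m ≤ B ∧ Continuous δ ∧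
    (Set.range δ).Finite ∧ (∀ σ : Sep F ≃ₐ[F] Sep F, δ (σ.restrictScalars K) = 1) ∧
    IsHomH1 ρ δ c' ∧ (∀ j, LocTrivial k' q D ρ (c' j)) ∧ ∃ j, ¬ IsCob ρ (c' j)

end Pool.Agent.Helper55.RT
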