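import Pool.Agent.Helper55.RT.MT5
import Pool.Agent.Helper55.RT.Spec6
import Pool.Agent.Helper55.RT.ORB2

/-!
# Tate classes over all finite extensions: the proof from the parts
-/

set_option autoImplicit false
set_option linter.all false

open Polynomial IsDedekindDomain
open scoped Classical

namespace Pool.Agent.Helper55.RT

open Pool.Agent.TH115.GD Pool.Agent.Helper55.TT
open Pool.Agent.Helper55.RG hiding em_inj VanishL VanishExt
open Pool.Agent.Helper55.RL

variable {k k' K F : Type} [Field k] [CharZero k] [Field k'] [Algebra k k'] [Field K]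
    [Algebra k[X] K] [Field F] [Algebra k'[X] F] [IsFractionRing k'[X] F] [Algebra K F]

/-- constants are fixed by the Galois group of `F` -/
theorem fix_const (S : Set k') (x : Sep F) (hx : x ∈ IntermediateField.adjoin K
      ((fun e : k' => algebraMap F (Sep F) (algebraMap k'[X] F (C e))) '' S)) :
    ∀ σ : Sep F ≃ₐ[F] Sep F, σ x = x := by
  intro σ
  induction hx using IntermediateField.adjoin_induction with
  | mem x hx => obtain ⟨e, -, rfl⟩ := hx; exact σ.commutes _
  | algebraMap x =>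
    rw [IsScalarTower.algebraMap_apply K F (Sep F)]
    exact σ.commutes _
  | add x y _ _ hx hy => rw [map_add, hx, hy]
  | inv x _ hx => rw [map_inv₀, hx]
  | mul x y _ _ hx hy => rw [map_mul, hx, hy]

/-- **No Tate classes over finite extensions.** -/
theorem pot_of {p ℓ : ℕ} [Fact p.Prime] (hDMQ : Q_DMQ) (hTRL : Q_TRL) (hT : IsTower k k' K F)
    {L : IntermediateField K (Sep F)} (hLF : ∀ x ∈ L, ∀ σ : Sep F ≃ₐ[F] Sep F, σ x = x)
    {P D : k[X]} (hP : P ≠ 0) (hD : D ≠ 0) (hA : NoArtin p k' K F L ℓ P D) :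
    NoPotential p k' K F L ℓ P D := by
  intro d ρ hρ hL hU hN κ hκ hd c hc hmul hloc hfix
  by_contra hcon
  obtain ⟨m, δ, c', hmB, hmκ, hδ, hfin, hδF, hc', hloc', j, hj⟩ := ORB2.orb2 hTRL p k k' K F hT
    (P * D) D d ((P * D).natDegree * d) ρ hρ
    (fun N hN' c₁ h1 h2 h3 => hDMQ p k k' K F hT (P * D) (mul_ne_zero hP hD) d N ρ hρ
      (fun σ => hL (σ.restrictScalars K) fun x hx => hLF x hx σ) hU hN' c₁ h1 h2
      fun j v hv => (h3 j).1 v hv) c hc hmul hloc hcon κ hκ hfix
  refine hj (hA m (lt_of_le_of_lt ?_ hd) d ρ hρ hL hU hN δ hδ hfin hδF c' hc' hloc' j)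
  exact Nat.pow_le_pow_left (Nat.mul_le_mul_left _ (Nat.pow_le_pow_left (le_min hmB hmκ) 2)) ℓ

end Pool.Agent.Helper55.RT
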