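import Pool.Agent.Helper55.RT.Fin4
import Pool.Agent.Helper55.RT.MT6
import Pool.Agent.Helper40.Thin.TRN
import Pool.Agent.Helper29.Thin.TRL
import Pool.Agent.Helper95.Thin.KMD
import Pool.Agent.Helper55.RT.DMF
import Pool.Agent.Helper39.Thin.DMQ

/-!
# No Tate classes over finite extensions: the theorem
-/

set_option autoImplicit false
set_option linter.all false

open Polynomial IsDedekindDomain
open scoped Classical

namespace Pool.Agent.Helper55.RT

open Pool.Agent.TH115.GD Pool.Agent.Helper55.TT
open Pool.Agent.Helper55.RG hiding em_inj VanishL VanishExt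
open Pool.Agent.Helper55.RL

variable {k k' K F : Type} [Field k] [CharZero k] [Field k'] [Algebra k k'] [Field K]
    [Algebra k[X] K] [Field F] [Algebra k'[X] F] [IsFractionRing k'[X] F] [Algebra K F]

/-- **No Tate classes over finite extensions.** -/
theorem pot_fin (p ℓ : ℕ) [Fact p.Prime] [Fact ℓ.Prime] (hpl : p ≠ ℓ) (hl3 : 3 ≤ ℓ)
    (hT : IsTower k k' K F) (k₀ : IntermediateField k k') [FiniteDimensional k k₀] {P : k[X]}
    (hP : P ≠ 0) (n : ℕ) :
    OutsideThin fun a : Fin n → k => NoPotential p k' K F (IntermediateField.adjoin K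
      ((fun e : k' => algebraMap F (Sep F) (algebraMap k'[X] F (C e))) '' (k₀ : Set k'))) ℓ P
        (monicPoly a) := by
  refine OffThin.mono (artin_fin p ℓ hpl hl3 hT k₀ hP n) fun a h => ?_
  refine pot_of
    (Pool.Agent.Helper39.Thin.DMQ.main (Pool.Agent.Helper55.RT.DMF.main
      Pool.Agent.Helper95.Thin.KMD.main))
    (Pool.Agent.Helper29.Thin.TRL.main Pool.Agent.Helper40.Thin.TRN.main) hT
    (fun x hx => fix_const _ x hx) hP ?_ h
  exact (mpol_natDegree a).1.ne_zero

end Pool.Agent.Helper55.RT
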