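import Pool.Agent.Helper55.RT.Base

/-!
# The theorem for one polynomial `D`, over a large field of constants `κ`
-/

set_option autoImplicit false
set_option linter.all false

open Polynomial IsDedekindDomain
open scoped Classical

namespace Pool.Agent.Helper55.RT

open Pool.Agent.TH115.GD Pool.Agent.Helper55.TT
open Pool.Agent.Helper55.UV (IsCo IsCoG IsInvt rH rH_inj rH_apply)
open Pool.Agent.Helper55.RG hiding em_inj VanishL VanishExt
open Pool.Agent.Helper55.RL

section main

variable {k k' K F : Type} [Field k] [CharZero k] [Field k'] [Algebra k k'] [Field K]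
    [Algebra k[X] K] [Field F] [Algebra k'[X] F] [IsFractionRing k'[X] F] [Algebra K F]

/-- the constants of `κ(t) L` are in `κ`, if those of `L` are -/
theorem consts_bot (hCON : S_CON) (hT : IsTower k k' K F) {L : IntermediateField K (Sep F)}
    [FiniteDimensional K L] [Normal K L] {κ : IntermediateField k k'} [FiniteDimensional k κ]
    (hcon : consts hT L ≤ κ) {K' : Type} [Field K'] [Algebra κ[X] K'] [Algebra K' F]
    (hT' : IsTower κ k' K' F) :
    consts hT' (IntermediateField.adjoin K' (L : Set (Sep F))) = ⊥ := by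
  haveI := hT.sep
  haveI := hT'.sep
  haveI : CharZero κ := charZero_of_injective_algebraMap (algebraMap k κ).injective
  haveI : Algebra.IsSeparable κ k' := IsSepClosure.separable
  haveI : IsGalois κ k' := inferInstance
  rw [eq_bot_iff]
  intro c hc
  rw [mem_consts] at hc
  rw [IntermediateField.mem_bot, InfiniteGalois.mem_range_algebraMap_iff_fixed]
  intro σ
  exact hCON k k' K F hT L κ K' hT' c hc (σ.restrictScalars k) (fun x hx => σ.commutes ⟨x, hx⟩)
    (fun x hx => σ.commutes ⟨x, hcon ((mem_consts hT L x).2 hx)⟩)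

theorem vanish_kappa {p : ℕ} [hpf : Fact p.Prime] (hDSL : P_DLP) (hKUM : P_KMP) (hCJ1 : S_CJ1)
    (hCJ2 : S_CJ2) (hCH1 : P_CP1) (hSUR : S_SUR) (hCON : S_CON) (hMIR : Q_MIR) (hBOT : Q_BOT)
    (hT : IsTower k k' K F) {L₀ L L2 : IntermediateField K (Sep F)} {P s : k[X]} (hs : s ≠ 0)
    (hPs : P ∣ s) (hL₀ : L₀ ≤ L) (hle : L ≤ L2) [FiniteDimensional K L] [Normal K L]
    [FiniteDimensional K L2] (hμ : ∀ e : k', e ^ p = 1 → em k' F (Sep F) (C e) ∈ L)
    (hunr : ∀ v : HeightOneSpectrum k'[X], s.map (algebraMap k k') ∉ v.asIdeal →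
      ∀ (ι : Sep F →ₐ[F] Sep (Comp k'[X] F v)) (σ : Sep F ≃ₐ[F] Sep F),
      InI (Comp k'[X] F v) ι σ → ∀ x ∈ L, σ x = x)
    (hfin : ∀ (k₂ : IntermediateField k k') [FiniteDimensional k k₂] (K₂ : Type) [Field K₂]
      [Algebra k₂[X] K₂] [Algebra K₂ F], IsTower k₂ k' K₂ F →
      ∀ y : Sep F, y ≠ 0 → y ^ p ∈ IntermediateField.adjoin K₂ (L : Set (Sep F)) →
      (∀ v : HeightOneSpectrum k'[X], s.map (algebraMap k k') ∉ v.asIdeal →
        ∀ (ι : Sep F →ₐ[F] Sep (Comp k'[X] F v)) (σ : Sep F ≃ₐ[F] Sep F),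
        InI (Comp k'[X] F v) ι σ → σ y = y) →
      ∀ τ : Sep F ≃ₐ[K₂] Sep F, (∀ c : k', em k' F (Sep F) (C c) ∈
        IntermediateField.adjoin K₂ (L : Set (Sep F)) →
        τ (em k' F (Sep F) (C c)) = em k' F (Sep F) (C c)) →
      y ^ (p - 1) * τ y ∈ IntermediateField.adjoin K₂ (L2 : Set (Sep F)))
    {κ₀ κ : IntermediateField k k'} [FiniteDimensional k κ] (hκ : κ₀ ≤ κ)
    (hcon : consts hT L ≤ κ) {g : κ₀[X][X]} (hg : g.Monic) (hg0 : 0 < g.natDegree) {α : Sep F}
    (hL2 : IntermediateField.adjoin K {α} = L2)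
    (hα : eval₂ (em k' F (Sep F)) α (g.map (mapRingHom (algebraMap κ₀ k'))) = 0)
    {D : k[X]} (hDκ : Irreducible (D.map (algebraMap k κ)))
    (hind : IndepP p (D.map (algebraMap k κ)) (s.map (algebraMap k κ))) (hDs : ¬ D ∣ s)
    (hsep : ∀ θ : k', aeval θ D = 0 →
      ((g.map (mapRingHom (algebraMap κ₀ k'))).map (evalRingHom θ)).Separable)
    (htr : ∀ θ b b' : k', aeval θ D = 0 → ev2 (algebraMap κ₀ k') θ b g = 0 →
      ev2 (algebraMap κ₀ k') θ b' g = 0 → ∃ c : k' ≃ₐ[κ] k', c θ = θ ∧ c b = b')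
    (K' : Type) [Field K'] [Algebra κ[X] K'] [Algebra K' F] (hT' : IsTower κ k' K' F) :
    VanishL p k' K' F (IntermediateField.adjoin K' (L₀ : Set (Sep F))) (P.map (algebraMap k κ))
      (D.map (algebraMap k κ)) := by
  haveI := hT.sep
  haveI := hT.fracK
  haveI := hT'.sep
  haveI := hT'.fracK
  haveI : IsSepClosure K (Sep F) := sepKΩ hT.map
  haveI : Algebra.IsSeparable K (Sep F) := IsSepClosure.separable
  haveI : IsGalois K (Sep F) := inferInstance
  haveI : IsSepClosure K' (Sep F) := sepKΩ hT'.map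
  haveI : Algebra.IsSeparable K' (Sep F) := IsSepClosure.separable
  haveI : IsGalois K' (Sep F) := inferInstance
  haveI : CharZero κ := charZero_of_injective_algebraMap (algebraMap k κ).injective
  haveI : CharZero k' := charZero_of_injective_algebraMap (algebraMap k k').injective
  have hstab : ∀ (τ : Sep F ≃ₐ[K] Sep F), ∀ x ∈ L, τ x ∈ L := fun τ x hx => stabN inferInstance τ hx
  have hbot := consts_bot hCON hT (L := L) hcon hT'
  set L' : IntermediateField K' (Sep F) := IntermediateField.adjoin K' (L : Set (Sep F)) with hL'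
  haveI : FiniteDimensional K' L' := fin_adj hT hT' L
  haveI : Normal K' L' := normal_adj hT hT' hstab
  haveI : FiniteDimensional κ (consts hT' L') := fin_consts hT' L'
  have hmap' : ∀ q : k[X], (q.map (algebraMap k κ)).map (algebraMap κ k') =
      q.map (algebraMap k k') := by
    intro q
    rw [Polynomial.map_map]
    rfl
  have haev : ∀ (q : k[X]) (θ : k'), aeval θ (q.map (algebraMap k κ)) = aeval θ q := by
    intro q θ
    rw [aeval_map_algebraMap]
  obtain ⟨b1, b2⟩ := hBOT p κ k' (consts hT' L') hbot (D.map (algebraMap k κ))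
    (s.map (algebraMap k κ))
  intro d ρ hρ hp2 hun hno c hc hloc
  have hmem : ∀ x ∈ IntermediateField.adjoin K' (L₀ : Set (Sep F)), x ∈ L' := by
    have : IntermediateField.adjoin K' (L₀ : Set (Sep F)) ≤ L' :=
      IntermediateField.adjoin.mono _ _ _ hL₀
    exact fun x hx => this hx
  have hsub : ∀ v : HeightOneSpectrum k'[X],
      (s.map (algebraMap k κ) * D.map (algebraMap k κ)).map (algebraMap κ k') ∉ v.asIdeal →
      (P.map (algebraMap k κ) * D.map (algebraMap k κ)).map (algebraMap κ k') ∉ v.asIdeal := by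
    intro v hv h
    apply hv
    obtain ⟨s', rfl⟩ := hPs
    have h6 : ((P * s').map (algebraMap k κ) * D.map (algebraMap k κ)).map (algebraMap κ k') =
        (P.map (algebraMap k κ) * D.map (algebraMap k κ)).map (algebraMap κ k') *
          (s'.map (algebraMap k κ)).map (algebraMap κ k') := by
      simp only [Polynomial.map_mul]
      ring
    rw [h6]
    exact v.asIdeal.mul_mem_right _ h
  set gκ : κ[X][X] := g.map (mapRingHom (IntermediateField.inclusion hκ : κ₀ →+* κ)) with hgκ
  have hgκm : gκ.Monic := hg.map _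
  have hgκα : eval₂ (em κ K' (Sep F)) α gκ = 0 := by
    have h1 : (mapRingHom (algebraMap κ k')).comp
        (mapRingHom (IntermediateField.inclusion hκ : κ₀ →+* κ)) =
        mapRingHom (algebraMap κ₀ k') := by
      rw [mapRingHom_comp]
      rfl
    rw [← ev_gmap hT', hgκ, Polynomial.map_map, h1]
    exact hα
  refine crit_p (k := κ) (L := L')
    (L2 := IntermediateField.adjoin K' (L2 : Set (Sep F))) hDSL hKUM hCJ1 hCJ2 hCH1 hT'
    (IntermediateField.adjoin.mono _ _ _ hle)
    (fun e he => IntermediateField.subset_adjoin _ _ (hμ e he)) (s := s.map (algebraMap k κ))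
    (by rwa [Ne, Polynomial.map_eq_zero]) ?_ ?_ (consts hT' L') (mem_consts hT' L') hDκ (b1 hDκ)
    (b2 hind) ?_ ?_ hρ
    (fun σ hσ => hp2 σ fun x hx =>
      (IntermediateField.mem_fixingSubgroup_iff _ _).1 hσ x (hmem x hx))
    (fun v hv => hun v (hsub v hv)) hno hc.cont (fun σ τ => hc.mul σ τ)
    (fun τ => by
      obtain ⟨y, hy⟩ := hc.fixed τ
      exact ⟨y, fun σ σ' h => hy σ σ' fun x => AlgEquiv.congr_fun h x⟩)
    (fun v hv => hloc.1 v (hsub v hv)) hloc.2
  · intro v hv ι σ hσ
    rw [hmap'] at hv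
    have h1 := hunr v hv ι σ hσ
    rw [IntermediateField.mem_fixingSubgroup_iff]
    intro x hx
    show σ x = x
    induction hx using IntermediateField.adjoin_induction with
    | mem x hx => exact h1 x hx
    | algebraMap x =>
      rw [IsScalarTower.algebraMap_apply K' F (Sep F)]
      exact σ.commutes _
    | add x y _ _ hx hy => rw [map_add, hx, hy]
    | inv x _ hx => rw [map_inv₀, hx]
    | mul x y _ _ hx hy => rw [map_mul, hx, hy]
  · intro y y0 hyL hyI τ hτ
    refine hfin κ K' hT' y y0 hyL ?_ τ hτ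
    intro v hv
    rw [← hmap'] at hv
    exact hyI v hv
  · intro h
    exact hDs ((Polynomial.map_dvd_map' _).1 h)
  · intro θ hθ ι σ
    have hθ' : aeval θ D = 0 := by rwa [haev] at hθ
    have hirr : Irreducible (gκ.map (AdjoinRoot.mk (D.map (algebraMap k κ)))) :=
      hMIR k k' κ₀ κ hκ g hg hg0 (D.map (algebraMap k κ)) θ hDκ hθ (hsep θ hθ')
        (fun b b' hb hb' => htr θ b b' hθ' hb hb')
    obtain ⟨δ, hδD, hδ⟩ := hSUR κ k' K' F hT' (D.map (algebraMap k κ)) θ hDκ hθ ι gκ hgκm hirr α
      hgκα σ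
    refine ⟨δ, hδD, fun x hx => ?_⟩
    have hL2' : ∀ x ∈ L2, δ x = σ x := by
      intro x hx
      rw [← hL2] at hx
      induction hx using IntermediateField.adjoin_induction with
      | mem x hx =>
        rw [Set.mem_singleton_iff] at hx
        rw [hx, hδ]
      | algebraMap x =>
        obtain ⟨x₂, h⟩ := alg_sub' hT hT' x
        rw [h, δ.commutes, σ.commutes]
      | add x y _ _ hx hy => rw [map_add, map_add, hx, hy]
      | inv x _ hx => rw [map_inv₀, map_inv₀, hx]
      | mul x y _ _ hx hy => rw [map_mul, map_mul, hx, hy]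
    induction hx using IntermediateField.adjoin_induction with
    | mem x hx => exact hL2' x hx
    | algebraMap x => rw [δ.commutes, σ.commutes]
    | add x y _ _ hx hy => rw [map_add, map_add, hx, hy]
    | inv x _ hx => rw [map_inv₀, map_inv₀, hx]
    | mul x y _ _ hx hy => rw [map_mul, map_mul, hx, hy]

end main

end Pool.Agent.Helper55.RT
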