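import Pool.Agent.Helper55.RT.MT1

/-!
# All Tate classes over all finite extensions: elements of order prime to `p`
-/

set_option autoImplicit false
set_option linter.all false

open Polynomial IsDedekindDomain
open scoped Classical

namespace Pool.Agent.Helper55.RT

open Pool.Agent.TH115.GD Pool.Agent.Helper55.TT
open Pool.Agent.Helper55.RG hiding em_inj VanishL VanishExt
open Pool.Agent.Helper55.RL
open Pool.Agent.Helper44.Thin

variable {k k' K F : Type} [Field k] [CharZero k] [Field k'] [Algebra k k'] [Field K]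
    [Algebra k[X] K] [Field F] [Algebra k'[X] F] [IsFractionRing k'[X] F] [Algebra K F]

/-- The part PPR over the field generated by the roots. -/
theorem ppr_app {p : ℕ} [Fact p.Prime] (hPPR : Q_PPR) (hT : IsTower k k' K F)
    (hμ : ∀ ζ : k', ζ ^ p = 1 → ζ ∈ Set.range (algebraMap k k')) {P D : k[X]} (hP : P ≠ 0)
    (hPr : ∀ x : k', aeval x P = 0 → x ∈ Set.range (algebraMap k k')) {n : ℕ} {θ : Fin n → k'}
    (hD : D.map (algebraMap k k') = ∏ i, (X - C (θ i))) (i0 : Fin n) {d m : ℕ}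
    {ρ : (Sep F ≃ₐ[K] Sep F) →* GL (Fin d) ℤ_[p]} (hρ : Continuous ρ)
    (hL : IsProPOn (⊥ : IntermediateField K (Sep F)) ρ) (hU : UnramOutside k' (P * D) ρ)
    (hN : NoInvAtRoots k' D ρ) {δ : (Sep F ≃ₐ[K] Sep F) →* GL (Fin m) ℤ_[p]}
    (hδ : Continuous δ) (hδfin : (Set.range δ).Finite)
    (hδF : ∀ σ : Sep F ≃ₐ[F] Sep F, δ (σ.restrictScalars K) = 1)
    {c : Fin m → (Sep F ≃ₐ[F] Sep F) → Fin d → ℚ_[p]} (hc : IsHomH1 ρ δ c)
    (hloc : ∀ j, LocTrivial k' (P * D) D ρ (c j)) (τ : Sep F ≃ₐ[K] Sep F)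
    (hτ : ∀ i, τ (em k' F (Sep F) (C (θ i))) = em k' F (Sep F) (C (θ i))) (e : ℕ)
    (he : Nat.Coprime e p) (h : ∀ x, actQ δ (τ ^ e) x - x ∈ kerH ρ c) (x : Fin m → ℚ_[p]) :
    actQ δ τ x - x ∈ kerH ρ c := by
  haveI := hT.sep
  haveI := hT.fracK
  haveI : IsAlgClosed k' := isAC (k := k)
  have hroot : ∀ x : k', aeval x D = 0 → ∃ i, x = θ i := by
    intro x hx
    have h3 : (D.map (algebraMap k k')).eval x = 0 := by rwa [eval_map_algebraMap]
    rw [hD, eval_prod, Finset.prod_eq_zero_iff] at h3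
    obtain ⟨i, -, hi⟩ := h3
    refine ⟨i, ?_⟩
    rw [eval_sub, eval_X, eval_C, sub_eq_zero] at hi
    exact hi
  have hroot' : ∀ i, aeval (θ i) D = 0 := by
    intro i
    rw [← eval_map_algebraMap, hD, eval_prod]
    apply Finset.prod_eq_zero (Finset.mem_univ i)
    rw [eval_sub, eval_X, eval_C, sub_self]
  have hD0 : D ≠ 0 := by
    rintro rfl
    rw [Polynomial.map_zero] at hD
    exact (monic_prod_of_monic _ _ fun i _ => monic_X_sub_C (θ i)).ne_zero hD.symm
  set k₁ : IntermediateField k k' := IntermediateField.adjoin k (Set.range θ) with hk₁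
  haveI : IsSepClosure k₁ k' := sepcl (k := k)
  haveI : CharZero k₁ := charZero_of_injective_algebraMap (algebraMap k k₁).injective
  obtain ⟨K₁, _, _, _, hT₁⟩ := exists_tower (k := k) (k' := k') (F := F) (κ := k₁)
  haveI := hT₁.fracK
  have hx : ∀ x : K, ∃ x₂ : K₁, algebraMap K (Sep F) x = algebraMap K₁ (Sep F) x₂ :=
    RSV.alg_sub' (k := k) (k₂ := k₁) hT hT₁
  haveI : IsSepClosure K₁ (Sep F) := sepKΩ hT₁.map
  haveI : Algebra.IsSeparable K₁ (Sep F) := IsSepClosure.separable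
  set r := RSV.res (F := F) hx with hr
  have hrc : Continuous r := RSV.res_cont hx
  have hrs : ∀ σ : Sep F ≃ₐ[F] Sep F, r (σ.restrictScalars K₁) = σ.restrictScalars K := by
    intro σ
    ext x
    rfl
  have hτ1 : ∀ u ∈ k₁, τ (em k' F (Sep F) (C u)) = em k' F (Sep F) (C u) := by
    obtain ⟨q, -, hq⟩ := KMM.exists_r hT
    have hqθ : ∀ i, q τ (θ i) = θ i := by
      intro i
      apply Pool.Agent.Helper55.RL.em_inj (k' := k') (F := F)
      have h1 := hq τ (C (θ i))
      rw [hτ i, Polynomial.map_C] at h1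
      exact h1.symm
    intro u hu
    have h2 : q τ u = u := by
      rw [hk₁] at hu
      induction hu using IntermediateField.adjoin_induction with
      | mem x hx => obtain ⟨i, rfl⟩ := hx; exact hqθ i
      | algebraMap x => exact (q τ).commutes x
      | add x y _ _ hx hy => rw [map_add, hx, hy]
      | inv x _ hx => rw [map_inv₀, hx]
      | mul x y _ _ hx hy => rw [map_mul, hx, hy]
    rw [hq, Polynomial.map_C]
    show em k' F (Sep F) (C (q τ u)) = _
    rw [h2]
  obtain ⟨τ', hτ'⟩ := lift_tower hT hT₁ τ hτ1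
  have hrτ : r τ' = τ := by
    ext z
    exact hτ' z
  have hmap : ((P * D).map (algebraMap k k₁)).map (algebraMap k₁ k') =
      (P * D).map (algebraMap k k') := by
    rw [Polynomial.map_map]
    rfl
  have hact : ∀ (σ : Sep F ≃ₐ[F] Sep F) (y : Fin d → ℚ_[p]),
      actQ (ρ.comp r) (σ.restrictScalars K₁) y = actQ ρ (σ.restrictScalars K) y := by
    intro σ y
    unfold actQ
    rw [MonoidHom.comp_apply, hrs]
  have hcob : ∀ j v, LocCobAt k' ρ (c j) v → LocCobAt k' (ρ.comp r) (c j) v := by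
    rintro j v ⟨ι, y, hy⟩
    exact ⟨ι, y, fun σ hσ => by rw [hy σ hσ, hact]⟩
  have hcob1 : ∀ f : (Sep F ≃ₐ[F] Sep F) → Fin d → ℚ_[p], IsCob (ρ.comp r) f ↔ IsCob ρ f := by
    intro f
    constructor
    · rintro ⟨y, hy⟩
      exact ⟨y, fun σ => by rw [hy, hact]⟩
    · rintro ⟨y, hy⟩
      exact ⟨y, fun σ => by rw [hy, hact]⟩
  have hθmem : θ i0 ∈ k₁ := IntermediateField.subset_adjoin _ _ ⟨i0, rfl⟩
  have key := hPPR p k₁ k' K₁ F hT₁ (fun ζ hζ => by
      obtain ⟨u, hu⟩ := hμ ζ hζ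
      exact ⟨algebraMap k k₁ u, hu⟩) ((P * D).map (algebraMap k k₁))
    (by
      rw [Ne, Polynomial.map_eq_zero]
      exact mul_ne_zero hP hD0)
    (by
      intro x hx
      rw [aeval_map_algebraMap, map_mul, mul_eq_zero] at hx
      rcases hx with hx | hx
      · obtain ⟨u, hu⟩ := hPr x hx
        exact ⟨algebraMap k k₁ u, hu⟩
      · obtain ⟨i, rfl⟩ := hroot x hx
        exact ⟨⟨θ i, IntermediateField.subset_adjoin _ _ ⟨i, rfl⟩⟩, rfl⟩) d m (ρ.comp r)
    (hρ.comp hrc)
    (by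
      intro σ hσ
      obtain ⟨u, hu⟩ := hL (r σ) (fun x hx' => by
        obtain ⟨y, rfl⟩ := IntermediateField.mem_bot.1 hx'
        exact (r σ).commutes y)
      refine ⟨u, fun i j => ?_⟩
      have := hu i j
      rw [← map_pow] at this
      exact this)
    (by
      intro v hv ι σ hσ
      rw [MonoidHom.comp_apply, hrs]
      rw [hmap] at hv
      exact hU v hv ι σ hσ) (δ.comp r) (hδ.comp hrc)
    (hδfin.subset (by
      rintro _ ⟨σ, rfl⟩
      exact ⟨r σ, rfl⟩))
    (fun σ => by rw [MonoidHom.comp_apply, hrs]; exact hδF σ) c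
    { cont := hc.cont
      mul := fun j σ τ => by rw [hact]; exact hc.mul j σ τ
      equiv := fun τ j => by
        obtain ⟨y, hy⟩ := hc.equiv (r τ) j
        refine ⟨y, fun σ σ' hσ => ?_⟩
        rw [hact]
        exact hy σ σ' hσ }
    (fun j v hv => by
      rw [hmap] at hv
      exact hcob j v ((hloc j).1 v hv)) ⟨θ i0, hθmem⟩
    (fun ι y hy => hN (θ i0) (hroot' i0) ι y fun σ hσ => by
      rw [← hact]
      exact hy σ hσ)
    (fun j => hcob j _ ((hloc j).2 (θ i0) (hroot' i0))) τ' e he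
    (fun x => by
      rw [hcob1]
      have h1 := h x
      rw [mem_kerH] at h1
      have h2 : actQ (δ.comp r) (τ' ^ e) x = actQ δ (τ ^ e) x := by
        unfold actQ
        rw [MonoidHom.comp_apply, map_pow, hrτ]
      rw [h2]
      exact h1) x
  rw [hcob1] at key
  rw [mem_kerH]
  have h2 : actQ (δ.comp r) τ' x = actQ δ τ x := by
    unfold actQ
    rw [MonoidHom.comp_apply, hrτ]
  rw [h2] at key
  exact key

end Pool.Agent.Helper55.RT
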