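import Pool.Agent.Helper55.RT.MT2
import Pool.Agent.Helper32.Thin.Common

/-!
# All Tate classes over all finite extensions: preparations for the main argument
-/

set_option autoImplicit false
set_option linter.all false

open Polynomial IsDedekindDomain
open scoped Classical

namespace Pool.Agent.Helper55.RT

open Pool.Agent.TH115.GD Pool.Agent.Helper55.TT
open Pool.Agent.Helper55.RG hiding em_inj VanishL VanishExt
open Pool.Agent.Helper55.RL
open Pool.Agent.Helper44.Thin

section gal

variable {k k' : Type} [Field k] [CharZero k] [Field k'] [Algebra k k']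

/-- the permutations of the roots -/
theorem exists_phi {n : ℕ} {D : k[X]} {θ : Fin n → k'} (hθ : Function.Injective θ)
    (hD : D.map (algebraMap k k') = ∏ i, (X - C (θ i))) :
    ∃ φ : (k' ≃ₐ[k] k') →* Equiv.Perm (Fin n), ∀ ν i, ν (θ i) = θ (φ ν i) := by
  choose f hf using fun (ν : k' ≃ₐ[k] k') (i : Fin n) => Pool.Agent.Helper32.Thin.perm_of hD ν i
  let g : (k' ≃ₐ[k] k') →* Function.End (Fin n) :=
    { toFun := f
      map_one' := by
        funext i
        apply hθ
        rw [← hf]
        rfl
      map_mul' := fun a b => by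
        funext i
        apply hθ
        rw [← hf]
        show a (b (θ i)) = θ (f a (f b i))
        rw [hf b i, hf a] }
  exact ⟨g.toHomPerm, fun ν i => hf ν i⟩

/-- descent of polynomials -/
theorem desc_pol [IsSepClosure k k'] (κ : IntermediateField k k') (q : k'[X])
    (h : ∀ ν : k' ≃ₐ[κ] k', q.map (ν : k' →+* k') = q) :
    ∃ q₁ : κ[X], q₁.map (algebraMap κ k') = q := by
  haveI : IsSepClosure κ k' := sepcl (k := k)
  haveI : Algebra.IsSeparable κ k' := IsSepClosure.separable
  haveI : IsGalois κ k' := inferInstance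
  have h1 : q ∈ Polynomial.lifts (algebraMap κ k') := by
    rw [Polynomial.lifts_iff_coeff_lifts]
    intro j
    rw [InfiniteGalois.mem_range_algebraMap_iff_fixed]
    intro ν
    have h2 := congrArg (fun u : k'[X] => u.coeff j) (h ν)
    simp only [Polynomial.coeff_map] at h2
    exact h2
  rw [Polynomial.mem_lifts] at h1
  exact h1

/-- descent of products over stable sets of roots -/
theorem desc_prod [IsSepClosure k k'] (κ : IntermediateField k k') {n : ℕ} {θ : Fin n → k'}
    (hθ : Function.Injective θ) (O : Finset (Fin n))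
    (h : ∀ (ν : k' ≃ₐ[κ] k') (i : Fin n), i ∈ O → ∃ j ∈ O, ν (θ i) = θ j) :
    ∃ q₁ : κ[X], q₁.map (algebraMap κ k') = ∏ i ∈ O, (X - C (θ i)) := by
  apply desc_pol
  intro ν
  choose! f hf hf' using h ν
  have h1 : ∀ i ∈ O, ∀ j ∈ O, f i = f j → i = j := by
    intro i hi j hj hij
    apply hθ
    apply ν.injective
    rw [hf' i hi, hf' j hj, hij]
  have h2 : O.image f = O :=
    Finset.eq_of_subset_of_card_le (by
      intro x hx
      obtain ⟨i, hi, rfl⟩ := Finset.mem_image.1 hx
      exact hf i hi) (by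
      rw [Finset.card_image_of_injOn (fun i hi j hj => h1 i hi j hj)])
  rw [Polynomial.map_prod]
  conv_rhs => rw [← h2]
  rw [Finset.prod_image (fun i hi j hj => h1 i hi j hj)]
  refine Finset.prod_congr rfl fun i hi => ?_
  rw [Polynomial.map_sub, Polynomial.map_X, Polynomial.map_C]
  congr 2
  exact hf' i hi

end gal

section rep

variable {p : ℕ} [Fact p.Prime] {A : Type} [Group A] {m : ℕ}

/-- the representation on `M / N₀` -/
noncomputable def quo (δ' : A →* GL (Fin m) ℤ_[p]) (N₀ : Submodule ℚ_[p] (Fin m → ℚ_[p]))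
    (h : ∀ a, ∀ x ∈ N₀, actQ δ' a x ∈ N₀) : Representation ℚ_[p] A ((Fin m → ℚ_[p]) ⧸ N₀) where
  toFun a := N₀.mapQ N₀ (linQ δ' a) fun x hx => h a x hx
  map_one' := by
    apply LinearMap.ext
    intro x
    induction x using Submodule.Quotient.induction_on with
    | _ x =>
    show Submodule.Quotient.mk (actQ δ' 1 x) = Submodule.Quotient.mk x
    rw [actQ_one']
  map_mul' a b := by
    apply LinearMap.ext
    intro x
    induction x using Submodule.Quotient.induction_on with
    | _ x =>
    show Submodule.Quotient.mk (actQ δ' (a * b) x) =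
      Submodule.Quotient.mk (actQ δ' a (actQ δ' b x))
    rw [actQ_mul']

theorem quo_apply (δ' : A →* GL (Fin m) ℤ_[p]) (N₀ : Submodule ℚ_[p] (Fin m → ℚ_[p]))
    (h : ∀ a, ∀ x ∈ N₀, actQ δ' a x ∈ N₀) (a : A) (x : Fin m → ℚ_[p]) :
    quo δ' N₀ h a (Submodule.Quotient.mk x) = Submodule.Quotient.mk (actQ δ' a x) := rfl

theorem quo_one_iff (δ' : A →* GL (Fin m) ℤ_[p]) (N₀ : Submodule ℚ_[p] (Fin m → ℚ_[p]))
    (h : ∀ a, ∀ x ∈ N₀, actQ δ' a x ∈ N₀) (a : A) :
    quo δ' N₀ h a = 1 ↔ ∀ x, actQ δ' a x - x ∈ N₀ := by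
  constructor
  · intro h1 x
    have h2 : quo δ' N₀ h a (Submodule.Quotient.mk x) = Submodule.Quotient.mk x := by
      rw [h1]
      rfl
    rw [quo_apply] at h2
    exact (Submodule.Quotient.eq N₀).1 h2
  · intro h1
    apply LinearMap.ext
    intro x
    induction x using Submodule.Quotient.induction_on with
    | _ x =>
    rw [quo_apply]
    exact (Submodule.Quotient.eq N₀).2 (h1 x)

end rep

end Pool.Agent.Helper55.RT
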