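import Pool.Agent.Helper55.RT.MT3
import Pool.Agent.Helper23.Thin.TNS

/-!
# All Tate classes over all finite extensions: the main argument
-/

set_option autoImplicit false
set_option linter.all false

open Polynomial IsDedekindDomain
open scoped Classical

namespace Pool.Agent.Helper55.RT

open Pool.Agent.TH115.GD Pool.Agent.Helper55.TT
open Pool.Agent.Helper55.RG hiding em_inj VanishL VanishExt
open Pool.Agent.Helper55.RL
open Pool.Agent.Helper44.Thin

section loc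

variable {p : ℕ} [Fact p.Prime] {K F : Type} [Field K] [Field F] [Algebra K F] {d m : ℕ}

/-- linear combinations of locally trivial classes -/
theorem loc_cmb {k' : Type} [Field k'] [Algebra k'[X] F] [IsFractionRing k'[X] F]
    {ρ : (Sep F ≃ₐ[K] Sep F) →* GL (Fin d) ℤ_[p]}
    {c : Fin m → (Sep F ≃ₐ[F] Sep F) → Fin d → ℚ_[p]}
    (hc : ∀ j σ τ, c j (σ * τ) = c j σ + actQ ρ (σ.restrictScalars K) (c j τ))
    {v : HeightOneSpectrum k'[X]} (h : ∀ j, LocCobAt k' ρ (c j) v) (j₀ : Fin m)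
    (x : Fin m → ℚ_[p]) : LocCobAt k' ρ (cmb c x) v := by
  obtain ⟨ι, -, -⟩ := h j₀
  have h1 := fun j => Pool.Agent.Helper23.Thin.cob_any (hc j) (h j) ι
  choose y hy using h1
  refine ⟨ι, ∑ j, x j • y j, fun σ hσ => ?_⟩
  rw [actQ_sum']
  unfold cmb
  rw [← Finset.sum_sub_distrib]
  refine Finset.sum_congr rfl fun j _ => ?_
  rw [hy j σ hσ, actQ_smul', smul_sub]

theorem cmb_mul {ρ : (Sep F ≃ₐ[K] Sep F) →* GL (Fin d) ℤ_[p]}
    {c : Fin m → (Sep F ≃ₐ[F] Sep F) → Fin d → ℚ_[p]}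
    (hc : ∀ j σ τ, c j (σ * τ) = c j σ + actQ ρ (σ.restrictScalars K) (c j τ))
    (x : Fin m → ℚ_[p]) (σ τ : Sep F ≃ₐ[F] Sep F) :
    cmb c x (σ * τ) = cmb c x σ + actQ ρ (σ.restrictScalars K) (cmb c x τ) := by
  unfold cmb
  rw [actQ_sum', ← Finset.sum_add_distrib]
  refine Finset.sum_congr rfl fun j _ => ?_
  rw [hc, smul_add, actQ_smul']

theorem cmb_cont {c : Fin m → (Sep F ≃ₐ[F] Sep F) → Fin d → ℚ_[p]}
    (hc : ∀ j, Continuous (c j)) (x : Fin m → ℚ_[p]) : Continuous (cmb c x) := by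
  unfold cmb
  exact continuous_finset_sum _ fun j _ => (hc j).const_smul (x j)

end loc

variable {k k' K F : Type} [Field k] [CharZero k] [Field k'] [Algebra k k'] [Field K]
    [Algebra k[X] K] [Field F] [Algebra k'[X] F] [IsFractionRing k'[X] F] [Algebra K F]

/-- **The main argument.** -/
theorem core {p ℓ : ℕ} [hpf : Fact p.Prime] [hlf : Fact ℓ.Prime] (hpl : p ≠ ℓ) (hl3 : 3 ≤ ℓ)
    (hAGT : Q_AGT) (hPPR : Q_PPR) (hVKO : Q_VKO) (hCNT : Q_CNT) (hBTC : Q_BTC) (hRES : Q_RES)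
    (hDES : Q_DES) (hT : IsTower k k' K F)
    (hμ : ∀ ζ : k', ζ ^ p = 1 → ζ ∈ Set.range (algebraMap k k')) (hz : ∃ z : k, z ^ p = -1)
    {P D : k[X]} (hP : P ≠ 0) (hPr : ∀ x : k', aeval x P = 0 → x ∈ Set.range (algebraMap k k'))
    {n : ℕ} {θ : Fin n → k'} (hθ : Function.Injective θ)
    (hD : D.map (algebraMap k k') = ∏ i, (X - C (θ i))) (hPθ : ∀ i, aeval (θ i) P ≠ 0)
    (hS : ∀ π : Equiv.Perm (Fin n), ∃ ν : k' ≃ₐ[k] k', ∀ i, ν (θ i) = θ (π i))
    (hInd : Ind (k := k) p θ (P.map (algebraMap k k')).roots.toFinset) :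
    NoArtin p k' K F (⊥ : IntermediateField K (Sep F)) ℓ P D := by
  haveI := hT.sep
  haveI := hT.fracK
  haveI : IsAlgClosed k' := isAC (k := k)
  haveI : Algebra.IsSeparable k k' := IsSepClosure.separable
  haveI : IsGalois k k' := inferInstance
  have hdeg : D.natDegree = n := by
    have h1 := congrArg natDegree hD
    rw [natDegree_map, natDegree_prod_of_monic _ _ fun i _ => monic_X_sub_C _] at h1
    simpa using h1
  intro m hm d ρ hρ hL hU hN δ hδ hδfin hδF c hc hloc j₀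
  rw [hdeg] at hm
  by_contra hcon
  obtain ⟨δ', κ', hκfd, hκn, hδκ, hsur, hind, hδδ⟩ := hDES p k k' K F hT m δ hδ hδfin hδF
  haveI := hκfd
  haveI := hκn
  haveI : Algebra.IsSeparable k κ' := inferInstance
  haveI : IsGalois k κ' := ⟨⟩
  obtain ⟨φ, hφ⟩ := exists_phi hθ hD
  have hφs : Function.Surjective φ := by
    intro π
    obtain ⟨ν, hν⟩ := hS π
    refine ⟨ν, Equiv.ext fun i => ?_⟩
    apply hθ
    rw [← hφ, hν]
  have hφ1 : ∀ ν, φ ν = 1 ↔ ∀ i, ν (θ i) = θ i := by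
    intro ν
    constructor
    · intro h i
      rw [hφ, h]
      rfl
    · intro h
      refine Equiv.ext fun i => hθ ?_
      rw [← hφ, h]
      rfl
  -- the space `W`
  set N₀ := kerH ρ c with hN₀
  have hstab : ∀ a : k' ≃ₐ[k] k', ∀ x ∈ N₀, actQ δ' a x ∈ N₀ := by
    intro a x hx
    obtain ⟨τ, hτ⟩ := hsur a
    have h1 := kerH_stable hT hc τ hx
    rwa [actQ_pow_congr δ δ' (hδδ τ a hτ)] at h1
  have hj₀ : Pi.single j₀ (1 : ℚ_[p]) ∉ N₀ := by
    intro h
    apply hcon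
    obtain ⟨y, hy⟩ := h
    exact ⟨y, fun σ => by rw [← hy, cmb_single]⟩
  haveI : Nontrivial ((Fin m → ℚ_[p]) ⧸ N₀) := by
    rw [Submodule.Quotient.nontrivial_iff]
    intro h
    apply hj₀
    rw [h]
    exact Submodule.mem_top
  have hW0 : 0 < Module.finrank ℚ_[p] ((Fin m → ℚ_[p]) ⧸ N₀) := Module.finrank_pos
  have hWm : Module.finrank ℚ_[p] ((Fin m → ℚ_[p]) ⧸ N₀) ≤ m := by
    have h1 := Submodule.finrank_quotient_le N₀
    rwa [Module.finrank_fin_fun] at h1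
  have hm0 : 0 < m := j₀.pos
  have hp0 : 0 < p := hpf.out.pos
  have hn0 : 0 < n / ℓ - 1 := by
    by_contra h
    have h1 : n / ℓ - 1 = 0 := by omega
    rw [h1, pow_zero, Nat.lt_one_iff] at hm
    have h2 : 0 < (2 * p * m ^ 2) ^ ℓ := by positivity
    omega
  have hn : 0 < n := by
    rcases Nat.eq_zero_or_pos n with h | h
    · rw [h, Nat.zero_div] at hn0
      omega
    · exact h
  set r := quo δ' N₀ hstab with hr
  -- the subgroup `N`
  haveI hkn : κ'.fixingSubgroup.Normal := (InfiniteGalois.normal_iff_isGalois κ').2 inferInstance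
  haveI hkf : κ'.fixingSubgroup.FiniteIndex := ⟨by
    rw [← IntermediateField.finrank_eq_fixingSubgroup_index]
    exact Module.finrank_pos.ne'⟩
  haveI : φ.ker.FiniteIndex := Subgroup.finiteIndex_ker φ
  set N : Subgroup (k' ≃ₐ[k] k') := κ'.fixingSubgroup ⊓ φ.ker with hNd
  have hNn : N.Normal := Subgroup.normal_inf_normal _ _
  have hNfi : N.FiniteIndex := inferInstance
  have hN1 : ∀ a ∈ N, r a = 1 ∧ φ a = 1 := by
    intro a ha
    obtain ⟨h1, h2⟩ := Subgroup.mem_inf.1 ha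
    refine ⟨?_, h2⟩
    rw [hr, quo_one_iff]
    intro x
    have h3 : δ' a = 1 := hδκ a fun x hx => by
      rw [IntermediateField.mem_fixingSubgroup_iff] at h1
      exact h1 x hx
    have h4 : actQ δ' a x = x := by
      rw [actQ_pow_congr δ' δ' (σ' := 1) (by rw [h3, map_one]), actQ_one']
    rw [h4, sub_self]
    exact N₀.zero_mem
  have hP' : ∀ a, φ a = 1 → ∀ e : ℕ, Nat.Coprime e p → r a ^ e = 1 → r a = 1 := by
    intro a ha e he hre
    obtain ⟨τ, hτ⟩ := hsur a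
    rw [← map_pow, hr, quo_one_iff] at hre
    rw [hr, quo_one_iff]
    intro x
    have h1 := ppr_app hPPR hT hμ hP hPr hD ⟨0, hn⟩ hρ hL hU hN hδ hδfin hδF hc hloc τ
      (fun i => by rw [hτ, (hφ1 a).1 ha i]) e he (fun x => by
        have h2 := hre x
        rwa [← actQ_pow_congr δ δ' (σ := τ ^ e) (by rw [map_pow, map_pow, hδδ τ a hτ]) x] at h2) x
    rwa [actQ_pow_congr δ δ' (hδδ τ a hτ)] at h1
  obtain ⟨Kg, x, hNK, ⟨w, hw0, hw⟩, horb, hdis, hidx⟩ := hAGT p ℓ hpl hl3 (k' ≃ₐ[k] k')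
    ((Fin m → ℚ_[p]) ⧸ N₀) m n hW0 hWm r φ N hNn hNfi hN1 hφs hP'
  -- the fixed field `κ` of `Kg`
  have hopen : IsOpen (Kg : Set (k' ≃ₐ[k] k')) := by
    set k₁ : IntermediateField k k' := IntermediateField.adjoin k (Set.range θ) with hk₁
    haveI : FiniteDimensional k k₁ := IntermediateField.finiteDimensional_adjoin fun x _ =>
      Algebra.IsSeparable.isIntegral k x
    haveI : FiniteDimensional k (κ' ⊔ k₁ : IntermediateField k k') :=
      IntermediateField.finiteDimensional_sup _ _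
    have h1 : (κ' ⊔ k₁).fixingSubgroup ≤ Kg := by
      refine le_trans ?_ hNK
      intro ν hν
      rw [IntermediateField.mem_fixingSubgroup_iff] at hν
      rw [hNd, Subgroup.mem_inf, IntermediateField.mem_fixingSubgroup_iff]
      refine ⟨fun x hx => hν x (le_sup_left (a := κ') hx), (hφ1 ν).2 fun i => hν _ ?_⟩
      exact le_sup_right (a := κ') (IntermediateField.subset_adjoin _ _ ⟨i, rfl⟩)
    exact Subgroup.isOpen_mono h1 (IntermediateField.fixingSubgroup_isOpen _)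
  have hclosed : IsClosed (Kg : Set (k' ≃ₐ[k] k')) := Subgroup.isClosed_of_isOpen _ hopen
  set κ : IntermediateField k k' := IntermediateField.fixedField Kg with hκ
  have hfix : κ.fixingSubgroup = Kg :=
    InfiniteGalois.fixingSubgroup_fixedField (⟨Kg, hclosed⟩ : ClosedSubgroup (k' ≃ₐ[k] k'))
  haveI hκfin : FiniteDimensional k κ := by
    rw [← InfiniteGalois.isOpen_iff_finite, hfix]
    exact hopen
  have hmemK : ∀ ν : k' ≃ₐ[k] k', ν ∈ Kg ↔ ∀ e ∈ κ, ν e = e := by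
    intro ν
    rw [← hfix, IntermediateField.mem_fixingSubgroup_iff]
  haveI : IsSepClosure κ k' := sepcl (k := k)
  haveI : CharZero κ := charZero_of_injective_algebraMap (algebraMap k κ).injective
  obtain ⟨K', _, _, _, hT'⟩ := exists_tower (k := k) (k' := k') (F := F) (κ := κ)
  -- the fixed class
  obtain ⟨x₀, rfl⟩ := Submodule.Quotient.mk_surjective N₀ w
  have hx₀ : ¬ IsCob ρ (cmb c x₀) := by
    intro h
    apply hw0
    rw [Submodule.Quotient.mk_eq_zero]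
    exact h
  have hfixed : ∀ τ : Sep F ≃ₐ[K] Sep F,
      (∀ e ∈ κ, τ (em k' F (Sep F) (C e)) = em k' F (Sep F) (C e)) →
      ∃ y : Fin d → ℚ_[p], ∀ σ σ' : Sep F ≃ₐ[F] Sep F, (∀ x, τ (σ' x) = σ (τ x)) →
        actQ ρ τ (cmb c x₀ σ') - cmb c x₀ σ = actQ ρ (σ.restrictScalars K) y - y := by
    intro τ hτ
    obtain ⟨ν, hν⟩ := hind τ
    have h1 : ν ∈ Kg := by
      rw [hmemK]
      intro e he
      apply Pool.Agent.Helper55.RL.em_inj (k' := k') (F := F)
      show em k' F (Sep F) (C (ν e)) = em k' F (Sep F) (C e)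
      rw [← hν, hτ e he]
    have h2 := hw ν h1
    rw [hr, quo_apply] at h2
    have h3 : actQ δ τ x₀ - x₀ ∈ N₀ := by
      rw [actQ_pow_congr δ δ' (hδδ τ ν hν)]
      exact (Submodule.Quotient.eq N₀).1 h2
    obtain ⟨y₁, hy₁⟩ := h3
    obtain ⟨y₂, hy₂⟩ := hom_cmb hc τ x₀
    refine ⟨y₁ + y₂, fun σ σ' h => ?_⟩
    have h4 := hy₂ σ σ' h
    have h5 := hy₁ σ
    rw [cmb_sub] at h5
    rw [actQ_add']
    have h6 : actQ ρ τ (cmb c x₀ σ') - cmb c x₀ σ = (actQ ρ τ (cmb c x₀ σ') -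
      cmb c (actQ δ τ x₀) σ) + (cmb c (actQ δ τ x₀) σ - cmb c x₀ σ) := by abel
    rw [h6, h4, h5]
    abel
  -- the orbits
  set R := (P.map (algebraMap k k')).roots.toFinset with hR
  have hroot' : ∀ i, aeval (θ i) D = 0 := by
    intro i
    rw [← eval_map_algebraMap, hD, eval_prod]
    apply Finset.prod_eq_zero (Finset.mem_univ i)
    rw [eval_sub, eval_X, eval_C, sub_self]
  let mk : ∀ a ∈ Kg, k' ≃ₐ[κ] k' := fun a ha =>
    Pool.Agent.Helper32.Thin.mkA κ a.toRingEquiv fun x hx => (hmemK a).1 ha x hx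
  have hmk : ∀ a (ha : a ∈ Kg) y, mk a ha y = a y := fun a ha y => rfl
  have hrs : ∀ ν : k' ≃ₐ[κ] k', ν.restrictScalars k ∈ Kg := by
    intro ν
    rw [hmemK]
    exact fun e he => ν.commutes (⟨e, he⟩ : κ)
  have hfail : ∀ i, ∃ (e : Fin n → ℕ) (g : k' → ℕ), (∀ a ∈ Kg, e (φ a (x i)) = 0) ∧
      (∀ j, e j < p) ∧ (∀ r, g r < p) ∧ (∀ a ∈ Kg, ∀ j, e (φ a j) = e j) ∧
      ((∃ j, e j ≠ 0) ∨ ∃ r ∈ R, g r ≠ 0) ∧
      ∀ a ∈ Kg, ∀ b ∈ Kg, ∃ w : k', (∀ ν ∈ Kg, φ ν = 1 → ν w = w) ∧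
        w ^ p * bet θ R e g (θ (φ a (x i))) = bet θ R e g (θ (φ b (x i))) := by
    intro i
    by_contra hno
    apply hx₀
    set O : Finset (Fin n) := Finset.univ.filter fun j => ∃ a ∈ Kg, φ a (x i) = j with hO
    have hmemO : ∀ j, j ∈ O ↔ ∃ a ∈ Kg, φ a (x i) = j := by
      intro j
      rw [hO, Finset.mem_filter]
      exact and_iff_right (Finset.mem_univ j)
    have hOcard : O.card = ℓ := by
      rw [← horb i, ← Set.ncard_coe_finset]
      congr 1
      ext j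
      rw [Finset.mem_coe, hmemO]
      rfl
    have hsO : ∀ (ν : k' ≃ₐ[κ] k') (j : Fin n), j ∈ O → ∃ l ∈ O, ν (θ j) = θ l := by
      intro ν j hj
      obtain ⟨a, ha, rfl⟩ := (hmemO j).1 hj
      refine ⟨φ (ν.restrictScalars k) (φ a (x i)), (hmemO _).2 ⟨ν.restrictScalars k * a,
        Kg.mul_mem (hrs ν) ha, by rw [map_mul]; rfl⟩, hφ (ν.restrictScalars k) (φ a (x i))⟩
    have hsall : ∀ (ν : k' ≃ₐ[κ] k') (j : Fin n), ∃ l, ν (θ j) = θ l := fun ν j =>
      ⟨φ (ν.restrictScalars k) j, hφ (ν.restrictScalars k) j⟩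
    have hsOc : ∀ (ν : k' ≃ₐ[κ] k') (j : Fin n), j ∈ Oᶜ → ∃ l ∈ Oᶜ, ν (θ j) = θ l := by
      intro ν j hj
      obtain ⟨l, hl⟩ := hsall ν j
      refine ⟨l, ?_, hl⟩
      rw [Finset.mem_compl] at hj ⊢
      intro hlO
      apply hj
      obtain ⟨q, hq, hq'⟩ := hsO ν.symm l hlO
      have h1 : θ j = θ q := by rw [← hq', ← hl, AlgEquiv.symm_apply_apply]
      rw [hθ h1]
      exact hq
    obtain ⟨D₁, hD₁⟩ := desc_prod κ hθ O hsO
    obtain ⟨D₂, hD₂⟩ := desc_prod κ hθ Oᶜ hsOc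
    have hvko := hVKO p k k' κ (fun ζ hζ => by
        obtain ⟨u, hu⟩ := hμ ζ hζ
        rw [← hu]
        exact κ.algebraMap_mem u) n θ hθ P hP (fun y hy => by
        obtain ⟨u, hu⟩ := hPr y hy
        rw [← hu]
        exact κ.algebraMap_mem u) hPθ O hsO hsall
      (by
        intro a ha b hb
        obtain ⟨s, hs, rfl⟩ := (hmemO a).1 ha
        obtain ⟨t, ht, rfl⟩ := (hmemO b).1 hb
        refine ⟨mk (t * s⁻¹) (Kg.mul_mem ht (Kg.inv_mem hs)), ?_⟩
        have h1 : φ (t * s⁻¹) (φ s (x i)) = φ t (x i) := by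
          rw [← Equiv.Perm.mul_apply, ← map_mul, inv_mul_cancel_right]
        rw [← h1]
        exact hφ (t * s⁻¹) (φ s (x i)))
      (by
        rw [hOcard]
        exact (Nat.coprime_primes hlf.out hpf.out).2 hpl.symm)
      (by
        rw [← Finset.card_pos, hOcard]
        omega)
      (by
        intro e g h4 h5 h6 h7 h8
        by_contra hcon2
        apply hno
        refine ⟨e, g, fun a ha => h4 _ ((hmemO _).2 ⟨a, ha, rfl⟩), h5, h6, fun a ha j =>
          (h7 (mk a ha) j (φ a j) (hφ a j)).symm, ?_, fun a ha b hb => ?_⟩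
        · by_contra h
          push Not at h
          exact hcon2 ⟨h.1, h.2⟩
        · obtain ⟨w, hw1, hw2⟩ := h8 (φ b (x i)) ((hmemO _).2 ⟨b, hb, rfl⟩) (φ a (x i))
            ((hmemO _).2 ⟨a, ha, rfl⟩)
          exact ⟨w, fun ν hν h1 => hw1 (mk ν hν) fun j => (hφ1 ν).1 h1 j, hw2⟩)
      D₁ D₂ hD₁ hD₂
    obtain ⟨hv1, hv2, hv3⟩ := hvko
    have hD₂0 : D₂ ≠ 0 := by
      rintro rfl
      rw [Polynomial.map_zero] at hD₂
      exact (monic_prod_of_monic _ _ fun i _ => monic_X_sub_C (θ i)).ne_zero hD₂.symm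
    have hs0 : P.map (algebraMap k κ) * D₂ ≠ 0 :=
      mul_ne_zero (by rwa [Ne, Polynomial.map_eq_zero]) hD₂0
    have hb := hBTC p κ k' K' F hT' (fun ζ hζ => by
        obtain ⟨u, hu⟩ := hμ ζ hζ
        exact ⟨algebraMap k κ u, hu⟩) (P.map (algebraMap k κ) * D₂) D₁ hs0 hv1 hv2 hv3
    refine hRES p k k' K F hT κ K' hT' (P.map (algebraMap k κ) * D₂) D₁ P D ?_ hb d ρ hρ hL hU hN
      ?_ (cmb c x₀) (cmb_cont hc.cont x₀) (cmb_mul hc.mul x₀) hfixed
      ⟨fun v hv => loc_cmb hc.mul (fun j => (hloc j).1 v hv) j₀ x₀,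
        fun t ht => loc_cmb hc.mul (fun j => (hloc j).2 t ht) j₀ x₀⟩
    · have h1 : (P.map (algebraMap k κ)).map (algebraMap κ k') = P.map (algebraMap k k') := by
        rw [Polynomial.map_map]
        rfl
      rw [Polynomial.map_mul, Polynomial.map_mul, Polynomial.map_mul, hD₁, hD₂, hD, h1, mul_assoc,
        mul_comm (∏ i ∈ Oᶜ, (X - C (θ i))) (∏ i ∈ O, (X - C (θ i))), Finset.prod_mul_prod_compl]
    · intro t ht
      have h1 : (D₁.map (algebraMap κ k')).eval t = 0 := by rwa [eval_map_algebraMap]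
      rw [hD₁, eval_prod, Finset.prod_eq_zero_iff] at h1
      obtain ⟨j, -, hj⟩ := h1
      rw [eval_sub, eval_X, eval_C, sub_eq_zero] at hj
      rw [hj]
      exact hroot' j
  -- counting
  have hri : (Kg ⊓ φ.ker).relIndex φ.ker ≠ 0 := by
    haveI : Kg.FiniteIndex := Subgroup.finiteIndex_of_le hNK
    rw [Subgroup.inf_relIndex_right]
    exact fun h => Subgroup.FiniteIndex.index_ne_zero
      (Subgroup.index_eq_zero_of_relIndex_eq_zero h)
  have hcnt := hCNT p k k' hμ hz n θ R hθ (fun r hr' => by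
      rw [hR, Multiset.mem_toFinset, mem_roots'] at hr'
      apply hPr
      rw [← eval_map_algebraMap]
      exact hr'.2) (fun i hi => by
      rw [hR, Multiset.mem_toFinset, mem_roots'] at hi
      apply hPθ i
      rw [← eval_map_algebraMap]
      exact hi.2) hInd φ hφ Kg hri (n / ℓ - 1) x (fun i => by rw [horb i]; exact hl3) hdis hfail
  exact absurd (hcnt.trans hidx) (not_le.2 hm)

end Pool.Agent.Helper55.RT
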