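import Pool.Agent.Helper55.RL.Asm3

/-!
# Thin exceptional sets, over all fields of characteristic zero: the statements of the parts
-/

set_option autoImplicit false
set_option linter.all false

open Polynomial IsDedekindDomain
open scoped Classical

namespace Pool.Agent.Helper55.RT

open Pool.Agent.TH115.GD Pool.Agent.Helper55.TT
open Pool.Agent.Helper55.RG hiding em_inj VanishL VanishExt
open Pool.Agent.Helper55.RL

/-- The monic polynomial of degree `n` with the coefficients `a`. -/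
noncomputable def mpol {R : Type} [CommRing R] {n : ℕ} (a : Fin n → R) : R[X] :=
  X ^ n + ∑ i : Fin n, C (a i) * X ^ (i : ℕ)

/-- `Q` holds outside of a thin subset of `k ^ n`: there are finitely many monic irreducible polynomials
`f` over `k(a₁, …, aₙ)` with coefficients in `k[a₁, …, aₙ]` and a polynomial `h ≠ 0`, such that `Q a` holds
for all `a` in `k ^ n` with `h(a) ≠ 0` for which the `f(a, Y)` are irreducible over `k`. -/
def OffThin {k : Type} [Field k] {n : ℕ} (Q : (Fin n → k) → Prop) : Prop :=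
  ∃ (h : MvPolynomial (Fin n) k) (S : Finset (MvPolynomial (Fin n) k)[X]), h ≠ 0 ∧
    (∀ f ∈ S, f.Monic ∧
      Irreducible (f.map (algebraMap (MvPolynomial (Fin n) k)
        (FractionRing (MvPolynomial (Fin n) k))))) ∧
    ∀ a : Fin n → k, MvPolynomial.eval a h ≠ 0 →
      (∀ f ∈ S, Irreducible (f.map (MvPolynomial.eval a))) → Q a

/-- The Galois group over `κ₀` is the full wreath product (two factors of it): for all orderings `θ`,
`θ'` of the roots of `D` and roots `b`, `c` of `g(θ i, Y)`, `g(θ j, Y)` and `b'`, `c'` of `g(θ' i, Y)`,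
`g(θ' j, Y)` there is an automorphism over `κ₀` which maps `θ`, `b`, `c` to `θ'`, `b'`, `c'`. -/
def Wr {k k' : Type} [Field k] [Field k'] [Algebra k k'] (κ₀ : IntermediateField k k')
    (g : κ₀[X][X]) (n : ℕ) (D : k[X]) : Prop :=
  ∀ θ θ' : Fin n → k', D.map (algebraMap k k') = ∏ i, (X - C (θ i)) →
    D.map (algebraMap k k') = ∏ i, (X - C (θ' i)) → ∀ i j : Fin n, i ≠ j → ∀ b c b' c' : k',
    ev2 (algebraMap κ₀ k') (θ i) b g = 0 → ev2 (algebraMap κ₀ k') (θ j) c g = 0 →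
    ev2 (algebraMap κ₀ k') (θ' i) b' g = 0 → ev2 (algebraMap κ₀ k') (θ' j) c' g = 0 →
    ∃ s : k' ≃ₐ[κ₀] k', (∀ l, s (θ l) = θ' l) ∧ s b = b' ∧ s c = c'

/-- The polynomial `g` is absolutely irreducible. -/
def AbsIrr {k k' : Type} [Field k] [Field k'] [Algebra k k'] {κ₀ : IntermediateField k k'}
    (g : κ₀[X][X]) : Prop :=
  Irreducible ((g.map (mapRingHom (algebraMap κ₀ k'))).map
    (algebraMap k'[X] (FractionRing k'[X])))

/-- SL: specialization. If `A` is a domain which is finite over `k[a₁, …, aₙ]` then outside of a thin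
set the fibres are fields. -/
def Q_SL : Prop := ∀ (k : Type) [Field k] [CharZero k] (n : ℕ) (A : Type) [CommRing A] [IsDomain A]
  [Algebra (MvPolynomial (Fin n) k) A] [Module.Finite (MvPolynomial (Fin n) k) A],
  Function.Injective (algebraMap (MvPolynomial (Fin n) k) A) →
  OffThin fun a : Fin n → k =>
    (Ideal.map (algebraMap (MvPolynomial (Fin n) k) A)
      (RingHom.ker (MvPolynomial.eval a : MvPolynomial (Fin n) k →+* k))).IsMaximal

/-- ABS: absolutely irreducible polynomials remain irreducible over all extensions `M` of `κ`. -/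
def Q_ABS : Prop := ∀ (κ k' M : Type) [Field κ] [CharZero κ] [Field k'] [Algebra κ k']
  [IsSepClosure κ k'] [Field M] [Algebra κ M] (g : κ[X][X]), g.Monic →
  Irreducible ((g.map (mapRingHom (algebraMap κ k'))).map
    (algebraMap k'[X] (FractionRing k'[X]))) →
  Irreducible ((g.map (mapRingHom (algebraMap κ M))).map (algebraMap M[X] (FractionRing M[X])))

/-- DOM: the generic wreath product algebra is a domain. -/
def Q_DOM : Prop := ∀ (k k' : Type) [Field k] [CharZero k] [Field k'] [Algebra k k']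
  [IsSepClosure k k'] (κ₀ : IntermediateField k k') [FiniteDimensional k κ₀] (g : κ₀[X][X]),
  g.Monic → AbsIrr g → ∀ (n : ℕ) (i j : Fin n), i ≠ j →
  ∃ (A : Type) (_ : CommRing A) (_ : IsDomain A) (_ : Algebra (MvPolynomial (Fin n) k) A)
    (e : κ₀ →+* A) (x : Fin n → A) (y z : A),
    Module.Finite (MvPolynomial (Fin n) k) A ∧
    Function.Injective (algebraMap (MvPolynomial (Fin n) k) A) ∧
    ∀ (a : Fin n → k) (θ : Fin n → k') (b c : k'),
      (mpol a).map (algebraMap k k') = ∏ l, (X - C (θ l)) →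
      ev2 (algebraMap κ₀ k') (θ i) b g = 0 → ev2 (algebraMap κ₀ k') (θ j) c g = 0 →
      ∃ φ : A →+* k', (∀ r, φ (algebraMap (MvPolynomial (Fin n) k) A r) =
          algebraMap k k' (MvPolynomial.eval a r)) ∧
        (∀ u, φ (e u) = (u : k')) ∧ (∀ l, φ (x l) = θ l) ∧ φ y = b ∧ φ z = c

/-- WRT: outside of a thin set the Galois group is the full wreath product. -/
def Q_WRT : Prop := ∀ (k k' : Type) [Field k] [CharZero k] [Field k'] [Algebra k k']
  [IsSepClosure k k'] (κ₀ : IntermediateField k k') [FiniteDimensional k κ₀] (g : κ₀[X][X]),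
  g.Monic → AbsIrr g → ∀ n : ℕ, OffThin fun a : Fin n → k => Wr κ₀ g n (mpol a)

/-- NDV: outside of a thin set the polynomial is irreducible and does not divide `s`. -/
def Q_NDV : Prop := ∀ (k : Type) [Field k] [CharZero k] (n : ℕ), 0 < n → ∀ s : k[X], s ≠ 0 →
  OffThin fun a : Fin n → k => Irreducible (mpol a) ∧ ¬ mpol a ∣ s

/-- The even permutations of the roots `θ` are given by automorphisms over `κ`. -/
def Alt {k k' : Type} [Field k] [Field k'] [Algebra k k'] (κ : IntermediateField k k') {n : ℕ}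
    (θ : Fin n → k') : Prop :=
  ∀ π ∈ alternatingGroup (Fin n), ∃ ν : k' ≃ₐ[κ] k', ∀ i, ν (θ i) = θ (π i)

/-- GRP: if a root is not in the normal extension `κ` then the Galois group of `D` over `κ` contains the
alternating group. -/
def Q_GRP : Prop := ∀ (k k' : Type) [Field k] [CharZero k] [Field k'] [Algebra k k']
  [IsSepClosure k k'] (κ₀ κ : IntermediateField k k') [Normal k κ], κ₀ ≤ κ →
  ∀ g : κ₀[X][X], g.Monic → 0 < g.natDegree → ∀ (n : ℕ) (D : k[X]) (θ : Fin n → k'), 5 ≤ n →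
  Irreducible D → D.map (algebraMap k k') = ∏ i, (X - C (θ i)) → Wr κ₀ g n D →
  (∃ i, θ i ∉ κ) → Alt κ θ

/-- CMM: the automorphisms over `κ(θ i)` are transitive on the roots of `g(θ i, Y)`. -/
def Q_CMM : Prop := ∀ (k k' : Type) [Field k] [CharZero k] [Field k'] [Algebra k k']
  [IsSepClosure k k'] (κ₀ κ : IntermediateField k k') [Normal k κ], κ₀ ≤ κ →
  ∀ (g : κ₀[X][X]) (n : ℕ) (D : k[X]) (θ : Fin n → k'), 5 ≤ n → Irreducible D →
  D.map (algebraMap k k') = ∏ i, (X - C (θ i)) → Wr κ₀ g n D → Alt κ θ →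
  ∀ (i : Fin n) (b b' : k'), ev2 (algebraMap κ₀ k') (θ i) b g = 0 →
  ev2 (algebraMap κ₀ k') (θ i) b' g = 0 → ∃ c : k' ≃ₐ[κ] k', c (θ i) = θ i ∧ c b = b'

/-- SPT: if the roots are in `k₂ κ₀` then they are in `k₂`. -/
def Q_SPT : Prop := ∀ (k k' : Type) [Field k] [CharZero k] [Field k'] [Algebra k k']
  [IsSepClosure k k'] (κ₀ k₂ : IntermediateField k k') [Normal k κ₀] [Normal k k₂],
  ∀ g : κ₀[X][X], g.Monic → 0 < g.natDegree → ∀ (n : ℕ) (D : k[X]) (θ : Fin n → k'), 3 ≤ n →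
  Irreducible D → D.map (algebraMap k k') = ∏ i, (X - C (θ i)) → Wr κ₀ g n D →
  (∀ i, θ i ∈ k₂ ⊔ κ₀) → ∀ i, θ i ∈ k₂

/-- IRD: `D` is irreducible over `κ`. -/
def Q_IRD : Prop := ∀ (k k' : Type) [Field k] [CharZero k] [Field k'] [Algebra k k']
  [IsSepClosure k k'] (κ : IntermediateField k k') (n : ℕ) (D : k[X]) (θ : Fin n → k'), 5 ≤ n →
  Irreducible D → D.map (algebraMap k k') = ∏ i, (X - C (θ i)) → Alt κ θ →
  Irreducible (D.map (algebraMap k κ))

/-- IDP: independence over `κ`. -/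
def Q_IDP : Prop := ∀ (p : ℕ) [Fact p.Prime] (k k' : Type) [Field k] [CharZero k] [Field k']
  [Algebra k k'] [IsSepClosure k k'] (κ₀ κ : IntermediateField k k') [Normal k κ], κ₀ ≤ κ →
  (∀ ζ : k', ζ ^ p = 1 → ζ ∈ κ₀) → ∀ (n : ℕ) (D : k[X]) (θ : Fin n → k'), 5 ≤ n →
  Irreducible D → D.map (algebraMap k k') = ∏ i, (X - C (θ i)) → Alt κ θ →
  ∀ s : k[X], s ≠ 0 → (∀ r : k', aeval r s = 0 → r ∈ κ₀) → (∀ i, aeval (θ i) s ≠ 0) →
  (∀ S : κ₀[X], S.Monic → S ∣ (s.map (algebraMap k κ₀)) ^ (p - 1) →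
    (∀ q : κ₀[X], Irreducible q → ¬ q ^ p ∣ S) → S ≠ 1 → Wr κ₀ (X ^ p - C S) n D) →
  IndepP p (D.map (algebraMap k κ)) (s.map (algebraMap k κ))

/-- ABP: `Y ^ p - S(X)` is absolutely irreducible. -/
def Q_ABP : Prop := ∀ (p : ℕ) [Fact p.Prime] (k k' : Type) [Field k] [CharZero k] [Field k']
  [Algebra k k'] [IsSepClosure k k'] (κ₀ : IntermediateField k k') (s : k[X]), s ≠ 0 →
  (∀ r : k', aeval r s = 0 → r ∈ κ₀) → ∀ S : κ₀[X], S.Monic →
  S ∣ (s.map (algebraMap k κ₀)) ^ (p - 1) → (∀ q : κ₀[X], Irreducible q → ¬ q ^ p ∣ S) → S ≠ 1 →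
  AbsIrr (X ^ p - C S : κ₀[X][X])

/-- DSG: descent of a primitive element to a finite extension of `k`. -/
def Q_DSG : Prop := ∀ (k k' K F : Type) [Field k] [CharZero k] [Field k'] [Algebra k k'] [Field K]
  [Algebra k[X] K] [Field F] [Algebra k'[X] F] [IsFractionRing k'[X] F] [Algebra K F],
  IsTower k k' K F → ∀ (L2 : IntermediateField K (Sep F)) [FiniteDimensional K L2] (T : Set k'),
  T.Finite → ∃ (κ₀ : IntermediateField k k') (g : κ₀[X][X]) (α : Sep F) (s₁ : k[X]),
    FiniteDimensional k κ₀ ∧ Normal k κ₀ ∧ (∀ t ∈ T, t ∈ κ₀) ∧ g.Monic ∧ 0 < g.natDegree ∧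
    AbsIrr g ∧ IntermediateField.adjoin K {α} = L2 ∧
    eval₂ (em k' F (Sep F)) α (g.map (mapRingHom (algebraMap κ₀ k'))) = 0 ∧ s₁ ≠ 0 ∧
    ∀ a : k', aeval a s₁ ≠ 0 →
      ((g.map (mapRingHom (algebraMap κ₀ k'))).map (evalRingHom a)).Separable

/-- MIR: irreducibility modulo `D`, if the automorphisms over `κ(θ)` are transitive on the roots. -/
def Q_MIR : Prop := ∀ (k k' : Type) [Field k] [CharZero k] [Field k'] [Algebra k k']
  [IsSepClosure k k'] (κ₀ κ : IntermediateField k k') (h : κ₀ ≤ κ) (g : κ₀[X][X]), g.Monic →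
  0 < g.natDegree → ∀ (D : κ[X]) (θ : k'), Irreducible D → aeval θ D = 0 →
  ((g.map (mapRingHom (algebraMap κ₀ k'))).map (evalRingHom θ)).Separable →
  (∀ b b' : k', ev2 (algebraMap κ₀ k') θ b g = 0 → ev2 (algebraMap κ₀ k') θ b' g = 0 →
    ∃ c : k' ≃ₐ[κ] k', c θ = θ ∧ c b = b') →
  Irreducible ((g.map (mapRingHom (IntermediateField.inclusion h : κ₀ →+* κ))).map
    (AdjoinRoot.mk D))

/-- BOT: transfer to `κ₁ = κ`. -/
def Q_BOT : Prop := ∀ (p : ℕ) (κ k' : Type) [Field κ] [Field k'] [Algebra κ k']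
  (κ₁ : IntermediateField κ k'), κ₁ = ⊥ → ∀ D s : κ[X],
  (Irreducible D → Irreducible (D.map (algebraMap κ κ₁))) ∧
  (IndepP p D s → IndepP p (D.map (algebraMap κ κ₁)) (s.map (algebraMap κ κ₁)))

/-- RSV: vanishing over a larger field of constants `κ` implies vanishing over `k₂`. -/
def Q_RSV : Prop := ∀ (p : ℕ) [Fact p.Prime] (k k' F : Type) [Field k] [CharZero k] [Field k']
  [Algebra k k'] [IsSepClosure k k'] [Field F] [Algebra k'[X] F] [IsFractionRing k'[X] F]
  (k₂ κ : IntermediateField k k'), k₂ ≤ κ → ∀ (K₂ K' : Type) [Field K₂] [Algebra k₂[X] K₂]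
  [Algebra K₂ F] [Field K'] [Algebra κ[X] K'] [Algebra K' F], IsTower k₂ k' K₂ F →
  IsTower κ k' K' F → ∀ (S : Set (Sep F)) (P D : k[X]),
  VanishL p k' K' F (IntermediateField.adjoin K' S) (P.map (algebraMap k κ))
    (D.map (algebraMap k κ)) →
  VanishL p k' K₂ F (IntermediateField.adjoin K₂ S) (P.map (algebraMap k k₂))
    (D.map (algebraMap k k₂))

end Pool.Agent.Helper55.RT
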