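import Pool.Agent.Helper55.RT.Asm
import Pool.Agent.Helper55.RG.Spec4

/-!
# Thin sets have density zero, over number fields: the statements of the parts
-/

set_option autoImplicit false
set_option linter.all false

open Polynomial IsDedekindDomain NumberField
open scoped Classical

namespace Pool.Agent.Helper55.RT

open Pool.Agent Pool.Agent.TH115.GD Pool.Agent.R939.EI Pool.Agent.R939.PP Pool.Agent.R939.HI
  Pool.Agent.W275.UB Pool.Agent.Helper55.TT Pool.Agent.H927R2.RD
open Pool.Agent.Helper55.RG hiding em_inj VanishL VanishExt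
open Pool.Agent.Helper55.RL

/-- HDN: thin sets have density zero (Cohen, Serre). -/
def Q_HDN : Prop := ∀ (k : Type) [Field k] [NumberField k] (J : Type) [Fintype J]
  (ω : Module.Basis J ℤ (𝓞 k)) (n : ℕ), 0 < n → ∀ Q : (Fin n → k) → Prop, OffThin Q →
  D0 {x : (Σ l : Fin 1, Fin ((fun _ => n : Fin 1 → ℕ) l + 1)) × J → ℤ |
    ¬ (kv ω x ⟨0, Fin.last n⟩ ≠ 0 ∧
      Q fun i => kv ω x ⟨0, i.castSucc⟩ / kv ω x ⟨0, Fin.last n⟩)}

/-- SCL: the condition does not depend on constant factors of `D`. -/
def Q_SCL : Prop := ∀ (p : ℕ) [Fact p.Prime] (k k' K F : Type) [Field k] [Field k'] [Algebra k k']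
  [Field K] [Field F] [Algebra k'[X] F] [IsFractionRing k'[X] F] [Algebra K F]
  (L : IntermediateField K (Sep F)) (P D : k[X]) (u : k), u ≠ 0 →
  VanishGal p k' K F L P D → VanishGal p k' K F L P (C u * D)

end Pool.Agent.Helper55.RT
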